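import Pool.Agent.DGP.Defs

/-!
Module Arc (size 2).  The image of a great circle arc under a map which is 1-Lipschitz on the unit sphere.

Let `θ = angle p q ∈ [0, π]`.  There is a unit vector `e ⟂ p` with `q = cos θ p + sin θ e` (for `q = ±p` any
unit vector orthogonal to `p`, it exists because `dim E ≥ 2`).  `c t = f (cos (tθ) p + sin (tθ) e)`.
`‖c t - c s‖ ≤ ‖u(t) - u(s)‖ ≤ θ |t - s|`, so `c` is continuous and its variation on `[0,1]` is `≤ θ`
(`LipschitzWith`/`LipschitzOnWith` and variation: e.g. `LipschitzOnWith.comp_eVariationOn_le` and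
the variation of the identity, `MonotoneOn.eVariationOn_le`).
-/

set_option autoImplicit false

open scoped RealInnerProductSpace Topology

namespace Pool.Agent.DGP

variable {E : Type*} [NormedAddCommGroup E] [InnerProductSpace ℝ E]

private theorem Arc_exists_orth [FiniteDimensional ℝ E] (hdim : 2 ≤ Module.finrank ℝ E) (p : E)
    (hp : ‖p‖ = 1) : ∃ e : E, ‖e‖ = 1 ∧ ⟪p, e⟫ = 0 := by
  have h1 : Module.finrank ℝ (ℝ ∙ p) ≤ 1 := by
    rw [finrank_span_singleton (by intro h; rw [h, norm_zero] at hp; exact zero_ne_one hp)]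
  have h2 := Submodule.finrank_add_finrank_orthogonal (ℝ ∙ p)
  have h3 : 0 < Module.finrank ℝ (ℝ ∙ p)ᗮ := by omega
  have := Module.finrank_pos_iff.mp h3
  obtain ⟨⟨w, hw⟩, hw0⟩ := exists_ne (0 : (ℝ ∙ p)ᗮ)
  have hw0' : w ≠ 0 := fun h => hw0 (by ext; simpa using h)
  have hwn : 0 < ‖w‖ := norm_pos_iff.mpr hw0'
  refine ⟨(‖w‖)⁻¹ • w, ?_, ?_⟩
  · rw [norm_smul, norm_inv, norm_norm, inv_mul_cancel₀ hwn.ne']
  · rw [real_inner_smul_right]
    have : ⟪p, w⟫ = 0 := by
      rw [Submodule.mem_orthogonal_singleton_iff_inner_right] at hw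
      exact hw
    rw [this, mul_zero]

private theorem Arc_exists_e [FiniteDimensional ℝ E] (hdim : 2 ≤ Module.finrank ℝ E) {p q : E}
    (hp : ‖p‖ = 1) (hq : ‖q‖ = 1) : ∃ e : E, ‖e‖ = 1 ∧ ⟪p, e⟫ = 0 ∧
      q = Real.cos (InnerProductGeometry.angle p q) • p
        + Real.sin (InnerProductGeometry.angle p q) • e := by
  have hcos : Real.cos (InnerProductGeometry.angle p q) = ⟪p, q⟫ := by
    have := InnerProductGeometry.cos_angle_mul_norm_mul_norm p q
    rw [hp, hq] at this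
    linarith
  set θ := InnerProductGeometry.angle p q with hθ
  by_cases hs : Real.sin θ = 0
  · obtain ⟨e, he, hpe⟩ := Arc_exists_orth hdim p hp
    refine ⟨e, he, hpe, ?_⟩
    rw [hs, zero_smul, add_zero]
    have h1 : ‖q - Real.cos θ • p‖ ^ 2 = 0 := by
      rw [norm_sub_sq_real, real_inner_smul_right, real_inner_comm, ← hcos, norm_smul, hp, hq,
        mul_one, Real.norm_eq_abs, sq_abs]
      have := Real.sin_sq_add_cos_sq θ
      rw [hs] at this
      nlinarith
    have h2 : ‖q - Real.cos θ • p‖ = 0 := by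
      exact pow_eq_zero_iff (two_ne_zero) |>.mp h1
    exact sub_eq_zero.mp (norm_eq_zero.mp h2)
  · refine ⟨(Real.sin θ)⁻¹ • (q - Real.cos θ • p), ?_, ?_, ?_⟩
    · have hsp : 0 < Real.sin θ := by
        refine lt_of_le_of_ne ?_ (Ne.symm hs)
        exact Real.sin_nonneg_of_nonneg_of_le_pi (InnerProductGeometry.angle_nonneg _ _)
          (InnerProductGeometry.angle_le_pi _ _)
      have h1 : ‖q - Real.cos θ • p‖ ^ 2 = Real.sin θ ^ 2 := by
        rw [norm_sub_sq_real, real_inner_smul_right, real_inner_comm, ← hcos, norm_smul, hp, hq,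
          mul_one, Real.norm_eq_abs, sq_abs]
        have := Real.sin_sq_add_cos_sq θ
        nlinarith
      have h2 : ‖q - Real.cos θ • p‖ = Real.sin θ := by
        have h3 := norm_nonneg (q - Real.cos θ • p)
        nlinarith [sq_nonneg (‖q - Real.cos θ • p‖ - Real.sin θ)]
      rw [norm_smul, h2, norm_inv, Real.norm_eq_abs, abs_of_pos hsp, inv_mul_cancel₀ hs]
    · rw [real_inner_smul_right, inner_sub_right, real_inner_smul_right,
        real_inner_self_eq_norm_sq, hp, ← hcos]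
      ring
    · rw [smul_smul, mul_inv_cancel₀ hs, one_smul]
      abel

private theorem Arc_norm_sub {p e : E} (hp : ‖p‖ = 1) (he : ‖e‖ = 1) (hpe : ⟪p, e⟫ = 0)
    (a b : ℝ) : ‖(Real.cos a • p + Real.sin a • e) - (Real.cos b • p + Real.sin b • e)‖
      ≤ |a - b| := by
  have h1 : (Real.cos a • p + Real.sin a • e) - (Real.cos b • p + Real.sin b • e)
      = (Real.cos a - Real.cos b) • p + (Real.sin a - Real.sin b) • e := by
    rw [sub_smul, sub_smul]; abel
  have h2 : ‖(Real.cos a - Real.cos b) • p + (Real.sin a - Real.sin b) • e‖ ^ 2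
      = (Real.cos a - Real.cos b) ^ 2 + (Real.sin a - Real.sin b) ^ 2 := by
    rw [norm_add_sq_real, real_inner_smul_left, real_inner_smul_right, hpe, norm_smul, norm_smul,
      hp, he, mul_one, mul_one, Real.norm_eq_abs, Real.norm_eq_abs, sq_abs, sq_abs]
    ring
  have h3 : (Real.cos a - Real.cos b) ^ 2 + (Real.sin a - Real.sin b) ^ 2
      = 2 - 2 * Real.cos (a - b) := by
    rw [Real.cos_sub]
    have := Real.sin_sq_add_cos_sq a
    have := Real.sin_sq_add_cos_sq b
    nlinarith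
  have h4 : 1 - (a - b) ^ 2 / 2 ≤ Real.cos (a - b) := Real.one_sub_sq_div_two_le_cos
  rw [h1]
  have h5 : ‖(Real.cos a - Real.cos b) • p + (Real.sin a - Real.sin b) • e‖ ^ 2 ≤ |a - b| ^ 2 := by
    rw [h2, h3, sq_abs]; linarith
  exact abs_le_of_sq_le_sq' h5 (abs_nonneg _) |>.2

private theorem Arc_unit {p e : E} (hp : ‖p‖ = 1) (he : ‖e‖ = 1) (hpe : ⟪p, e⟫ = 0)
    (a : ℝ) : ‖Real.cos a • p + Real.sin a • e‖ = 1 := by
  have h2 : ‖Real.cos a • p + Real.sin a • e‖ ^ 2 = 1 := by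
    rw [norm_add_sq_real, real_inner_smul_left, real_inner_smul_right, hpe, norm_smul, norm_smul,
      hp, he, mul_one, mul_one, Real.norm_eq_abs, Real.norm_eq_abs, sq_abs, sq_abs]
    have := Real.sin_sq_add_cos_sq a
    linarith
  have := norm_nonneg (Real.cos a • p + Real.sin a • e)
  nlinarith

theorem exists_path_image [FiniteDimensional ℝ E] (hdim : 2 ≤ Module.finrank ℝ E) (f : E → E)
    (hf : ∀ u v : E, ‖u‖ = 1 → ‖v‖ = 1 → ‖f u - f v‖ ≤ ‖u - v‖) {p q : E} (hp : ‖p‖ = 1)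
    (hq : ‖q‖ = 1) : ∃ c : C(unitInterval, E), c 0 = f p ∧ c 1 = f q ∧
      (∀ t, ∃ u : E, ‖u‖ = 1 ∧ c t = f u) ∧
      eVariationOn c Set.univ ≤ ENNReal.ofReal (InnerProductGeometry.angle p q) := by
  obtain ⟨e, he, hpe, hqe⟩ := Arc_exists_e hdim hp hq
  set θ := InnerProductGeometry.angle p q with hθ
  have hθ0 : 0 ≤ θ := InnerProductGeometry.angle_nonneg _ _
  set g : unitInterval → E := fun t => f (Real.cos ((t : ℝ) * θ) • p + Real.sin ((t : ℝ) * θ) • e)
    with hg
  have hlip : ∀ s t : unitInterval, ‖g s - g t‖ ≤ θ * |(s : ℝ) - t| := by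
    intro s t
    refine (hf _ _ (Arc_unit hp he hpe _) (Arc_unit hp he hpe _)).trans ?_
    refine (Arc_norm_sub hp he hpe _ _).trans ?_
    rw [← sub_mul, abs_mul, abs_of_nonneg hθ0, mul_comm]
  have hcont : Continuous g := by
    have : LipschitzWith ⟨θ, hθ0⟩ g := by
      refine LipschitzWith.of_dist_le_mul fun s t => ?_
      rw [dist_eq_norm]
      exact hlip s t
    exact this.continuous
  refine ⟨⟨g, hcont⟩, ?_, ?_, ?_, ?_⟩
  · show g 0 = f p
    simp [hg]
  · show g 1 = f q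
    have h1 : g 1 = f (Real.cos ((1 : ℝ) * θ) • p + Real.sin ((1 : ℝ) * θ) • e) := rfl
    rw [h1, one_mul, ← hqe]
  · intro t
    exact ⟨_, Arc_unit hp he hpe _, rfl⟩
  · show eVariationOn g Set.univ ≤ ENNReal.ofReal θ
    refine iSup_le fun P => ?_
    obtain ⟨n, ⟨u, hu, hus⟩⟩ := P
    show ∑ i ∈ Finset.range n, edist (g (u (i + 1))) (g (u i)) ≤ ENNReal.ofReal θ
    have h1 : ∀ i ∈ Finset.range n, edist (g (u (i + 1))) (g (u i))
        ≤ ENNReal.ofReal (θ * ((u (i + 1) : ℝ) - (u i : ℝ))) := by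
      intro i _
      rw [edist_dist, dist_eq_norm]
      refine ENNReal.ofReal_le_ofReal ?_
      refine (hlip _ _).trans ?_
      have : (u i : ℝ) ≤ (u (i + 1) : ℝ) := hu (Nat.le_succ i)
      rw [abs_of_nonneg (by linarith)]
    refine (Finset.sum_le_sum h1).trans ?_
    rw [← ENNReal.ofReal_sum_of_nonneg]
    · refine ENNReal.ofReal_le_ofReal ?_
      rw [← Finset.mul_sum, Finset.sum_range_sub (fun i => (u i : ℝ)) n]
      have a1 : (u n : ℝ) ≤ 1 := (u n).2.2
      have a2 : 0 ≤ (u 0 : ℝ) := (u 0).2.1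
      nlinarith
    · intro i _
      have : (u i : ℝ) ≤ (u (i + 1) : ℝ) := hu (Nat.le_succ i)
      exact mul_nonneg hθ0 (by linarith)

end Pool.Agent.DGP
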