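import Pool.Agent.DGP.PGrp

/-!
Module Center (size 3).  A nontrivial group of odd order with the `p²`- and `pq`-conditions is a
Z-group and has nontrivial centre.

Proof.  Every Sylow subgroup is cyclic (`isCyclic_of_odd_pGroup`; the primes dividing an odd number
are odd; for the other primes the Sylow subgroup is trivial), so `G` is a Z-group.
By the file `Mathlib/GroupTheory/SpecificGroups/ZGroup.lean`: `N := commutator G` is cyclic, of order
coprime to its index, and has a complement `H` (`Subgroup.exists_right_complement'_of_coprime`),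
cyclic.  If `H` is trivial then `N = G` is cyclic, so every element is central.  Otherwise let `p` be a prime
dividing `|H|` and `c ∈ H` of order `p`.  Let `a` generate `N`, `m = |N|`, `c a c⁻¹ = a^r`.  For
each prime `q ∣ m` the element `a^{m/q}` has order `q` and `c` normalises the subgroup it
generates, so by `h2` (note `p ≠ q`) `c` commutes with `a^{m/q}`: `m ∣ (m/q)(r-1)`, i.e. `q ∣ r - 1`.  Since `c^p = 1` we have
`m ∣ r^p - 1 = (r-1)(1 + r + ... + r^{p-1})`, and the second factor is `≡ p` mod `q`, so it is coprime to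
`m`; hence `m ∣ r - 1` and `c` commutes with `a`, so with `N`.  As `H` is cyclic (abelian), `c` commutes
with `H`; and `G = N H`, so `c` is central.
-/

set_option autoImplicit false

namespace Pool.Agent.DGP

theorem isZGroup_of_odd {G : Type*} [Group G] [Finite G] (hodd : Odd (Nat.card G))
    (h1 : ∀ p : ℕ, p.Prime → ∀ a c : G, Commute a c → a ^ p = 1 → c ^ p = 1 → a ≠ 1 →
      c ∈ Subgroup.zpowers a) : IsZGroup G := by
  refine ⟨fun p hp P => ?_⟩
  by_cases hp2 : p = 2
  · subst hp2
    haveI : Fact (Nat.Prime 2) := ⟨hp⟩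
    obtain ⟨n, hn⟩ := (IsPGroup.iff_card).mp P.2
    have hdvd : Nat.card P ∣ Nat.card G := P.card_subgroup_dvd_card
    have hn0 : n = 0 := by
      by_contra hne
      have h2 : 2 ∣ Nat.card P := by rw [hn]; exact dvd_pow_self 2 hne
      have h3 : 2 ∣ Nat.card G := h2.trans hdvd
      rcases hodd with ⟨k, hk⟩
      omega
    have hcard : Nat.card P = 1 := by rw [hn, hn0, pow_zero]
    haveI := (Nat.card_eq_one_iff_unique.mp hcard).1
    exact isCyclic_of_subsingleton
  · refine isCyclic_of_odd_pGroup hp hp2 P.2 ?_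
    intro a c hac ha hc ha1
    have := h1 p hp (a : G) (c : G) (by
        have := congrArg (Subtype.val) hac.eq
        exact this) (by
        have := congrArg (Subtype.val) ha
        simpa using this) (by
        have := congrArg (Subtype.val) hc
        simpa using this) (fun h => ha1 (Subtype.ext h))
    obtain ⟨k, hk⟩ := Subgroup.mem_zpowers_iff.mp this
    exact Subgroup.mem_zpowers_iff.mpr ⟨k, Subtype.ext (by simpa using hk)⟩

/-- If `c a c⁻¹ = a ^ r`, `c ^ p = 1`, then under the `pq`-condition `c` commutes with `a`. -/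
private theorem Center_commute {G : Type*} [Group G] [Finite G]
    (h2 : ∀ p q : ℕ, p.Prime → q.Prime → p ≠ q → ∀ a c : G, a ^ q = 1 → c ^ p = 1 →
      c * a * c⁻¹ ∈ Subgroup.zpowers a → Commute a c) (p : ℕ) (hp : p.Prime) (a c : G)
    (hc : c ^ p = 1) (hpa : ¬ p ∣ orderOf a) (r : ℤ) (hr : c * a * c⁻¹ = a ^ r) :
    c * a * c⁻¹ = a := by
  set m := orderOf a with hm
  have hm0 : 0 < m := orderOf_pos a
  have hconj : ∀ k : ℕ, c ^ k * a * (c ^ k)⁻¹ = a ^ (r ^ k) := by
    intro k
    induction k with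
    | zero => simp
    | succ k ih =>
      have : c ^ (k + 1) * a * (c ^ (k + 1))⁻¹ = c * (c ^ k * a * (c ^ k)⁻¹) * c⁻¹ := by
        rw [pow_succ']; group
      rw [this, ih, ← conj_zpow, hr, ← zpow_mul, pow_succ']
  have h3 : (m : ℤ) ∣ r ^ p - 1 := by
    have h4 := hconj p
    rw [hc] at h4
    simp only [one_mul, inv_one, mul_one] at h4
    rw [orderOf_dvd_iff_zpow_eq_one, zpow_sub, ← h4, zpow_one, mul_inv_cancel]
  have h5 : ∀ q : ℕ, q.Prime → q ∣ m → (q : ℤ) ∣ r - 1 := by
    intro q hq hqm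
    obtain ⟨l, hl⟩ := hqm
    have hpq : p ≠ q := by
      rintro rfl
      exact hpa (hl ▸ dvd_mul_right p l)
    have hcom := h2 p q hp hq hpq (a ^ l) c (by
        rw [← pow_mul, mul_comm, ← hl]; exact pow_orderOf_eq_one a) hc (by
        refine Subgroup.mem_zpowers_iff.mpr ⟨r, ?_⟩
        rw [← conj_pow, hr, ← zpow_natCast, ← zpow_natCast, ← zpow_mul, ← zpow_mul, mul_comm])
    have h6 : c * a ^ l * c⁻¹ = a ^ l := by
      rw [← hcom.eq, mul_inv_cancel_right]
    rw [← conj_pow, hr, ← zpow_natCast, ← zpow_mul] at h6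
    have h7 : a ^ (r * l - l : ℤ) = 1 := by
      rw [zpow_sub, h6, zpow_natCast, mul_inv_cancel]
    have h8 : (m : ℤ) ∣ r * l - l := orderOf_dvd_iff_zpow_eq_one.mpr h7
    rw [hl] at h8
    push_cast at h8
    have hl0 : (l : ℤ) ≠ 0 := by
      intro h
      have : l = 0 := by exact_mod_cast h
      rw [this, mul_zero] at hl
      omega
    have h9 : (q : ℤ) * l ∣ (r - 1) * l := by
      have : (r - 1) * (l : ℤ) = r * l - l := by ring
      rw [this]; exact h8
    exact Int.dvd_of_mul_dvd_mul_right hl0 h9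
  have h10 : (m : ℤ) ∣ r - 1 := by
    have hg := geom_sum_mul r p
    rw [← hg] at h3
    refine IsCoprime.dvd_of_dvd_mul_left ?_ h3
    rw [Int.isCoprime_iff_gcd_eq_one, Int.gcd_eq_natAbs, Int.natAbs_natCast]
    refine Nat.coprime_of_dvd fun q hq hqm hqS => ?_
    have hqS' : (q : ℤ) ∣ ∑ i ∈ Finset.range p, r ^ i := Int.natCast_dvd.mpr hqS
    have hqr := h5 q hq hqm
    have h11 : (q : ℤ) ∣ ∑ i ∈ Finset.range p, (r ^ i - 1) := by
      refine Finset.dvd_sum fun i _ => ?_
      have := sub_dvd_pow_sub_pow r 1 i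
      rw [one_pow] at this
      exact hqr.trans this
    rw [Finset.sum_sub_distrib] at h11
    simp only [Finset.sum_const, Finset.card_range, nsmul_eq_mul, mul_one] at h11
    have h12 : (q : ℤ) ∣ (p : ℤ) := by
      have := dvd_sub hqS' h11
      simpa using this
    have h13 : q ∣ p := by exact_mod_cast h12
    have h14 : q = p := (Nat.prime_dvd_prime_iff_eq hq hp).mp h13
    exact hpa (h14 ▸ hqm)
  rw [hr]
  obtain ⟨k, hk⟩ := h10
  have : r = 1 + m * k := by linarith
  rw [this, zpow_add, zpow_one, zpow_mul, zpow_natCast, pow_orderOf_eq_one, one_zpow, mul_one]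

theorem exists_center {G : Type*} [Group G] [Finite G] [Nontrivial G] (hodd : Odd (Nat.card G))
    (h1 : ∀ p : ℕ, p.Prime → ∀ a c : G, Commute a c → a ^ p = 1 → c ^ p = 1 → a ≠ 1 →
      c ∈ Subgroup.zpowers a)
    (h2 : ∀ p q : ℕ, p.Prime → q.Prime → p ≠ q → ∀ a c : G, a ^ q = 1 → c ^ p = 1 →
      c * a * c⁻¹ ∈ Subgroup.zpowers a → Commute a c) :
    ∃ c ∈ Subgroup.center G, c ≠ 1 := by
  haveI hZ := isZGroup_of_odd hodd h1
  have hN : IsCyclic (commutator G) := IsZGroup.isCyclic_commutator G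
  have hcop := IsZGroup.coprime_commutator_index G
  obtain ⟨H, hH⟩ := Subgroup.exists_right_complement'_of_coprime hcop
  have hidx : (commutator G).index = Nat.card H := hH.symm.index_eq_card
  have hlt := IsZGroup.commutator_lt G
  have hne1 : Nat.card H ≠ 1 := by
    rw [← hidx]
    intro h
    exact hlt.ne (Subgroup.index_eq_one.mp h)
  obtain ⟨p, hp, hpH⟩ := Nat.exists_prime_and_dvd hne1
  haveI : Fact p.Prime := ⟨hp⟩
  obtain ⟨⟨c, hcH⟩, hc⟩ := exists_prime_orderOf_dvd_card' p hpH
  have hc' : orderOf c = p := by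
    rw [← hc]; exact (Subgroup.orderOf_mk c hcH).symm
  have hcp : c ^ p = 1 := by rw [← hc']; exact pow_orderOf_eq_one c
  have hc1 : c ≠ 1 := by
    rintro rfl
    rw [orderOf_one] at hc'
    exact hp.ne_one hc'.symm
  obtain ⟨⟨a, haN⟩, ha⟩ := hN.exists_generator
  have hcardN : orderOf a ∣ Nat.card (commutator G) := by
    rw [← Subgroup.orderOf_mk a haN]; exact orderOf_dvd_natCard _
  have hpa : ¬ p ∣ orderOf a := by
    intro h
    have e1 := h.trans hcardN
    have e2 : p ∣ (commutator G).index := by rw [hidx]; exact hpH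
    exact Nat.Prime.not_coprime_iff_dvd.mpr ⟨p, hp, e1, e2⟩ hcop
  have hconjN : c * a * c⁻¹ ∈ commutator G :=
    (inferInstance : (commutator G).Normal).conj_mem a haN c
  obtain ⟨r, hr⟩ := Subgroup.mem_zpowers_iff.mp (ha ⟨_, hconjN⟩)
  have hr' : c * a * c⁻¹ = a ^ r := by
    have := congrArg Subtype.val hr
    simpa using this.symm
  have hca := Center_commute h2 p hp a c hcp hpa r hr'
  have hcomN : ∀ n ∈ commutator G, n * c = c * n := by
    intro n hn
    obtain ⟨k, hk⟩ := Subgroup.mem_zpowers_iff.mp (ha ⟨n, hn⟩)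
    have hk' : a ^ k = n := by
      have := congrArg Subtype.val hk
      simpa using this
    have hac : Commute a c := by
      have : c * a = a * c := by
        rw [← mul_inv_eq_iff_eq_mul]; exact hca
      exact this.symm
    rw [← hk']
    exact (hac.zpow_left k).eq
  have hcomH : ∀ h ∈ H, h * c = c * h := by
    intro h hh
    have e1 : h * c * h⁻¹ * c⁻¹ ∈ H := H.mul_mem (H.mul_mem (H.mul_mem hh hcH) (H.inv_mem hh))
      (H.inv_mem hcH)
    have e2 : h * c * h⁻¹ * c⁻¹ ∈ commutator G := by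
      rw [commutator_def]
      exact Subgroup.commutator_mem_commutator (Subgroup.mem_top h) (Subgroup.mem_top c)
    have e3 : h * c * h⁻¹ * c⁻¹ ∈ commutator G ⊓ H := ⟨e2, e1⟩
    rw [hH.disjoint.eq_bot, Subgroup.mem_bot] at e3
    rw [mul_inv_eq_one] at e3
    rw [mul_inv_eq_iff_eq_mul] at e3
    exact e3
  refine ⟨c, ?_, hc1⟩
  rw [Subgroup.mem_center_iff]
  intro g
  obtain ⟨⟨⟨n, hn⟩, ⟨h, hh⟩⟩, hg⟩ := hH.surjective g
  have hg' : n * h = g := hg
  rw [← hg', mul_assoc, hcomH h hh, ← mul_assoc, hcomN n hn, mul_assoc]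

end Pool.Agent.DGP
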