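import Pool.Agent.DGP.Defs

/-!
Module Even (size 1).  A finite group of even order which acts freely contains `-1`: by Cauchy there is
`z ∈ Γ` with `z² = 1`, `z ≠ 1`; the vector `x + z x` is fixed by `z`, so `z x = -x`.
-/

set_option autoImplicit false

open scoped RealInnerProductSpace

namespace Pool.Agent.DGP

variable {E : Type*} [NormedAddCommGroup E] [InnerProductSpace ℝ E]

theorem neg_mem_of_even (Γ : Subgroup (E ≃ₗᵢ[ℝ] E)) [Finite Γ] (hfree : ActsFreely Γ)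
    (heven : Even (Nat.card Γ)) : LinearIsometryEquiv.neg ℝ ∈ Γ := by
  haveI : Fact (Nat.Prime 2) := ⟨Nat.prime_two⟩
  obtain ⟨z, hz⟩ := exists_prime_orderOf_dvd_card' (G := Γ) 2 heven.two_dvd
  have hz2 : z * z = 1 := by
    have := pow_orderOf_eq_one z
    rwa [hz, pow_two] at this
  have hz1 : (z : E ≃ₗᵢ[ℝ] E) ≠ 1 := by
    intro h
    have : z = 1 := Subtype.ext h
    rw [this, orderOf_one] at hz
    omega
  have hzz : ∀ x : E, (z : E ≃ₗᵢ[ℝ] E) ((z : E ≃ₗᵢ[ℝ] E) x) = x := by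
    intro x
    have h : ((z * z : Γ) : E ≃ₗᵢ[ℝ] E) x = x := by rw [hz2]; rfl
    exact h
  have hneg : (z : E ≃ₗᵢ[ℝ] E) = LinearIsometryEquiv.neg ℝ := by
    apply LinearIsometryEquiv.ext
    intro x
    have h := hfree z z.2 hz1 (x + (z : E ≃ₗᵢ[ℝ] E) x) (by rw [map_add, hzz, add_comm])
    change (z : E ≃ₗᵢ[ℝ] E) x = -x
    exact (neg_eq_of_add_eq_zero_right h).symm
  rw [← hneg]
  exact z.2

end Pool.Agent.DGP
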