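import Pool.Agent.DGP.Sums

/-!
Module Ineq (size 3).  Lower bounds for `max_γ ⟨γ p, q⟩`.

The second moment: for an irreducible finite group `Γ` and unit vectors `p, q`,
`∑_{γ ∈ Γ} ⟨γ p, q⟩² = |Γ| / dim E`.  A complete Lean proof (for `EuclideanSpace ℝ (Fin (n+1))`) is in
`Pool/Agent/Results/MP_28a8c3_gt/SphericalGap.lean` (lemmas `T`, `T_scalar`, `sum_sq`); please adapt
it (copy the lemmas, with a general orthonormal basis `stdOrthonormalBasis ℝ E`; `E` is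
nontrivial as it contains a unit vector).

(1) If `-1 ∈ Γ`: some `γ` has `⟨γ p, q⟩² ≥ 1/dim E`, i.e. `|⟨γ p, q⟩| ≥ 1/√(dim E)`; replace `γ` by
`-γ` if necessary.

(2) Let `|Γ|` be odd, `c ∈ Γ` central, `c ≠ 1`, `Γ` free.  `S = c + c⁻¹` is self-adjoint and commutes with
`Γ`, so by irreducibility it is a scalar `2λ`.  So `c² = 2 λ c - 1`.  `|λ| < 1`: `|λ| ≤ 1` because
`‖S‖ ≤ 2`, and `λ = ±1` gives `(c ∓ 1)² = 0`, so `c = ± 1` (c is an isometry: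
`‖(c ∓ 1)x‖² = ⟨(c∓1)x,(c∓1)x⟩ = ⟨x, (2 ∓ S) x⟩ = 0`), impossible for `c ≠ 1` of odd order.
Let `σ = √(1-λ²) > 0`, `J = (c - λ)/σ`: `J` is a linear isometry (`‖(c - λ) x‖² = ‖x‖² - 2 λ ⟨c x, x⟩ + λ²‖x‖²
= (1 - λ²)‖x‖²`, as `⟨c x, x⟩ = ⟨S x, x⟩/2 = λ ‖x‖²`).  So `J q` is a unit vector and
`∑_γ (⟨γ p, q⟩² + ⟨γ p, J q⟩²) = 2|Γ|/dim E`; hence there is `γ` with `X = ⟨γ p, q⟩`,
`Y = ⟨γ p, J q⟩`, `ρ² := X² + Y² ≥ 2/dim E`.
Let `m` be the order of `c` (odd, `≥ 3`) and `x_k = ⟨c^k γ p, q⟩`, `y_k = ⟨c^k γ p, J q⟩`, `k < m`.  In the plane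
`span (q, J q)` (orthonormal, as `⟨q, J q⟩ = 0`; invariant under `c`) `c` is a rotation, so `x_k² + y_k² = ρ²` for all
`k`: indeed `⟨c z, q⟩ = ⟨z, c⁻¹ q⟩ = ⟨z, λ q - σ J q⟩` and
`⟨c z, J q⟩ = ⟨z, c⁻¹ J q⟩ = ⟨z, σ q + λ J q⟩`, so `(x_{k+1}, y_{k+1})` is a rotation of
`(x_k, y_k)`.  `∑_k x_k = 0` (`sum_pow_eq_zero`).  `∑_k x_k² = m ρ²/2`: with `w_k = x_k + i y_k`,
`w_{k+1} = ω w_k`, `ω = λ + i σ` or its conjugate, `ω^m = 1`, `ω² ≠ 1`, so `∑ w_k² = 0`, i.e. `∑ (x_k² - y_k²) = 0`.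
Let `δ = max_k x_k`.  All `x_k ≥ -ρ`, so `0 ≤ ∑ (x_k + ρ)(δ - x_k) = m ρ δ - ∑ x_k² = m ρ (δ - ρ/2)`
and `δ ≥ ρ/2 ≥ (1/2) √(2/dim E) = 1/√(2 dim E)`.
-/

set_option autoImplicit false

open scoped RealInnerProductSpace

namespace Pool.Agent.DGP

variable {E : Type*} [NormedAddCommGroup E] [InnerProductSpace ℝ E]

omit [InnerProductSpace ℝ E] in
private theorem Ineq_nontrivial {p : E} (hp : ‖p‖ = 1) : Nontrivial E :=
  ⟨p, 0, fun h => by rw [h, norm_zero] at hp; exact zero_ne_one hp⟩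

private theorem Ineq_scalar [FiniteDimensional ℝ E] [Nontrivial E] (Γ : Subgroup (E ≃ₗᵢ[ℝ] E))
    (hirr : Irred Γ) (S : E →ₗ[ℝ] E) (hS : S.IsSymmetric)
    (hcomm : ∀ δ ∈ Γ, ∀ x, S (δ x) = δ (S x)) : ∃ c : ℝ, ∀ x, S x = c • x := by
  have hpos : 0 < Module.finrank ℝ E := Module.finrank_pos
  obtain ⟨c, hev⟩ : ∃ c : ℝ, Module.End.HasEigenvalue S c :=
    ⟨_, hS.hasEigenvalue_eigenvalues rfl ⟨0, hpos⟩⟩
  refine ⟨c, fun x => ?_⟩
  rcases hirr (Module.End.eigenspace S c) (by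
    intro γ hγ w hw
    rw [Module.End.mem_eigenspace_iff] at hw ⊢
    rw [hcomm γ hγ w, hw, map_smul]) with h | h
  · exact absurd h hev
  · have : x ∈ Module.End.eigenspace S c := by rw [h]; trivial
    exact Module.End.mem_eigenspace_iff.1 this

/-- the operator `x ↦ ∑ ⟪γ p, x⟫ γ p` -/
private noncomputable def Ineq_T (Γ : Subgroup (E ≃ₗᵢ[ℝ] E)) [Fintype Γ] (p : E) : E →ₗ[ℝ] E :=
  ∑ γ : Γ, (innerₛₗ ℝ ((γ : E ≃ₗᵢ[ℝ] E) p)).smulRight ((γ : E ≃ₗᵢ[ℝ] E) p)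

private theorem Ineq_T_apply (Γ : Subgroup (E ≃ₗᵢ[ℝ] E)) [Fintype Γ] (p x : E) :
    Ineq_T Γ p x = ∑ γ : Γ, ⟪(γ : E ≃ₗᵢ[ℝ] E) p, x⟫ • (γ : E ≃ₗᵢ[ℝ] E) p := by
  simp [Ineq_T]

private theorem Ineq_inner_T (Γ : Subgroup (E ≃ₗᵢ[ℝ] E)) [Fintype Γ] (p x y : E) :
    ⟪Ineq_T Γ p x, y⟫ =
      ∑ γ : Γ, ⟪(γ : E ≃ₗᵢ[ℝ] E) p, x⟫ * ⟪(γ : E ≃ₗᵢ[ℝ] E) p, y⟫ := by
  rw [Ineq_T_apply, sum_inner]
  simp [inner_smul_left]

private theorem Ineq_T_symm (Γ : Subgroup (E ≃ₗᵢ[ℝ] E)) [Fintype Γ] (p : E) :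
    (Ineq_T Γ p).IsSymmetric := by
  intro x y
  rw [Ineq_inner_T, real_inner_comm, Ineq_inner_T]
  exact Finset.sum_congr rfl fun γ _ => mul_comm _ _

private theorem Ineq_T_comm (Γ : Subgroup (E ≃ₗᵢ[ℝ] E)) [Fintype Γ] (p : E) (δ : E ≃ₗᵢ[ℝ] E)
    (hδ : δ ∈ Γ) (x : E) : Ineq_T Γ p (δ x) = δ (Ineq_T Γ p x) := by
  rw [Ineq_T_apply, Ineq_T_apply, map_sum]
  refine Fintype.sum_equiv (Equiv.mulLeft (⟨δ, hδ⟩ : Γ)⁻¹) _ _ (fun γ => ?_)
  have h1 : ((Equiv.mulLeft (⟨δ, hδ⟩ : Γ)⁻¹ γ : Γ) : E ≃ₗᵢ[ℝ] E) p =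
      δ.symm ((γ : E ≃ₗᵢ[ℝ] E) p) := rfl
  rw [h1, map_smul, LinearIsometryEquiv.apply_symm_apply]
  congr 1
  rw [← LinearIsometryEquiv.inner_map_map δ (δ.symm ((γ : E ≃ₗᵢ[ℝ] E) p)) x,
    LinearIsometryEquiv.apply_symm_apply]

theorem sum_sq_inner [FiniteDimensional ℝ E] (Γ : Subgroup (E ≃ₗᵢ[ℝ] E)) [Fintype Γ]
    (hirr : Irred Γ) {p q : E} (hp : ‖p‖ = 1) (hq : ‖q‖ = 1) :
    ∑ γ : Γ, ⟪(γ : E ≃ₗᵢ[ℝ] E) p, q⟫ ^ 2 = (Fintype.card Γ : ℝ) / Module.finrank ℝ E := by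
  have := Ineq_nontrivial hp
  obtain ⟨c, hc⟩ := Ineq_scalar Γ hirr (Ineq_T Γ p) (Ineq_T_symm Γ p) (Ineq_T_comm Γ p)
  have key : ∀ x : E, ∑ γ : Γ, ⟪(γ : E ≃ₗᵢ[ℝ] E) p, x⟫ ^ 2 = c * ‖x‖ ^ 2 := by
    intro x
    have h := Ineq_inner_T Γ p x x
    rw [hc, inner_smul_left, real_inner_self_eq_norm_sq] at h
    simp only [pow_two] at h ⊢
    simpa using h.symm
  have hpos : (0 : ℝ) < Module.finrank ℝ E := by
    exact_mod_cast (Module.finrank_pos : 0 < Module.finrank ℝ E)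
  have htr : (Fintype.card Γ : ℝ) = c * Module.finrank ℝ E := by
    have h1 : ∑ i : Fin (Module.finrank ℝ E), ∑ γ : Γ,
        ⟪(γ : E ≃ₗᵢ[ℝ] E) p, stdOrthonormalBasis ℝ E i⟫ ^ 2 = c * Module.finrank ℝ E := by
      simp only [key]
      simp
      ring
    have h2 : ∀ γ : Γ, ∑ i : Fin (Module.finrank ℝ E),
        ⟪(γ : E ≃ₗᵢ[ℝ] E) p, stdOrthonormalBasis ℝ E i⟫ ^ 2 = 1 := by
      intro γ
      have h3 := OrthonormalBasis.sum_sq_inner_right (stdOrthonormalBasis ℝ E)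
        ((γ : E ≃ₗᵢ[ℝ] E) p)
      rw [LinearIsometryEquiv.norm_map, hp, one_pow] at h3
      rw [← h3]
      refine Finset.sum_congr rfl fun i _ => ?_
      rw [real_inner_comm]
    rw [Finset.sum_comm] at h1
    simp only [h2] at h1
    simpa using h1
  rw [key q, hq, htr]
  field_simp

theorem exists_inner_of_neg [FiniteDimensional ℝ E] (Γ : Subgroup (E ≃ₗᵢ[ℝ] E)) [Finite Γ]
    (hirr : Irred Γ) (hneg : LinearIsometryEquiv.neg ℝ ∈ Γ) {p q : E} (hp : ‖p‖ = 1)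
    (hq : ‖q‖ = 1) : ∃ γ ∈ Γ, 1 / √(Module.finrank ℝ E : ℝ) ≤ ⟪γ p, q⟫ := by
  have := Fintype.ofFinite Γ
  have := Ineq_nontrivial hp
  have hpos : (0 : ℝ) < Module.finrank ℝ E := by
    exact_mod_cast (Module.finrank_pos : 0 < Module.finrank ℝ E)
  have hs := sum_sq_inner Γ hirr hp hq
  obtain ⟨γ, -, hγ⟩ := Finset.exists_le_of_sum_le (s := (Finset.univ : Finset Γ))
    (f := fun _ => 1 / (Module.finrank ℝ E : ℝ))
    (g := fun γ : Γ => ⟪(γ : E ≃ₗᵢ[ℝ] E) p, q⟫ ^ 2) ⟨1, Finset.mem_univ _⟩ (by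
      rw [hs, Finset.sum_const, Finset.card_univ, nsmul_eq_mul]
      exact le_of_eq (by ring))
  have h1 : 1 / √(Module.finrank ℝ E : ℝ) ≤ |⟪(γ : E ≃ₗᵢ[ℝ] E) p, q⟫| := by
    rw [← Real.sqrt_sq_eq_abs, ← Real.sqrt_one, ← Real.sqrt_div zero_le_one]
    exact Real.sqrt_le_sqrt hγ
  rcases abs_choice (⟪(γ : E ≃ₗᵢ[ℝ] E) p, q⟫) with h | h
  · exact ⟨γ, γ.2, by rwa [h] at h1⟩
  · refine ⟨LinearIsometryEquiv.neg ℝ * (γ : E ≃ₗᵢ[ℝ] E), Γ.mul_mem hneg γ.2, ?_⟩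
    have h2 : ((LinearIsometryEquiv.neg ℝ : E ≃ₗᵢ[ℝ] E) * (γ : E ≃ₗᵢ[ℝ] E)) p =
      -((γ : E ≃ₗᵢ[ℝ] E) p) := rfl
    rw [h2, inner_neg_left]
    rwa [h] at h1

private theorem Ineq_flip (c : E ≃ₗᵢ[ℝ] E) (x y : E) : ⟪c x, y⟫ = ⟪x, c.symm y⟫ := by
  rw [← c.inner_map_map x (c.symm y), c.apply_symm_apply]

private theorem Ineq_flip' (c : E ≃ₗᵢ[ℝ] E) (x y : E) : ⟪c.symm x, y⟫ = ⟪x, c y⟫ := by
  rw [← c.inner_map_map (c.symm x) y, c.apply_symm_apply]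

/-- a rotation sequence which is periodic has zero sum -/
private theorem Ineq_rot {x y : ℕ → ℝ} {a b : ℝ} {m : ℕ} (hx : ∀ k, x (k + 1) = a * x k - b * y k)
    (hy : ∀ k, y (k + 1) = b * x k + a * y k) (hxm : x m = x 0) (hym : y m = y 0)
    (hab : a ^ 2 + b ^ 2 = 1) (ha : a ≠ 1) : ∑ k ∈ Finset.range m, x k = 0 := by
  have h1 : ∑ k ∈ Finset.range m, x (k + 1) = ∑ k ∈ Finset.range m, x k := by
    have := Finset.sum_range_succ' x m
    have h2 := Finset.sum_range_succ x m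
    linarith
  have h2 : ∑ k ∈ Finset.range m, y (k + 1) = ∑ k ∈ Finset.range m, y k := by
    have := Finset.sum_range_succ' y m
    have h2 := Finset.sum_range_succ y m
    linarith
  simp only [hx] at h1
  simp only [hy] at h2
  rw [Finset.sum_sub_distrib, ← Finset.mul_sum, ← Finset.mul_sum] at h1
  rw [Finset.sum_add_distrib, ← Finset.mul_sum, ← Finset.mul_sum] at h2
  set A := ∑ k ∈ Finset.range m, x k
  set B := ∑ k ∈ Finset.range m, y k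
  have h3 : (2 * (1 - a)) * A = 0 := by
    linear_combination (a - 1) * h1 + b * h2 - A * hab
  rcases mul_eq_zero.1 h3 with h | h
  · exact absurd (by linarith : a = 1) ha
  · exact h

theorem exists_inner_of_center [FiniteDimensional ℝ E] (Γ : Subgroup (E ≃ₗᵢ[ℝ] E)) [Finite Γ]
    (hfree : ActsFreely Γ) (hirr : Irred Γ) (hodd : Odd (Nat.card Γ)) {c : E ≃ₗᵢ[ℝ] E}
    (hc : c ∈ Γ) (hcomm : ∀ γ ∈ Γ, c * γ = γ * c) (hc1 : c ≠ 1) {p q : E} (hp : ‖p‖ = 1)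
    (hq : ‖q‖ = 1) : ∃ γ ∈ Γ, 1 / √(2 * (Module.finrank ℝ E : ℝ)) ≤ ⟪γ p, q⟫ := by
  have := Fintype.ofFinite Γ
  have := Ineq_nontrivial hp
  have hpos : (0 : ℝ) < Module.finrank ℝ E := by
    exact_mod_cast (Module.finrank_pos : 0 < Module.finrank ℝ E)
  have hq0 : q ≠ 0 := fun h => by rw [h, norm_zero] at hq; exact zero_ne_one hq
  -- c + c⁻¹ is a scalar
  obtain ⟨μ, hμ⟩ := Ineq_scalar Γ hirr
    (c.toLinearEquiv.toLinearMap + c.symm.toLinearEquiv.toLinearMap) (by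
      intro x y
      show ⟪c x + c.symm x, y⟫ = ⟪x, c y + c.symm y⟫
      rw [inner_add_left, inner_add_right, Ineq_flip, Ineq_flip', add_comm]) (by
      intro δ hδ x
      show c (δ x) + c.symm (δ x) = δ (c x + c.symm x)
      have h1 : ∀ z, c (δ z) = δ (c z) := fun z => congrArg (fun g : E ≃ₗᵢ[ℝ] E => g z) (hcomm δ hδ)
      have h2 : c.symm (δ x) = δ (c.symm x) := by
        apply c.injective
        rw [c.apply_symm_apply, h1, c.apply_symm_apply]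
      rw [map_add, h1, h2])
  obtain ⟨lam, hlam⟩ : ∃ l : ℝ, μ = 2 * l := ⟨μ / 2, by ring⟩
  have hS : ∀ x, c x + c.symm x = (2 * lam) • x := by
    intro x
    rw [← hlam]
    exact hμ x
  have hsymm : ∀ x, c.symm x = (2 * lam) • x - c x := fun x => by rw [← hS]; abel
  have hcc : ∀ x, c (c x) = (2 * lam) • c x - x := by
    intro x
    have := hS (c x)
    rw [c.symm_apply_apply] at this
    rw [← this]
    abel
  have hin : ∀ x, ⟪c x, x⟫ = lam * ‖x‖ ^ 2 := by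
    intro x
    have h1 : ⟪c x + c.symm x, x⟫ = 2 * lam * ‖x‖ ^ 2 := by
      rw [hS, inner_smul_left, real_inner_self_eq_norm_sq]
      simp
    have h2 : ⟪c.symm x, x⟫ = ⟪c x, x⟫ := by rw [Ineq_flip', real_inner_comm]
    rw [inner_add_left, h2] at h1
    linarith
  have hnorm : ‖c q - lam • q‖ ^ 2 = 1 - lam ^ 2 := by
    rw [norm_sub_sq_real, c.norm_map, hq, inner_smul_right, hin, hq, norm_smul, hq,
      Real.norm_eq_abs, mul_one, sq_abs]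
    ring
  -- |lam| < 1
  have hcm : c ^ (Nat.card Γ) = 1 := by
    have h := pow_card_eq_one' (x := (⟨c, hc⟩ : Γ))
    exact congrArg (fun g : Γ => (g : E ≃ₗᵢ[ℝ] E)) h
  have hlt : lam ^ 2 < 1 := by
    have h0 : 0 ≤ ‖c q - lam • q‖ ^ 2 := sq_nonneg _
    rcases (show lam ^ 2 ≤ 1 by linarith).lt_or_eq with h | h
    · exact h
    · exfalso
      have h1 : ‖c q - lam • q‖ ^ 2 = 0 := by rw [hnorm]; linarith
      have h2 : c q = lam • q := by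
        have := norm_eq_zero.1 ((pow_eq_zero_iff (two_ne_zero)).1 h1)
        exact sub_eq_zero.1 this
      have h30 : (lam - 1) * (lam + 1) = 0 := by linear_combination h
      rcases mul_eq_zero.1 h30 with h3 | h3
      · rw [show lam = 1 by linarith, one_smul] at h2
        exact hq0 (hfree c hc hc1 q h2)
      · rw [show lam = -1 by linarith] at h2
        have h4 : ∀ k : ℕ, (c ^ k) q = ((-1 : ℝ) ^ k) • q := by
          intro k
          induction k with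
          | zero => simp
          | succ k ih =>
            rw [pow_succ']
            show c ((c ^ k) q) = _
            rw [ih, map_smul, h2, smul_smul, pow_succ]
        have h5 := h4 (Nat.card Γ)
        rw [hcm, hodd.neg_one_pow] at h5
        have h6 : q = -q := by simpa using h5
        have h7 : (2 : ℝ) • q = 0 := by
          rw [two_smul]
          nth_rewrite 2 [h6]
          exact add_neg_cancel q
        rcases smul_eq_zero.1 h7 with h8 | h8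
        · norm_num at h8
        · exact hq0 h8
  obtain ⟨σ, hσ0, hσ⟩ : ∃ σ : ℝ, 0 < σ ∧ σ ^ 2 = 1 - lam ^ 2 :=
    ⟨√(1 - lam ^ 2), Real.sqrt_pos.2 (by linarith), Real.sq_sqrt (by linarith)⟩
  -- J q
  obtain ⟨J, hJ⟩ : ∃ J : E, c q = lam • q + σ • J := by
    refine ⟨σ⁻¹ • (c q - lam • q), ?_⟩
    rw [smul_smul, mul_inv_cancel₀ hσ0.ne', one_smul]
    abel
  have hJn : ‖J‖ = 1 := by
    have h1 : c q - lam • q = σ • J := by rw [hJ]; abel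
    rw [h1, norm_smul, mul_pow, Real.norm_eq_abs, sq_abs, hσ] at hnorm
    have h2 : 0 < 1 - lam ^ 2 := by linarith
    have h3 : ‖J‖ ^ 2 = 1 := by
      have : (1 - lam ^ 2) * (‖J‖ ^ 2 - 1) = 0 := by linarith
      rcases mul_eq_zero.1 this with h | h
      · linarith
      · linarith
    have h4 := norm_nonneg J
    nlinarith
  have hcJ : c J = -(σ • q) + lam • J := by
    have h1 : σ • c J = σ • (-(σ • q) + lam • J) := by
      have h2 : c (c q) = lam • c q + σ • c J := by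
        conv_lhs => rw [hJ]
        rw [map_add, map_smul, map_smul]
      have h3 : σ • c J = (2 * lam) • c q - q - lam • c q := by
        rw [← hcc, h2]
        abel
      rw [h3, hJ]
      have h4 : σ • (-(σ • q) + lam • J) = (-(σ ^ 2)) • q + (σ * lam) • J := by
        rw [smul_add, smul_neg, smul_smul, smul_smul, ← sq, neg_smul]
      rw [h4, hσ]
      module
    have h5 := congrArg (fun z => σ⁻¹ • z) h1
    simp only [smul_smul, inv_mul_cancel₀ hσ0.ne', one_smul] at h5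
    exact h5
  have hsq : c.symm q = lam • q - σ • J := by
    rw [hsymm, hJ]
    module
  have hsJ : c.symm J = σ • q + lam • J := by
    rw [hsymm, hcJ]
    module
  -- choice of γ
  have hs1 := sum_sq_inner Γ hirr hp hq
  have hs2 := sum_sq_inner Γ hirr hp hJn
  obtain ⟨γ, -, hγ⟩ := Finset.exists_le_of_sum_le (s := (Finset.univ : Finset Γ))
    (f := fun _ => 2 / (Module.finrank ℝ E : ℝ))
    (g := fun γ : Γ => ⟪(γ : E ≃ₗᵢ[ℝ] E) p, q⟫ ^ 2 + ⟪(γ : E ≃ₗᵢ[ℝ] E) p, J⟫ ^ 2)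
    ⟨1, Finset.mem_univ _⟩ (by
      rw [Finset.sum_add_distrib, hs1, hs2, Finset.sum_const, Finset.card_univ, nsmul_eq_mul]
      exact le_of_eq (by ring))
  set v : E := (γ : E ≃ₗᵢ[ℝ] E) p with hv
  obtain ⟨x, hx⟩ : ∃ x : ℕ → ℝ, ∀ k, x k = ⟪(c ^ k) v, q⟫ := ⟨_, fun k => rfl⟩
  obtain ⟨y, hy⟩ : ∃ y : ℕ → ℝ, ∀ k, y k = ⟪(c ^ k) v, J⟫ := ⟨_, fun k => rfl⟩
  have hx0 : x 0 = ⟪v, q⟫ := by rw [hx, pow_zero]; rfl
  have hy0 : y 0 = ⟪v, J⟫ := by rw [hy, pow_zero]; rfl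
  have hxs : ∀ k, x (k + 1) = lam * x k - σ * y k := by
    intro k
    rw [hx, hx, hy, pow_succ']
    show ⟪c ((c ^ k) v), q⟫ = _
    rw [Ineq_flip, hsq, inner_sub_right, inner_smul_right, inner_smul_right]
  have hys : ∀ k, y (k + 1) = σ * x k + lam * y k := by
    intro k
    rw [hy, hx, hy, pow_succ']
    show ⟪c ((c ^ k) v), J⟫ = _
    rw [Ineq_flip, hsJ, inner_add_right, inner_smul_right, inner_smul_right]
  have hxm : x (Nat.card Γ) = x 0 := by rw [hx, hx, hcm, pow_zero]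
  have hym : y (Nat.card Γ) = y 0 := by rw [hy, hy, hcm, pow_zero]
  have hρ : ∀ k, x k ^ 2 + y k ^ 2 = x 0 ^ 2 + y 0 ^ 2 := by
    intro k
    induction k with
    | zero => rfl
    | succ k ih =>
      rw [hxs, hys, ← ih]
      linear_combination (x k ^ 2 + y k ^ 2) * hσ
  have hab : lam ^ 2 + σ ^ 2 = 1 := by linarith
  have hsum1 : ∑ k ∈ Finset.range (Nat.card Γ), x k = 0 :=
    Ineq_rot hxs hys hxm hym hab (by rintro rfl; norm_num at hlt)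
  have hsum2 : ∑ k ∈ Finset.range (Nat.card Γ), (x k ^ 2 - y k ^ 2) = 0 := by
    refine Ineq_rot (x := fun k => x k ^ 2 - y k ^ 2) (y := fun k => 2 * x k * y k)
      (a := lam ^ 2 - σ ^ 2) (b := 2 * lam * σ) ?_ ?_ ?_ ?_ ?_ ?_
    · intro k
      rw [hxs, hys]
      ring
    · intro k
      rw [hxs, hys]
      ring
    · rw [hxm, hym]
    · rw [hxm, hym]
    · linear_combination (lam ^ 2 + σ ^ 2 + 1) * hab
    · intro h
      have : σ ^ 2 = 0 := by linarith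
      exact hσ0.ne' (pow_eq_zero_iff (two_ne_zero) |>.1 this)
  obtain ⟨ρ, hρ0, hρsq⟩ : ∃ ρ : ℝ, 0 ≤ ρ ∧ ρ ^ 2 = x 0 ^ 2 + y 0 ^ 2 :=
    ⟨√(x 0 ^ 2 + y 0 ^ 2), Real.sqrt_nonneg _, Real.sq_sqrt (by positivity)⟩
  have hρge : 2 / (Module.finrank ℝ E : ℝ) ≤ ρ ^ 2 := by
    rw [hρsq, hx0, hy0]
    exact hγ
  have hmpos : 0 < Nat.card Γ := Nat.card_pos
  obtain ⟨k, hk, hmax⟩ := Finset.exists_max_image (Finset.range (Nat.card Γ)) x
    ⟨0, Finset.mem_range.2 hmpos⟩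
  refine ⟨c ^ k * (γ : E ≃ₗᵢ[ℝ] E), Γ.mul_mem (Γ.pow_mem hc k) γ.2, ?_⟩
  have hgoal : ⟪(c ^ k * (γ : E ≃ₗᵢ[ℝ] E)) p, q⟫ = x k := by rw [hx]; rfl
  rw [hgoal]
  have hsq2 : ∑ k ∈ Finset.range (Nat.card Γ), x k ^ 2 = (Nat.card Γ : ℝ) * (ρ ^ 2 / 2) := by
    have h1 : ∀ i, x i ^ 2 = (x i ^ 2 - y i ^ 2) / 2 + ρ ^ 2 / 2 := by
      intro i
      rw [hρsq, ← hρ i]
      ring
    rw [Finset.sum_congr rfl fun i _ => h1 i, Finset.sum_add_distrib, ← Finset.sum_div, hsum2]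
    simp
  have hnn : 0 ≤ ∑ i ∈ Finset.range (Nat.card Γ), (x i + ρ) * (x k - x i) := by
    refine Finset.sum_nonneg fun i hi => mul_nonneg ?_ ?_
    · have h1 : x i ^ 2 ≤ ρ ^ 2 := by rw [hρsq, ← hρ i]; nlinarith [sq_nonneg (y i)]
      have h2 := abs_le_of_sq_le_sq h1 hρ0
      linarith [(abs_le.1 h2).1]
    · linarith [hmax i hi]
  have hexp : ∑ i ∈ Finset.range (Nat.card Γ), (x i + ρ) * (x k - x i) =
      (Nat.card Γ : ℝ) * ρ * (x k - ρ / 2) := by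
    have h1 : ∀ i, (x i + ρ) * (x k - x i) = (x k - ρ) * x i + ρ * x k - x i ^ 2 := by
      intro i
      ring
    rw [Finset.sum_congr rfl fun i _ => h1 i, Finset.sum_sub_distrib, Finset.sum_add_distrib,
      ← Finset.mul_sum, hsum1, hsq2, Finset.sum_const, Finset.card_range, nsmul_eq_mul]
    ring
  rw [hexp] at hnn
  have hmr : (0 : ℝ) < Nat.card Γ := by exact_mod_cast hmpos
  have hρpos : 0 < ρ := by
    rcases hρ0.lt_or_eq with h | h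
    · exact h
    · exfalso
      rw [← h] at hρge
      have : 0 < 2 / (Module.finrank ℝ E : ℝ) := by positivity
      norm_num at hρge
      linarith
  have hfin : ρ / 2 ≤ x k := by
    by_contra hcon
    push Not at hcon
    have h1 : (Nat.card Γ : ℝ) * ρ * (x k - ρ / 2) < 0 :=
      mul_neg_of_pos_of_neg (mul_pos hmr hρpos) (by linarith)
    linarith
  refine le_trans ?_ hfin
  have h1 : (1 / √(2 * (Module.finrank ℝ E : ℝ))) ^ 2 ≤ (ρ / 2) ^ 2 := by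
    rw [div_pow, Real.sq_sqrt (by positivity), div_pow]
    have h2 : (1 : ℝ) ^ 2 / (2 * (Module.finrank ℝ E : ℝ)) =
        (2 / (Module.finrank ℝ E : ℝ)) / 2 ^ 2 := by
      field_simp
    rw [h2]
    exact div_le_div_of_nonneg_right hρge (by norm_num)
  have h3 : 0 ≤ ρ / 2 := by linarith
  exact le_of_sq_le_sq h1 h3

end Pool.Agent.DGP
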