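import Pool.Agent.DGP.Struct
import Pool.Agent.DGP.Even
import Pool.Agent.DGP.Ineq

/-!
Assembly (helper26): the gap inequality for free irreducible groups.
-/

set_option autoImplicit false

open scoped RealInnerProductSpace

namespace Pool.Agent.DGP

variable {E : Type*} [NormedAddCommGroup E] [InnerProductSpace ℝ E]

/-- The constant of the gap: `1/√N` if `4 ∣ N`, and `1/√(2N)` otherwise (`N = dim E`). -/
noncomputable def gapCos (N : ℕ) : ℝ := if 4 ∣ N then 1 / √(N : ℝ) else 1 / √(2 * (N : ℝ))

theorem core [FiniteDimensional ℝ E] (hdim : 2 ≤ Module.finrank ℝ E)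
    (Γ : Subgroup (E ≃ₗᵢ[ℝ] E)) [Finite Γ] (hfree : ActsFreely Γ) (hirr : Irred Γ) {p q : E}
    (hp : ‖p‖ = 1) (hq : ‖q‖ = 1) :
    ∃ γ ∈ Γ, gapCos (Module.finrank ℝ E) ≤ ⟪γ p, q⟫ := by
  have hN : (0 : ℝ) < Module.finrank ℝ E := by
    have : 0 < Module.finrank ℝ E := by omega
    exact_mod_cast this
  haveI : Nontrivial E := Module.nontrivial_of_finrank_pos (R := ℝ) (by omega)
  have hcmp : 1 / √(2 * (Module.finrank ℝ E : ℝ)) ≤ 1 / √(Module.finrank ℝ E : ℝ) := by
    apply one_div_le_one_div_of_le (Real.sqrt_pos.2 hN)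
    exact Real.sqrt_le_sqrt (by linarith)
  rcases Nat.even_or_odd (Nat.card Γ) with he | ho
  · obtain ⟨γ, hγ, h⟩ := exists_inner_of_neg Γ hirr (neg_mem_of_even Γ hfree he) hp hq
    refine ⟨γ, hγ, le_trans ?_ h⟩
    unfold gapCos
    split_ifs
    · exact le_rfl
    · exact hcmp
  · have h4 := finrank_mod_four Γ hfree hirr ho hdim
    have hnd : ¬ 4 ∣ Module.finrank ℝ E := by omega
    have hnt : Nontrivial Γ := by
      rw [Subgroup.nontrivial_iff_ne_bot]
      intro hbot
      obtain ⟨v, hv⟩ := exists_ne (0 : E)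
      rcases hirr (ℝ ∙ v) (by
        intro γ hγ w hw
        rw [hbot, Subgroup.mem_bot] at hγ
        rw [hγ]
        exact hw) with h | h
      · exact hv (Submodule.span_singleton_eq_bot.1 h)
      · have h1 : Module.finrank ℝ (ℝ ∙ v : Submodule ℝ E) = 1 := finrank_span_singleton hv
        rw [h, finrank_top] at h1
        omega
    obtain ⟨c, hc, hc1⟩ := exists_center (G := Γ) ho
      (by
        intro p hp a c hac hap hcp ha1
        have h := mem_zpowers_of_commute hfree hp a.2 c.2
          (by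
            have := hac.eq
            exact congrArg Subtype.val this)
          (by exact_mod_cast congrArg Subtype.val hap) (by exact_mod_cast congrArg Subtype.val hcp)
          (by
            intro h
            exact ha1 (Subtype.ext h))
        obtain ⟨k, hk⟩ := Subgroup.mem_zpowers_iff.1 h
        exact Subgroup.mem_zpowers_iff.2 ⟨k, Subtype.ext (by exact_mod_cast hk)⟩)
      (by
        intro p q hp hq hpq a c haq hcp hn
        obtain ⟨k, hk⟩ := Subgroup.mem_zpowers_iff.1 hn
        have h := commute_of_prime hfree hp hq hpq a.2 c.2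
          (by exact_mod_cast congrArg Subtype.val haq) (by exact_mod_cast congrArg Subtype.val hcp)
          (Subgroup.mem_zpowers_iff.2 ⟨k, by exact_mod_cast congrArg Subtype.val hk⟩)
        exact Subtype.ext h.eq)
    have hc' : ∀ γ ∈ Γ, (c : E ≃ₗᵢ[ℝ] E) * γ = γ * c := by
      intro γ hγ
      have := (Subgroup.mem_center_iff.1 hc ⟨γ, hγ⟩)
      exact (congrArg Subtype.val this).symm
    obtain ⟨γ, hγ, h⟩ := exists_inner_of_center Γ hfree hirr ho c.2 hc'
      (fun h => hc1 (Subtype.ext h)) hp hq
    refine ⟨γ, hγ, ?_⟩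
    unfold gapCos
    rw [if_neg hnd]
    exact h

end Pool.Agent.DGP
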