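import Mathlib

/-!
Diameter gap project (MP_28a8c3_gt), helper26.  Common definitions.
-/

set_option autoImplicit false

open scoped RealInnerProductSpace Topology ENNReal

namespace Pool.Agent.DGP

section General

variable {E : Type*} [NormedAddCommGroup E] [InnerProductSpace ℝ E]

/-- `Γ` acts freely on the unit sphere of `E`: a nontrivial element fixes no nonzero vector. -/
def ActsFreely (Γ : Subgroup (E ≃ₗᵢ[ℝ] E)) : Prop :=
  ∀ γ ∈ Γ, γ ≠ 1 → ∀ x : E, γ x = x → x = 0

/-- `Γ` has no invariant subspaces except `0` and `E`. -/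
def Irred (Γ : Subgroup (E ≃ₗᵢ[ℝ] E)) : Prop :=
  ∀ W : Submodule ℝ E, (∀ γ ∈ Γ, ∀ w ∈ W, γ w ∈ W) → W = ⊥ ∨ W = ⊤

/-- All principal curvatures of the boundary of `K` are `≥ 1`, in the barrier (support) sense: at
every boundary point `x`, for every outward unit normal `u` of `K` at `x` and every radius `R > 1`,
near `x` the set `K` is contained in the ball of radius `R` with centre `x - R u`, which touches the
supporting hyperplane at `x`.  (For a convex body with `C²` boundary this says exactly that all
principal curvatures at all boundary points are `≥ 1`.) -/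
def CurvGeOne (K : Set E) : Prop :=
  ∀ x ∈ frontier K, ∀ u : E, ‖u‖ = 1 → (∀ y ∈ K, ⟪u, y - x⟫ ≤ 0) →
    ∀ R : ℝ, 1 < R → ∀ᶠ y in 𝓝[K] x, dist y (x - R • u) ≤ R

/-- Intrinsic distance of the hypersurface `∂K`: the infimum of the lengths of the continuous curves
in `∂K` from `x` to `y`. -/
noncomputable def bdDist (K : Set E) (x y : E) : ℝ≥0∞ :=
  ⨅ (c : C(unitInterval, E)) (_ : c 0 = x ∧ c 1 = y ∧ ∀ t, c t ∈ frontier K),
    eVariationOn c Set.univ

/-- The diameter of the quotient `∂K/Γ` for the intrinsic distance: the supremum over boundary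
points `x, y` of the distance of their orbits. -/
noncomputable def bdQuotDiam (K : Set E) (Γ : Subgroup (E ≃ₗᵢ[ℝ] E)) : ℝ≥0∞ :=
  ⨆ x ∈ frontier K, ⨆ y ∈ frontier K, ⨅ γ ∈ Γ, bdDist K (γ x) y

end General

end Pool.Agent.DGP
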