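import Pool.Agent.DGP.Defs

/-!
Module Homeo (size 3).  Let `K` be a convex body, `Γ` a finite group of linear isometries preserving
`K`.  `Γ` has a fixed point `x₀` in the interior of `K` (the average of an orbit of an interior point).
`f x = (x - x₀)/‖x - x₀‖` is a `Γ`-equivariant homeomorphism from `∂K` to the unit sphere (it is a
continuous bijection from a compact space: every ray from `x₀` meets `∂K` in exactly one point; Mathlib's
`gauge`, or `Convex` lemmas on interior/closure segments, e.g.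
`Convex.openSegment_interior_closure_subset_interior`).

`free_of_free_frontier`: if `γ x = x`, `x ≠ 0`, then the ray from `x₀` in direction `x` consists of fixed points
and meets `∂K`.
-/

set_option autoImplicit false

open scoped RealInnerProductSpace Topology

namespace Pool.Agent.DGP

variable {E : Type*} [NormedAddCommGroup E] [InnerProductSpace ℝ E]

theorem exists_fixed_interior (Γ : Subgroup (E ≃ₗᵢ[ℝ] E)) [Finite Γ] {K : Set E}
    (hK : Convex ℝ K) (hi : (interior K).Nonempty) (hinv : ∀ γ ∈ Γ, γ '' K = K) :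
    ∃ x₀ ∈ interior K, ∀ γ ∈ Γ, γ x₀ = x₀ := by
  classical
  obtain ⟨x, hx⟩ := hi
  have : Fintype Γ := Fintype.ofFinite Γ
  have hint : ∀ γ ∈ Γ, ∀ z ∈ interior K, γ z ∈ interior K := by
    intro γ hγ z hz
    have h1 : γ.toHomeomorph '' interior K = interior (γ.toHomeomorph '' K) :=
      γ.toHomeomorph.image_interior K
    have h2 : γ.toHomeomorph '' K = K := hinv γ hγ
    rw [h2] at h1
    rw [← h1]
    exact ⟨z, hz, rfl⟩
  have hcard : (0 : ℝ) < Fintype.card Γ := by exact_mod_cast Fintype.card_pos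
  refine ⟨∑ δ : Γ, (Fintype.card Γ : ℝ)⁻¹ • (δ : E ≃ₗᵢ[ℝ] E) x, ?_, ?_⟩
  · apply (hK.interior).sum_mem
    · intro i _
      positivity
    · rw [Finset.sum_const, Finset.card_univ, nsmul_eq_mul, mul_inv_cancel₀ hcard.ne']
    · intro δ _
      exact hint δ δ.2 x hx
  · intro γ hγ
    rw [map_sum]
    have h3 : ∀ δ : Γ, γ ((Fintype.card Γ : ℝ)⁻¹ • (δ : E ≃ₗᵢ[ℝ] E) x) =
        (Fintype.card Γ : ℝ)⁻¹ • (((⟨γ, hγ⟩ * δ : Γ)) : E ≃ₗᵢ[ℝ] E) x := by
      intro δ
      rw [map_smul]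
      rfl
    rw [Finset.sum_congr rfl fun δ _ => h3 δ]
    exact Equiv.sum_comp (Equiv.mulLeft (⟨γ, hγ⟩ : Γ))
      (fun δ : Γ => (Fintype.card Γ : ℝ)⁻¹ • (δ : E ≃ₗᵢ[ℝ] E) x)

theorem exists_equivariant_homeo [FiniteDimensional ℝ E] (Γ : Subgroup (E ≃ₗᵢ[ℝ] E)) [Finite Γ]
    {K : Set E} (hK : Convex ℝ K) (hc : IsCompact K) (hi : (interior K).Nonempty)
    (hinv : ∀ γ ∈ Γ, γ '' K = K) :
    ∃ f : frontier K ≃ₜ Metric.sphere (0 : E) 1,
      ∀ γ ∈ Γ, ∀ x y : frontier K, (y : E) = γ x → (f y : E) = γ (f x) := by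
  obtain ⟨x₀, hx₀, hfix⟩ := exists_fixed_interior Γ hK hi hinv
  set s : Set E := (Homeomorph.addRight x₀) ⁻¹' K with hs
  have hsc : Convex ℝ s := hK.translate_preimage_left x₀
  have hs0 : s ∈ 𝓝 (0 : E) := by
    rw [hs]
    apply (Homeomorph.addRight x₀).continuous.continuousAt.preimage_mem_nhds
    change K ∈ 𝓝 ((0 : E) + x₀)
    rw [zero_add]
    exact mem_interior_iff_mem_nhds.1 hx₀
  have hscomp : IsCompact s := (Homeomorph.addRight x₀).isCompact_preimage.2 hc
  have hsb : Bornology.IsVonNBounded ℝ s := NormedSpace.isVonNBounded_iff ℝ |>.2 hscomp.isBounded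
  have hbc : Convex ℝ (Metric.ball (0 : E) 1) := convex_ball 0 1
  have hb0 : Metric.ball (0 : E) 1 ∈ 𝓝 (0 : E) := Metric.ball_mem_nhds 0 one_pos
  have hbb : Bornology.IsVonNBounded ℝ (Metric.ball (0 : E) 1) :=
    NormedSpace.isVonNBounded_ball ℝ E 1
  set h := gaugeRescaleHomeomorph s (Metric.ball (0 : E) 1) hsc hs0 hsb hbc hb0 hbb with hh
  have hfr : h '' frontier s = Metric.sphere (0 : E) 1 := by
    rw [frontier, Set.image_sdiff h.injective, hh,
      image_gaugeRescaleHomeomorph_closure hsc hs0 hsb hbc hb0 hbb,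
      image_gaugeRescaleHomeomorph_interior hsc hs0 hsb hbc hb0 hbb,
      closure_ball (0 : E) one_ne_zero, Metric.isOpen_ball.interior_eq,
      Metric.closedBall_sdiff_ball]
  set F : E ≃ₜ E := (Homeomorph.addRight x₀).symm.trans h with hF
  have hmem : frontier K = F ⁻¹' (Metric.sphere (0 : E) 1) := by
    rw [← hfr, hF]
    ext x
    constructor
    · intro hx
      refine ⟨(Homeomorph.addRight x₀).symm x, ?_, rfl⟩
      rw [hs, ← Homeomorph.preimage_frontier]
      change (Homeomorph.addRight x₀) ((Homeomorph.addRight x₀).symm x) ∈ frontier K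
      rwa [Homeomorph.apply_symm_apply]
    · rintro ⟨z, hz, hzx⟩
      have h1 : z = (Homeomorph.addRight x₀).symm x := h.injective hzx
      rw [hs, ← Homeomorph.preimage_frontier] at hz
      have h2 : (Homeomorph.addRight x₀) z ∈ frontier K := hz
      rwa [h1, Homeomorph.apply_symm_apply] at h2
  refine ⟨F.sets hmem, ?_⟩
  intro γ hγ x y hxy
  change F (y : E) = γ (F (x : E))
  have hF' : ∀ z, F z = (gauge s (z - x₀) / gauge (Metric.ball (0 : E) 1) (z - x₀)) • (z - x₀) := by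
    intro z
    change gaugeRescale s (Metric.ball (0 : E) 1) ((Homeomorph.addRight x₀).symm z) = _
    have : (Homeomorph.addRight x₀).symm z = z - x₀ := by
      rw [Homeomorph.addRight_symm, Homeomorph.coe_addRight, sub_eq_add_neg]
    rw [this]
    rfl
  rw [hF', hF', hxy, map_smul]
  have h1 : γ (x : E) - x₀ = γ ((x : E) - x₀) := by
    rw [map_sub, hfix γ hγ]
  rw [h1, gauge_unit_ball, gauge_unit_ball, γ.norm_map]
  have h2 : gauge s (γ ((x : E) - x₀)) = gauge s ((x : E) - x₀) := by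
    have hmemγ : ∀ z, γ z ∈ s ↔ z ∈ s := by
      intro z
      change γ z + x₀ ∈ K ↔ z + x₀ ∈ K
      have h3 : γ z + x₀ = γ (z + x₀) := by rw [map_add, hfix γ hγ]
      rw [h3]
      constructor
      · intro h4
        have h5 : γ (z + x₀) ∈ γ '' K := by rw [hinv γ hγ]; exact h4
        obtain ⟨z', hz', hzz⟩ := h5
        rwa [← γ.injective hzz]
      · intro h4
        have h5 : γ (z + x₀) ∈ γ '' K := ⟨_, h4, rfl⟩
        rwa [hinv γ hγ] at h5
    rw [gauge_def', gauge_def']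
    congr 1
    ext r
    simp only [Set.mem_ofPred_eq]
    rw [← map_smul, hmemγ]
  rw [h2]

theorem free_of_free_frontier [FiniteDimensional ℝ E] (Γ : Subgroup (E ≃ₗᵢ[ℝ] E)) [Finite Γ]
    {K : Set E} (hK : Convex ℝ K) (hc : IsCompact K) (hi : (interior K).Nonempty)
    (hinv : ∀ γ ∈ Γ, γ '' K = K)
    (hfree : ∀ γ ∈ Γ, γ ≠ 1 → ∀ x ∈ frontier K, γ x ≠ x) : ActsFreely Γ := by
  obtain ⟨x₀, hx₀, hfix⟩ := exists_fixed_interior Γ hK hi hinv
  intro γ hγ hne x hx
  by_contra hx0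
  have hg : Continuous (fun t : ℝ => x₀ + t • x) :=
    continuous_const.add (continuous_id.smul continuous_const)
  have h1 : ((fun t : ℝ => x₀ + t • x) ⁻¹' K).Nonempty :=
    ⟨0, by change x₀ + (0 : ℝ) • x ∈ K; rw [zero_smul, add_zero]; exact interior_subset hx₀⟩
  have h2 : ((fun t : ℝ => x₀ + t • x) ⁻¹' K) ≠ Set.univ := by
    intro huniv
    obtain ⟨R, hR⟩ := hc.isBounded.exists_norm_le
    have hxn : 0 < ‖x‖ := norm_pos_iff.2 hx0
    have hmem : x₀ + ((|R| + ‖x₀‖ + 1) / ‖x‖) • x ∈ K := by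
      have : ((|R| + ‖x₀‖ + 1) / ‖x‖) ∈ (fun t : ℝ => x₀ + t • x) ⁻¹' K := by
        rw [huniv]; trivial
      exact this
    · have h3 := hR _ hmem
      have h4 : ‖((|R| + ‖x₀‖ + 1) / ‖x‖) • x‖ = |R| + ‖x₀‖ + 1 := by
        rw [norm_smul, Real.norm_of_nonneg (by positivity), div_mul_cancel₀ _ hxn.ne']
      have h5 : ‖((|R| + ‖x₀‖ + 1) / ‖x‖) • x‖ ≤ ‖x₀ + ((|R| + ‖x₀‖ + 1) / ‖x‖) • x‖ + ‖x₀‖ := by
        calc ‖((|R| + ‖x₀‖ + 1) / ‖x‖) • x‖
            = ‖(x₀ + ((|R| + ‖x₀‖ + 1) / ‖x‖) • x) - x₀‖ := by rw [add_sub_cancel_left]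
          _ ≤ _ := norm_sub_le _ _
      have h6 := le_abs_self R
      linarith
  obtain ⟨t, ht⟩ := nonempty_frontier_iff.2 ⟨h1, h2⟩
  have hz : x₀ + t • x ∈ frontier K := hg.frontier_preimage_subset K ht
  apply hfree γ hγ hne _ hz
  rw [map_add, map_smul, hfix γ hγ, hx]

end Pool.Agent.DGP
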