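import Pool.Agent.DGP.Sums

/-!
Module IrrAll (size 4).  Every free action on `ℝ^{2d}` of a group containing elements `a, b` as below is irreducible.

Let `W` be an invariant subspace of `E`, `W ≠ ⊥`; we show `dim W ≥ 2 d`, so `W = ⊤`.
`z := b^d` commutes with `a` (`b^d a b^{-d} = a^{r^d} = a`) and has order `d² ≥ 4`.  The orders `m` and `d²` are coprime
(`d ∣ m - 1`), so `g := a z` has order `m d²`, and every element `a^i z^j` is a power of `g`.  For an integer `i` let
`g_i = b^i g b^{-i} = a^{r^i} z` (`i ∈ ℤ`, `r^i` mod `m`), a power of `g`, and `S_i = g_i + g_i⁻¹`, self-adjoint.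
Let `S = S_0`.  On `W` the self-adjoint operator `S` has an eigenvalue `λ`; let `F = {w ∈ W : S w = λ w} ≠ 0`.
`F` is invariant under `g` (which commutes with `S`).  On `F`: `g² = λ g - 1`, and by
`S_{g^{k+1}} = S_g S_{g^k} - S_{g^{k-1}}` every `g^k + g^{-k}` is a scalar on `F`; so `S_i` is a scalar
`μ_i` on `F`.
* `μ_i ≠ μ_j` if `i ≠ j` mod `d`: otherwise on `F`: `g_i + g_i⁻¹ = g_j + g_j⁻¹`, i.e. (multiply by `g_i`)
  `(g_i - g_j)(g_i - g_j⁻¹) = 0` on `F`.  But `g_i g_j⁻¹ = a^{r^i - r^j} ≠ 1` and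
  `g_i g_j = a^{r^i + r^j} z² ≠ 1` (as `z² ≠ 1`, coprime orders), so by freeness `g_i - g_j` and `g_i - g_j⁻¹` are
  injective on `E` and preserve `F`: contradiction.
* `b^i F` (`0 ≤ i < d`) is contained in `W`, and `S` acts on it as the scalar `μ_{-i}`
  (`S b^i = b^i S_{-i}`).  So the `b^i F` lie in eigenspaces of `S` for `d` different eigenvalues, hence are independent
  (`Module.End.eigenspaces_iSupIndep`), and `dim W ≥ d dim F`.
* `dim F ≥ 2`: otherwise `F = ℝ v` and `g v = ± v`, so `g² v = v`, but `g²` is a nontrivial element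
  (the order of `g` is `> 2`): contradiction to freeness.
-/

set_option autoImplicit false

open scoped RealInnerProductSpace

namespace Pool.Agent.DGP

variable {E : Type*} [NormedAddCommGroup E] [InnerProductSpace ℝ E]

private theorem IrrAll_arith {G : Type*} [Group G] {d m r : ℕ} (hd : 2 ≤ d) (hm : m.Prime)
    (hr : orderOf (r : ZMod m) = d) {a b : G} (ha : orderOf a = m) (hb : orderOf b = d ^ 3)
    (hab : b * a * b⁻¹ = a ^ r) :
    Commute a (b ^ d) ∧ (∀ i : ℕ, b ^ i * (a * b ^ d) * (b ^ i)⁻¹ = a ^ (r ^ i) * b ^ d) ∧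
    (∀ i : ℕ, ∃ k : ℕ, (a * b ^ d) ^ k = a ^ (r ^ i) * b ^ d) ∧
    (∀ i < d, ∀ j < d, i ≠ j → a ^ (r ^ i) ≠ a ^ (r ^ j)) ∧
    (∀ e : ℕ, a ^ e * (b ^ d) ^ 2 ≠ 1) := by
  have : Fact m.Prime := ⟨hm⟩
  have hr0 : (r : ZMod m) ≠ 0 := by
    intro h
    rw [h] at hr
    have h0 : orderOf (0 : ZMod m) = 0 := by
      rw [orderOf_eq_zero_iff']
      intro n hn
      rw [zero_pow hn.ne']
      exact zero_ne_one
    omega
  have hdvd : d ∣ m - 1 := by
    rw [← hr]
    exact ZMod.orderOf_dvd_card_sub_one hr0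
  have hcop : Nat.Coprime m (d ^ 2) := by
    have h1 : Nat.Coprime (m - 1) m := by
      have := hm.one_lt
      rw [Nat.coprime_comm]
      have h2 : m = (m - 1) + 1 := by omega
      nth_rw 1 [h2]
      simp
    exact (Nat.Coprime.coprime_dvd_left hdvd h1).symm.pow_right 2
  have hconj : ∀ i : ℕ, b ^ i * a * (b ^ i)⁻¹ = a ^ (r ^ i) := by
    intro i
    induction i with
    | zero => simp
    | succ i ih =>
      have h1 : b ^ (i + 1) * a * (b ^ (i + 1))⁻¹ = b * (b ^ i * a * (b ^ i)⁻¹) * b⁻¹ := by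
        rw [pow_succ']; group
      rw [h1, ih, ← conj_pow, hab, ← pow_mul, ← pow_succ']
  have hrd : r ^ d ≡ 1 [MOD m] := by
    rw [← ZMod.natCast_eq_natCast_iff]
    push_cast
    rw [← hr]
    exact pow_orderOf_eq_one _
  have hcomm : Commute a (b ^ d) := by
    have h1 : b ^ d * a * (b ^ d)⁻¹ = a := by
      rw [hconj d]
      have h2 : a ^ (r ^ d) = a ^ 1 := pow_eq_pow_iff_modEq.2 (by rw [ha]; exact hrd)
      rw [h2, pow_one]
    have h2 : b ^ d * a = a * b ^ d := mul_inv_eq_iff_eq_mul.1 h1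
    exact h2.symm
  have hordz : orderOf (b ^ d) = d ^ 2 := by
    rw [orderOf_pow' b (by omega), hb]
    have h1 : Nat.gcd (d ^ 3) d = d := Nat.gcd_eq_right (dvd_pow_self d (by norm_num))
    rw [h1]
    exact Nat.div_eq_of_eq_mul_left (by omega) (by ring)
  refine ⟨hcomm, ?_, ?_, ?_, ?_⟩
  · intro i
    have h1 : b ^ i * (a * b ^ d) * (b ^ i)⁻¹ = (b ^ i * a * (b ^ i)⁻¹) * (b ^ i * b ^ d * (b ^ i)⁻¹) := by
      group
    have h2 : b ^ i * b ^ d * (b ^ i)⁻¹ = b ^ d := by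
      rw [← pow_add, add_comm, pow_add, mul_inv_cancel_right]
    rw [h1, h2, hconj]
  · intro i
    obtain ⟨k, hk1, hk2⟩ := Nat.chineseRemainder hcop (r ^ i) 1
    refine ⟨k, ?_⟩
    rw [hcomm.mul_pow]
    have h1 : a ^ k = a ^ (r ^ i) := pow_eq_pow_iff_modEq.2 (by rw [ha]; exact hk1)
    have h2 : (b ^ d) ^ k = (b ^ d) ^ 1 := pow_eq_pow_iff_modEq.2 (by rw [hordz]; exact hk2)
    rw [h1, h2, pow_one]
  · intro i hi j hj hij h
    rw [pow_eq_pow_iff_modEq, ha, ← ZMod.natCast_eq_natCast_iff] at h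
    push_cast at h
    rw [← hr] at hi hj
    exact hij (pow_injOn_Iio_orderOf hi hj h)
  · intro e h
    have h1 : (b ^ d) ^ (2 * m) = 1 := by
      have h2 : (a ^ e * (b ^ d) ^ 2) ^ m = 1 := by rw [h, one_pow]
      rw [((hcomm.pow_left e).pow_right 2).mul_pow, ← pow_mul, mul_comm e m, pow_mul, ← ha,
        pow_orderOf_eq_one, one_pow, one_mul, ha, ← pow_mul] at h2
      exact h2
    have h3 : d ^ 2 ∣ 2 * m := by
      rw [← hordz]
      exact orderOf_dvd_of_pow_eq_one h1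
    have h4 : d ^ 2 ∣ 2 := hcop.symm.dvd_of_dvd_mul_right h3
    have h5 := Nat.le_of_dvd (by norm_num) h4
    nlinarith

theorem irred_of_relations [FiniteDimensional ℝ E] {d m r : ℕ} (hd : 2 ≤ d) (hm : m.Prime)
    (hr : orderOf (r : ZMod m) = d) (hdim : Module.finrank ℝ E = 2 * d)
    (Γ : Subgroup (E ≃ₗᵢ[ℝ] E)) [Finite Γ] (hfree : ActsFreely Γ) {a b : E ≃ₗᵢ[ℝ] E}
    (haΓ : a ∈ Γ) (hbΓ : b ∈ Γ) (ha : orderOf a = m) (hb : orderOf b = d ^ 3)
    (hab : b * a * b⁻¹ = a ^ r) : Irred Γ := by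
  intro W hW
  by_cases hbot : W = ⊥
  · exact Or.inl hbot
  right
  obtain ⟨hcomm, hconj, hpow, hinj, hne⟩ := IrrAll_arith hd hm hr ha hb hab
  set z := b ^ d with hz
  have hzΓ : z ∈ Γ := pow_mem hbΓ d
  set g := a * z with hg
  have hgΓ : g ∈ Γ := mul_mem haΓ hzΓ
  let S : E →ₗ[ℝ] E := (g.toLinearEquiv : E →ₗ[ℝ] E) + ((g⁻¹).toLinearEquiv : E →ₗ[ℝ] E)
  have hSx : ∀ x, S x = g x + g⁻¹ x := fun x => rfl
  have happ : ∀ (p q : E ≃ₗᵢ[ℝ] E) (x : E), (p * q) x = p (q x) := fun p q x => rfl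
  have hinv : ∀ (p : E ≃ₗᵢ[ℝ] E) (x : E), p⁻¹ (p x) = x := fun p x => p.symm_apply_apply x
  have hinv' : ∀ (p : E ≃ₗᵢ[ℝ] E) (x : E), p (p⁻¹ x) = x := fun p x => p.apply_symm_apply x
  have hSW : ∀ w ∈ W, S w ∈ W := fun w hw =>
    W.add_mem (hW g hgΓ w hw) (hW g⁻¹ (inv_mem hgΓ) w hw)
  have hsym : S.IsSymmetric := by
    intro x y
    rw [hSx, hSx, inner_add_left, inner_add_right]
    have h1 : ⟪g x, y⟫ = ⟪x, g⁻¹ y⟫ := by
      rw [← g.inner_map_map x (g⁻¹ y), hinv']
    have h2 : ⟪g⁻¹ x, y⟫ = ⟪x, g y⟫ := by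
      rw [← g.inner_map_map (g⁻¹ x) y, hinv']
    rw [h1, h2, add_comm]
  have hsym' := hsym.restrict_invariant hSW
  have : Nontrivial W := Submodule.nontrivial_iff_ne_bot.2 hbot
  have hev := hsym'.hasEigenvalue_iSup_of_finiteDimensional
  obtain ⟨v', hv'⟩ := hev.exists_hasEigenvector
  set v : E := (v' : E) with hv
  have hvW : v ∈ W := v'.2
  have hv0 : v ≠ 0 := by
    intro h
    exact hv'.2 (Subtype.ext h)
  obtain ⟨lam, hlamv⟩ : ∃ lam : ℝ, S v = lam • v :=
    ⟨_, congrArg Subtype.val hv'.apply_eq_smul⟩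
  -- `g ^ k + g ^ (-k)` is a scalar on the eigenspace
  have hscal : ∀ k : ℕ, (∃ c : ℝ, ∀ w, S w = lam • w → (g ^ k) w + ((g ^ k)⁻¹) w = c • w) ∧
      (∃ c : ℝ, ∀ w, S w = lam • w → (g ^ (k + 1)) w + ((g ^ (k + 1))⁻¹) w = c • w) := by
    intro k
    induction k with
    | zero =>
      refine ⟨⟨2, fun w _ => ?_⟩, ⟨lam, fun w hw => ?_⟩⟩
      · rw [pow_zero, inv_one]
        change w + w = _
        rw [two_smul]
      · rw [zero_add, pow_one]
        exact hw
    | succ k ih =>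
      obtain ⟨⟨c, hc⟩, ⟨c', hc'⟩⟩ := ih
      refine ⟨⟨c', hc'⟩, ⟨c' * lam - c, fun w hw => ?_⟩⟩
      have h1 := congrArg S (hc' w hw)
      rw [map_smul, hw, hSx, map_add, map_add, ← happ, ← happ, ← happ, ← happ] at h1
      have e1 : g * g ^ (k + 1) = g ^ (k + 1 + 1) := (pow_succ' g (k + 1)).symm
      have e2 : g * (g ^ (k + 1))⁻¹ = (g ^ k)⁻¹ := by
        rw [pow_succ]; group
      have e3 : g⁻¹ * g ^ (k + 1) = g ^ k := by
        rw [pow_succ']; group
      have e4 : g⁻¹ * (g ^ (k + 1))⁻¹ = (g ^ (k + 1 + 1))⁻¹ := by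
        rw [← mul_inv_rev, ← pow_succ]
      rw [e1, e2, e3, e4] at h1
      have h2 := hc w hw
      rw [sub_smul, mul_smul, ← h1, ← h2]
      abel
  -- the scalars
  have hmu : ∀ i : ℕ, ∃ c : ℝ, ∀ w, S w = lam • w →
      (a ^ (r ^ i) * z) w + ((a ^ (r ^ i) * z)⁻¹) w = c • w := by
    intro i
    obtain ⟨k, hk⟩ := hpow i
    rw [← hk]
    exact (hscal k).1
  choose μ hμ using hmu
  have hsq : ∀ x : E, x ≠ 0 → ∀ e : ℕ, (a ^ e * z ^ 2) x ≠ x := by
    intro x hx e h
    exact hx (hfree _ (mul_mem (pow_mem haΓ e) (pow_mem hzΓ 2)) (hne e) x h)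
  have hμinj : ∀ i < d, ∀ j < d, i ≠ j → μ i ≠ μ j := by
    intro i hi j hj hij h
    have h1 := hμ i v hlamv
    have h2 := hμ j v hlamv
    rw [h, ← h2] at h1
    set p := a ^ (r ^ i) * z with hp
    set q := a ^ (r ^ j) * z with hq
    have hpq : Commute p q := by
      have ca : Commute (a ^ (r ^ i)) (a ^ (r ^ j)) := (Commute.refl a).pow_pow _ _
      have c1 : Commute (a ^ (r ^ i)) z := hcomm.pow_left _
      have c2 : Commute (a ^ (r ^ j)) z := hcomm.pow_left _
      exact Commute.mul_left (ca.mul_right c1) (Commute.mul_right c2.symm (Commute.refl z))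
    have hpΓ : p ∈ Γ := mul_mem (pow_mem haΓ _) hzΓ
    have hqΓ : q ∈ Γ := mul_mem (pow_mem haΓ _) hzΓ
    -- y = p v - q⁻¹ v
    have h3 : p v - q⁻¹ v = q v - p⁻¹ v := by
      rw [sub_eq_sub_iff_add_eq_add]
      exact h1
    have h4 : (q⁻¹ * p) (p v - q⁻¹ v) = p v - q⁻¹ v := by
      have h5 : p (p v - q⁻¹ v) = q (p v - q⁻¹ v) := by
        nth_rw 1 [h3]
        rw [map_sub, map_sub, hinv', hinv', ← happ, ← happ, hpq.eq]
      rw [happ, h5, hinv]
    have h6 : q⁻¹ * p ≠ 1 := by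
      intro h7
      have h8 : q = p := inv_mul_eq_one.1 h7
      exact hinj i hi j hj hij (mul_right_cancel h8.symm)
    have h7 := hfree _ (mul_mem (inv_mem hqΓ) hpΓ) h6 _ h4
    have h8 : q (p v) = v := by
      rw [sub_eq_zero.1 h7, hinv']
    refine hsq v hv0 (r ^ j + r ^ i) ?_
    have h9 : a ^ (r ^ j + r ^ i) * z ^ 2 = q * p := by
      rw [hp, hq, pow_add, pow_two]
      have c1 : a ^ (r ^ i) * z = z * a ^ (r ^ i) := (hcomm.pow_left _).eq
      calc a ^ (r ^ j) * a ^ (r ^ i) * (z * z) = a ^ (r ^ j) * (a ^ (r ^ i) * z) * z := by group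
        _ = a ^ (r ^ j) * (z * a ^ (r ^ i)) * z := by rw [c1]
        _ = _ := by group
    rw [h9, happ, h8]
  -- the eigenspace in `W`
  let F : Submodule ℝ E := Module.End.eigenspace S lam ⊓ W
  have hFmem : ∀ w, w ∈ F ↔ S w = lam • w ∧ w ∈ W := by
    intro w
    rw [Submodule.mem_inf, Module.End.mem_eigenspace_iff]
  have hgv : g v ∈ F := by
    rw [hFmem]
    refine ⟨?_, hW g hgΓ v hvW⟩
    have h1 := congrArg g hlamv
    rw [map_smul, hSx, map_add] at h1
    rw [hSx, ← h1, hinv, hinv']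
  have hvF : v ∈ F := (hFmem v).2 ⟨hlamv, hvW⟩
  have hF2 : 2 ≤ Module.finrank ℝ F := by
    have hli : LinearIndependent ℝ ![(⟨v, hvF⟩ : F), ⟨g v, hgv⟩] := by
      rw [LinearIndependent.pair_iff]
      intro s t hst
      have h1 : s • v + t • g v = 0 := congrArg Subtype.val hst
      have ht : t = 0 := by
        by_contra ht
        have h2 : g v = (-(s / t)) • v := by
          have h3 : t • g v = t • ((-(s / t)) • v) := by
            rw [smul_smul]
            have : t * -(s / t) = -s := by field_simp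
            rw [this, neg_smul]
            exact eq_neg_of_add_eq_zero_right h1
          exact smul_right_injective E ht h3
        set c := -(s / t) with hc
        have h4 : ‖v‖ = |c| * ‖v‖ := by
          have := congrArg norm h2
          rwa [g.norm_map, norm_smul, Real.norm_eq_abs] at this
        have hvn : 0 < ‖v‖ := norm_pos_iff.2 hv0
        have h5 : |c| = 1 := by
          have : (|c| - 1) * ‖v‖ = 0 := by linarith
          rcases mul_eq_zero.1 this with h | h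
          · linarith
          · exact absurd h hvn.ne'
        have h6 : c * c = 1 := by
          have := abs_mul_abs_self c
          rw [h5] at this
          linarith
        refine hsq v hv0 2 ?_
        have h7 : a ^ 2 * z ^ 2 = g * g := by
          rw [← hcomm.mul_pow, pow_two]
        rw [h7, happ, h2, map_smul, h2, smul_smul, h6, one_smul]
      rw [ht, zero_smul, add_zero] at h1
      exact ⟨(smul_eq_zero.1 h1).resolve_right hv0, ht⟩
    have := hli.fintype_card_le_finrank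
    simpa using this
  -- translates
  let β : ℕ → (E ≃ₗᵢ[ℝ] E) := fun i => (b ^ i)⁻¹
  let Fi : Fin d → Submodule ℝ E := fun i => F.map ((β i).toLinearEquiv : E →ₗ[ℝ] E)
  have hFiW : ∀ i, Fi i ≤ W := by
    rintro i _ ⟨w, hw, rfl⟩
    exact hW _ (inv_mem (pow_mem hbΓ _)) w ((hFmem w).1 hw).2
  have hFiE : ∀ i, Fi i ≤ Module.End.eigenspace S (μ i) := by
    rintro i _ ⟨w, hw, rfl⟩
    rw [Module.End.mem_eigenspace_iff]
    change S ((b ^ (i : ℕ))⁻¹ w) = μ i • (b ^ (i : ℕ))⁻¹ w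
    have h1 := hμ i w ((hFmem w).1 hw).1
    have h2 := congrArg (fun y => (b ^ (i : ℕ))⁻¹ y) h1
    rw [map_smul, map_add, ← happ, ← happ] at h2
    rw [← h2, hSx, ← happ, ← happ]
    have h3 := hconj i
    have e1 : g * (b ^ (i : ℕ))⁻¹ = (b ^ (i : ℕ))⁻¹ * (a ^ (r ^ (i : ℕ)) * z) := by
      rw [← h3]; group
    have e2 : g⁻¹ * (b ^ (i : ℕ))⁻¹ = (b ^ (i : ℕ))⁻¹ * (a ^ (r ^ (i : ℕ)) * z)⁻¹ := by
      rw [← h3]; group
    rw [e1, e2]
  have hind : iSupIndep Fi := by
    have h1 := (Module.End.eigenspaces_iSupIndep S).comp (f := fun i : Fin d => μ i) (by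
      intro i j hij
      by_contra hne'
      exact hμinj i i.2 j j.2 (fun h => hne' (Fin.ext h)) hij)
    exact h1.mono hFiE
  have hfin : ∀ i, Module.finrank ℝ (Fi i) = Module.finrank ℝ F := fun i =>
    LinearEquiv.finrank_map_eq (β i).toLinearEquiv F
  have hle : 2 * d ≤ Module.finrank ℝ W := by
    have h1 := iSupIndep.dfinsupp_lsum_injective hind
    have h2 := LinearMap.finrank_range_of_inj h1
    have h3 : LinearMap.range (DFinsupp.lsum ℕ fun i => (Fi i).subtype) ≤ W := by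
      rw [← Submodule.iSup_eq_range_dfinsupp_lsum]
      exact iSup_le hFiW
    have h4 := Submodule.finrank_mono h3
    rw [h2] at h4
    have h5 : Module.finrank ℝ (Π₀ i, Fi i) = ∑ i, Module.finrank ℝ (Fi i) :=
      Module.finrank_directSum (R := ℝ) (fun i => Fi i)
    rw [h5] at h4
    refine le_trans ?_ h4
    simp only [hfin, Finset.sum_const, Finset.card_univ, Fintype.card_fin, smul_eq_mul]
    nlinarith
  apply Submodule.eq_top_of_finrank_eq
  have := Submodule.finrank_le W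
  omega

end Pool.Agent.DGP
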