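import Pool.Agent.DGP.LIDefs

/-!
Module LICurv (size 4).  A left-invariant metric on `S³` with sectional curvature `≥ 1` is dominated by the round
metric of curvature `1`: `B x x ≤ ‖x‖²`.
-/

set_option autoImplicit false

open scoped Quaternion RealInnerProductSpace

namespace Pool.Agent.DGP

/-- cross product -/
private noncomputable def LICurvCr (x y : ImH) : ImH := imPart ((x : ℍ[ℝ]) * y)

private lemma LICurv_ext {x y : ImH} (h1 : (x : ℍ[ℝ]).imI = (y : ℍ[ℝ]).imI)
    (h2 : (x : ℍ[ℝ]).imJ = (y : ℍ[ℝ]).imJ) (h3 : (x : ℍ[ℝ]).imK = (y : ℍ[ℝ]).imK) : x = y := by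
  apply Subtype.ext
  apply Quaternion.ext
  · have hx : (x : ℍ[ℝ]).re = 0 := x.2
    have hy : (y : ℍ[ℝ]).re = 0 := y.2
    rw [hx, hy]
  · exact h1
  · exact h2
  · exact h3

private lemma LICurv_crI (x y : ImH) : (LICurvCr x y : ℍ[ℝ]).imI =
    (x : ℍ[ℝ]).imJ * (y : ℍ[ℝ]).imK - (x : ℍ[ℝ]).imK * (y : ℍ[ℝ]).imJ := by
  have hx : (x : ℍ[ℝ]).re = 0 := x.2
  have hy : (y : ℍ[ℝ]).re = 0 := y.2
  simp [LICurvCr, imPart, hx, hy]

private lemma LICurv_crJ (x y : ImH) : (LICurvCr x y : ℍ[ℝ]).imJ =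
    (x : ℍ[ℝ]).imK * (y : ℍ[ℝ]).imI - (x : ℍ[ℝ]).imI * (y : ℍ[ℝ]).imK := by
  have hx : (x : ℍ[ℝ]).re = 0 := x.2
  have hy : (y : ℍ[ℝ]).re = 0 := y.2
  simp [LICurvCr, imPart, hx, hy]
  ring

private lemma LICurv_crK (x y : ImH) : (LICurvCr x y : ℍ[ℝ]).imK =
    (x : ℍ[ℝ]).imI * (y : ℍ[ℝ]).imJ - (x : ℍ[ℝ]).imJ * (y : ℍ[ℝ]).imI := by
  have hx : (x : ℍ[ℝ]).re = 0 := x.2
  have hy : (y : ℍ[ℝ]).re = 0 := y.2
  simp [LICurvCr, imPart, hx, hy]

private lemma LICurv_inner (x y : ImH) : ⟪x, y⟫ = (x : ℍ[ℝ]).imI * (y : ℍ[ℝ]).imI +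
    (x : ℍ[ℝ]).imJ * (y : ℍ[ℝ]).imJ + (x : ℍ[ℝ]).imK * (y : ℍ[ℝ]).imK := by
  have hx : (x : ℍ[ℝ]).re = 0 := x.2
  have hy : (y : ℍ[ℝ]).re = 0 := y.2
  rw [Submodule.coe_inner, Quaternion.inner_def]
  simp [hx, hy]

private lemma LICurv_brk (x y : ImH) : brk x y = (2 : ℝ) • LICurvCr x y := by
  apply LICurv_ext <;>
    simp only [brk, imPart, SetLike.val_smul, Quaternion.imI_smul, Quaternion.imJ_smul,
      Quaternion.imK_smul, LICurv_crI, LICurv_crJ, LICurv_crK] <;>
    simp [x.2, y.2] <;> ring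

private lemma LICurv_cross_cross (x y z : ImH) :
    LICurvCr x (LICurvCr y z) = ⟪x, z⟫ • y - ⟪x, y⟫ • z := by
  apply LICurv_ext <;>
    simp only [LICurv_crI, LICurv_crJ, LICurv_crK, AddSubgroupClass.coe_sub, SetLike.val_smul,
      Quaternion.imI_sub, Quaternion.imJ_sub, Quaternion.imK_sub, Quaternion.imI_smul,
      Quaternion.imJ_smul, Quaternion.imK_smul, LICurv_inner, smul_eq_mul] <;> ring

private lemma LICurv_anti (x y : ImH) : LICurvCr x y = - LICurvCr y x := by
  apply LICurv_ext <;>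
    simp only [LICurv_crI, LICurv_crJ, LICurv_crK, NegMemClass.coe_neg,
      Quaternion.imI_neg, Quaternion.imJ_neg, Quaternion.imK_neg] <;> ring

private lemma LICurv_smul_right (c : ℝ) (x y : ImH) : LICurvCr x (c • y) = c • LICurvCr x y := by
  apply LICurv_ext <;>
    simp only [LICurv_crI, LICurv_crJ, LICurv_crK, SetLike.val_smul,
      Quaternion.imI_smul,
      Quaternion.imJ_smul, Quaternion.imK_smul, smul_eq_mul] <;> ring

private lemma LICurv_inner_left (x y : ImH) : ⟪LICurvCr x y, x⟫ = 0 := by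
  simp only [LICurv_inner, LICurv_crI, LICurv_crJ, LICurv_crK]; ring

private lemma LICurv_inner_right (x y : ImH) : ⟪LICurvCr x y, y⟫ = 0 := by
  simp only [LICurv_inner, LICurv_crI, LICurv_crJ, LICurv_crK]; ring

private lemma LICurv_lagrange (x y : ImH) :
    ⟪LICurvCr x y, LICurvCr x y⟫ = ⟪x, x⟫ * ⟪y, y⟫ - ⟪x, y⟫ ^ 2 := by
  simp only [LICurv_inner, LICurv_crI, LICurv_crJ, LICurv_crK]; ring

private lemma LICurv_smul_left (c : ℝ) (x y : ImH) : ⟪c • x, y⟫ = c * ⟪x, y⟫ := by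
  simp only [LICurv_inner, SetLike.val_smul, Quaternion.imI_smul,
      Quaternion.imJ_smul, Quaternion.imK_smul, smul_eq_mul]; ring

private lemma LICurv_smul_smul (c d : ℝ) (x : ImH) : c • d • x = (c * d) • x := by
  apply LICurv_ext <;> simp only [SetLike.val_smul, Quaternion.imI_smul,
      Quaternion.imJ_smul, Quaternion.imK_smul, smul_eq_mul] <;> ring

private lemma LICurv_koszul {B : ImH →ₗ[ℝ] ImH →ₗ[ℝ] ℝ} (hsym : ∀ x y, B x y = B y x)
    {D : ImH →ₗ[ℝ] ImH →ₗ[ℝ] ImH} (hD : IsLeviCivita B D) (x y z : ImH) :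
    2 * B (D x y) z = B (brk x y) z - B (brk y z) x + B (brk z x) y := by
  obtain ⟨ht, hm⟩ := hD
  rw [← ht x y, ← ht y z, ← ht z x]
  simp only [map_sub, LinearMap.sub_apply]
  have h1 := hm x y z
  have h2 := hm y z x
  have h3 := hm z x y
  rw [hsym y (D x z)] at h1
  rw [hsym z (D y x)] at h2
  rw [hsym x (D z y)] at h3
  linarith

private lemma LICurv_zero {B : ImH →ₗ[ℝ] ImH →ₗ[ℝ] ℝ} (hB : IsInner B) {u v w : ImH}
    (hspan : ∀ x : ImH, ∃ a b c : ℝ, x = a • u + b • v + c • w) (z : ImH) (h1 : B z u = 0)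
    (h2 : B z v = 0) (h3 : B z w = 0) : z = 0 := by
  by_contra hz
  have hpos := hB.2 z hz
  obtain ⟨a, b, c, h⟩ := hspan z
  have : B z z = B z (a • u + b • v + c • w) := congrArg (B z) h
  rw [map_add, map_add, map_smul, map_smul, map_smul, h1, h2, h3] at this
  simp at this
  linarith

private lemma LICurv_K {B : ImH →ₗ[ℝ] ImH →ₗ[ℝ] ℝ} (hB : IsInner B)
    {D : ImH →ₗ[ℝ] ImH →ₗ[ℝ] ImH} (hD : IsLeviCivita B D) {u v w : ImH}
    (hspan : ∀ x : ImH, ∃ a b c : ℝ, x = a • u + b • v + c • w)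
    (huv : LICurvCr u v = w) (hvw : LICurvCr v w = u) (hwu : LICurvCr w u = v)
    (h1 : B u v = 0) (h2 : B v w = 0) (h3 : B w u = 0) (hw : 0 < B w w)
    (hs : B u u * B v v - (B u v) ^ 2 ≤ B (curv D u v v) u) :
    B u u * B v v * B w w ≤ 2 * (B u u + B v v - B w w) * B w w
      - (B v v + B w w - B u u) * (B u u + B w w - B v v) := by
  have hsym := hB.1
  have b1 : brk u v = (2 : ℝ) • w := by rw [LICurv_brk, huv]
  have b2 : brk v w = (2 : ℝ) • u := by rw [LICurv_brk, hvw]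
  have b3 : brk w u = (2 : ℝ) • v := by rw [LICurv_brk, hwu]
  have b1' : brk v u = -((2 : ℝ) • w) := by rw [LICurv_brk, LICurv_anti, huv, smul_neg]
  have b2' : brk w v = -((2 : ℝ) • u) := by rw [LICurv_brk, LICurv_anti, hvw, smul_neg]
  have b3' : brk u w = -((2 : ℝ) • v) := by rw [LICurv_brk, LICurv_anti, hwu, smul_neg]
  have b0 : ∀ x, brk x x = 0 := by
    intro x
    unfold brk imPart
    simp
  have h1' : B v u = 0 := by rw [hsym, h1]
  have h2' : B w v = 0 := by rw [hsym, h2]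
  have h3' : B u w = 0 := by rw [hsym, h3]
  have hvv : D v v = 0 := by
    apply LICurv_zero hB hspan
    · have := LICurv_koszul hsym hD v v u
      rw [b0, b1', b1] at this
      simp [h2'] at this
      exact this
    · have := LICurv_koszul hsym hD v v v
      rw [b0] at this
      simp at this
      exact this
    · have := LICurv_koszul hsym hD v v w
      rw [b0, b2, b2'] at this
      simp [h1] at this
      exact this
  set p : ℝ := (B v v + B w w - B u u) / B w w with hp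
  have hpw : p * B w w = B v v + B w w - B u u := by
    rw [hp]; field_simp
  have huvD : D u v = p • w := by
    rw [← sub_eq_zero]
    apply LICurv_zero hB hspan
    · have := LICurv_koszul hsym hD u v u
      rw [b0, b1, b1'] at this
      simp [h3] at this
      simp [h3, this]
    · have := LICurv_koszul hsym hD u v v
      rw [b0, b1, b1'] at this
      simp [h2'] at this
      simp [h2', this]
    · have := LICurv_koszul hsym hD u v w
      rw [b1, b2, b3] at this
      simp only [map_smul, LinearMap.smul_apply, smul_eq_mul] at this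
      simp only [map_sub, map_smul, LinearMap.sub_apply, LinearMap.smul_apply, smul_eq_mul]
      linarith
  have hvuD : D v u = (p - 2) • w := by
    have := hD.1 u v
    rw [huvD, b1] at this
    have h5 : D v u = p • w - (2 : ℝ) • w := by rw [← this]; abel
    rw [h5]
    exact (sub_smul p (2 : ℝ) w).symm
  have hm := hD.2 v (D u v) u
  have hw' := LICurv_koszul hsym hD w v u
  rw [b2', b1', b3'] at hw'
  simp only [map_smul, map_neg, LinearMap.smul_apply, LinearMap.neg_apply, smul_eq_mul] at hw'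
  have hcurv : B (curv D u v v) u = p * (p - 2) * B w w + 2 * (B u u + B v v - B w w) := by
    unfold curv
    rw [hvv, b1]
    simp only [map_zero, map_sub, map_smul, LinearMap.sub_apply, LinearMap.smul_apply, zero_sub,
      LinearMap.zero_apply, LinearMap.neg_apply, map_neg, smul_eq_mul]
    rw [hvuD, huvD] at hm
    simp only [map_smul, LinearMap.smul_apply, smul_eq_mul] at hm
    rw [huvD]
    simp only [map_smul, LinearMap.smul_apply, smul_eq_mul]
    linarith
  rw [hcurv, h1] at hs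
  have hs' : B u u * B v v ≤ p * (p - 2) * B w w + 2 * (B u u + B v v - B w w) := by
    simpa using hs
  have h4 := mul_le_mul_of_nonneg_right hs' hw.le
  have h5 : p * (p - 2) * B w w * B w w = (p * B w w) * (p * B w w - 2 * B w w) := by ring
  rw [add_mul, h5, hpw] at h4
  linarith

private lemma LICurv_arith {a b c : ℝ} (ha : 0 < a) (hb : 0 < b) (hc : 0 < c)
    (h1 : a * b * c ≤ 2 * (a + b - c) * c - (b + c - a) * (a + c - b))
    (h2 : b * c * a ≤ 2 * (b + c - a) * a - (c + a - b) * (b + a - c))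
    (h3 : c * a * b ≤ 2 * (c + a - b) * b - (a + b - c) * (c + b - a)) : a ≤ 1 := by
  have h4 : a * b * c ≤ (b + c - a) * (a + b - c) := by nlinarith
  have h5 : a * b * c ≤ (b + c - a) * (a + c - b) := by nlinarith
  have h6 : a * c ≤ b := by
    have : a * b * c ≤ b ^ 2 := by nlinarith [sq_nonneg ((b + c - a) - (a + b - c))]
    by_contra h
    push Not at h
    nlinarith
  have h7 : a * b ≤ c := by
    have : a * b * c ≤ c ^ 2 := by nlinarith [sq_nonneg ((b + c - a) - (a + c - b))]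
    by_contra h
    push Not at h
    nlinarith
  by_contra h
  push Not at h
  nlinarith

theorem form_le_norm_sq {B : ImH →ₗ[ℝ] ImH →ₗ[ℝ] ℝ} (hB : IsInner B) (hsec : SecGeOne B)
    (x : ImH) : B x x ≤ ‖(x : ℍ[ℝ])‖ ^ 2 := by
  obtain ⟨D, hD, hs⟩ := hsec
  have hsym := hB.1
  have hfin : Module.finrank ℝ ImH = 3 := by
    let e : ImH ≃ₗ[ℝ] (Fin 3 → ℝ) :=
      { toFun := fun x => ![(x : ℍ[ℝ]).imI, (x : ℍ[ℝ]).imJ, (x : ℍ[ℝ]).imK]
        map_add' := by
          intro x y
          ext i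
          fin_cases i <;> simp
        map_smul' := by
          intro c x
          ext i
          fin_cases i <;> simp
        invFun := fun f => ⟨⟨0, f 0, f 1, f 2⟩, rfl⟩
        left_inv := by
          intro x
          apply LICurv_ext <;> rfl
        right_inv := by
          intro f
          ext i
          fin_cases i <;> rfl }
    rw [LinearEquiv.finrank_eq e]
    simp
  have : FiniteDimensional ℝ ImH := Module.finite_of_finrank_pos (by rw [hfin]; norm_num)
  let A : ImH →ₗ[ℝ] ImH :=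
    ((InnerProductSpace.toDual ℝ ImH).symm.toLinearEquiv.toLinearMap).comp
      ((LinearMap.toContinuousLinearMap (𝕜 := ℝ) (E := ImH) (F' := ℝ)).toLinearMap.comp B)
  have hA : ∀ x y, ⟪A x, y⟫ = B x y := by
    intro x y
    simp [A, InnerProductSpace.toDual_symm_apply]
  have hAs : A.IsSymmetric := by
    intro x y
    rw [hA, real_inner_comm, hA, hsym]
  let e := hAs.eigenvectorBasis hfin
  have heig : ∀ i, A (e i) = hAs.eigenvalues hfin i • e i := fun i =>
    hAs.apply_eigenvectorBasis hfin i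
  have hBe : ∀ i j, i ≠ j → B (e i) (e j) = 0 := by
    intro i j hij
    rw [← hA, heig, LICurv_smul_left, e.orthonormal.2 hij]
    simp
  have hne : ∀ i, e i ≠ 0 := fun i => e.orthonormal.ne_zero i
  set c : ℝ := ⟪e 2, LICurvCr (e 0) (e 1)⟫ with hc
  have hn : ∀ i, ⟪e i, e i⟫ = (1 : ℝ) := fun i => by
    rw [real_inner_self_eq_norm_sq, e.orthonormal.1 i]; norm_num
  have ho : ∀ i j, i ≠ j → ⟪e i, e j⟫ = (0 : ℝ) := fun i j hij => e.orthonormal.2 hij
  have hcr : LICurvCr (e 0) (e 1) = c • e 2 := by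
    have h := e.sum_repr' (LICurvCr (e 0) (e 1))
    rw [Fin.sum_univ_three, real_inner_comm, LICurv_inner_left, real_inner_comm,
      LICurv_inner_right, zero_smul, zero_smul, zero_add, zero_add] at h
    exact h.symm
  have hc2 : c * c = 1 := by
    have h := LICurv_lagrange (e 0) (e 1)
    rw [hcr, LICurv_smul_left, real_inner_comm, LICurv_smul_left, hn, hn, hn,
      ho 0 1 (by decide)] at h
    simpa using h
  set u := e 0 with hu
  set v := e 1 with hv
  set w := c • e 2 with hw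
  have hvw : LICurvCr v w = u := by
    have h1 : w = LICurvCr u v := hcr.symm
    rw [h1, LICurv_cross_cross, hn, ho 1 0 (by decide)]
    simp
  have hwu : LICurvCr w u = v := by
    have h1 : w = LICurvCr u v := hcr.symm
    rw [h1, LICurv_anti, LICurv_cross_cross, hn, ho 0 1 (by decide)]
    simp
  have huv0 : B u v = 0 := hBe 0 1 (by decide)
  have hvw0 : B v w = 0 := by rw [hw, map_smul, hBe 1 2 (by decide)]; simp
  have hwu0 : B w u = 0 := by rw [hsym, hw, map_smul, hBe 0 2 (by decide)]; simp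
  have hww : B w w = B (e 2) (e 2) := by
    rw [hw, map_smul, LinearMap.map_smul, LinearMap.smul_apply, smul_eq_mul, smul_eq_mul,
      ← mul_assoc, hc2, one_mul]
  have pu : 0 < B u u := hB.2 _ (hne 0)
  have pv : 0 < B v v := hB.2 _ (hne 1)
  have pw : 0 < B w w := by rw [hww]; exact hB.2 _ (hne 2)
  have hexp : ∀ x : ImH, x = ⟪e 0, x⟫ • e 0 + ⟪e 1, x⟫ • e 1 + ⟪e 2, x⟫ • e 2 := by
    intro x
    have h := e.sum_repr' x
    rw [Fin.sum_univ_three] at h
    exact h.symm
  have hcw : e 2 = c • w := by rw [hw, LICurv_smul_smul, hc2, one_smul]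
  have hspan : ∀ x : ImH, ∃ a b d : ℝ, x = a • u + b • v + d • w := by
    intro x
    refine ⟨⟪e 0, x⟫, ⟪e 1, x⟫, ⟪e 2, x⟫ * c, ?_⟩
    rw [mul_smul, ← hcw]
    exact hexp x
  have hspan2 : ∀ x : ImH, ∃ a b d : ℝ, x = a • v + b • w + d • u := by
    intro x
    obtain ⟨a, b, d, h⟩ := hspan x
    exact ⟨b, d, a, by rw [h]; abel⟩
  have hspan3 : ∀ x : ImH, ∃ a b d : ℝ, x = a • w + b • u + d • v := by
    intro x
    obtain ⟨a, b, d, h⟩ := hspan x
    exact ⟨d, a, b, by rw [h]; abel⟩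
  have k1 := LICurv_K hB hD hspan hcr hvw hwu huv0 hvw0 hwu0 pw (hs u v)
  have k2 := LICurv_K hB hD hspan2 hvw hwu hcr hvw0 hwu0 huv0 pu (hs v w)
  have k3 := LICurv_K hB hD hspan3 hwu hcr hvw hwu0 huv0 hvw0 pv (hs w u)
  have l1 := LICurv_arith pu pv pw k1 k2 k3
  have l2 := LICurv_arith pv pw pu k2 k3 k1
  have l3 := LICurv_arith pw pu pv k3 k1 k2
  have hx := hexp x
  have hnx : ‖(x : ℍ[ℝ])‖ ^ 2 = ⟪e 0, x⟫ ^ 2 + ⟪e 1, x⟫ ^ 2 + ⟪e 2, x⟫ ^ 2 := by
    have h := e.sum_sq_inner_right x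
    rw [Fin.sum_univ_three] at h
    exact h.symm
  have hBx : B x x = ⟪e 0, x⟫ ^ 2 * B u u + ⟪e 1, x⟫ ^ 2 * B v v + ⟪e 2, x⟫ ^ 2 * B w w := by
    rw [hww]
    generalize ⟪e 0, x⟫ = a0 at hx
    generalize ⟪e 1, x⟫ = a1 at hx
    generalize ⟪e 2, x⟫ = a2 at hx
    rw [hx]
    simp only [map_add, map_smul, LinearMap.add_apply, LinearMap.smul_apply, smul_eq_mul]
    rw [hBe 0 1 (by decide), hBe 0 2 (by decide), hBe 1 0 (by decide), hBe 1 2 (by decide),
      hBe 2 0 (by decide), hBe 2 1 (by decide)]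
    ring
  rw [hnx, hBx]
  nlinarith [sq_nonneg ⟪e 0, x⟫, sq_nonneg ⟪e 1, x⟫, sq_nonneg ⟪e 2, x⟫]

end Pool.Agent.DGP
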