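import Mathlib

/-!
Left-invariant Riemannian metrics on `S³`, the group of unit quaternions.  Definitions (helper26).
-/

set_option autoImplicit false

open scoped Quaternion RealInnerProductSpace

namespace Pool.Agent.DGP

noncomputable section

/-- The Lie algebra of `S³`: the purely imaginary quaternions. -/
def ImH : Submodule ℝ ℍ[ℝ] where
  carrier := {x | x.re = 0}
  add_mem' := by
    intro a b ha hb
    simp only [Set.mem_setOf_eq] at ha hb ⊢
    simp [ha, hb]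
  zero_mem' := by simp
  smul_mem' := by
    intro c x hx
    simp only [Set.mem_setOf_eq] at hx ⊢
    simp [hx]

/-- The imaginary part of a quaternion. -/
def imPart (x : ℍ[ℝ]) : ImH := ⟨x.im, by change x.im.re = 0; simp⟩

/-- The bracket `[x, y] = x y - y x` of the Lie algebra of `S³`. -/
def brk (x y : ImH) : ImH := imPart ((x : ℍ[ℝ]) * y - y * x)

/-- `D` is the Levi-Civita connection, on left-invariant vector fields, of the left-invariant metric given by
the inner product `B` of the Lie algebra: it is torsion-free and compatible with `B`. -/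
def IsLeviCivita (B : ImH →ₗ[ℝ] ImH →ₗ[ℝ] ℝ) (D : ImH →ₗ[ℝ] ImH →ₗ[ℝ] ImH) : Prop :=
  (∀ x y, D x y - D y x = brk x y) ∧ (∀ x y z, B (D x y) z + B y (D x z) = 0)

/-- The curvature tensor `R(x, y) z = D_x D_y z - D_y D_x z - D_{[x,y]} z`. -/
def curv (D : ImH →ₗ[ℝ] ImH →ₗ[ℝ] ImH) (x y z : ImH) : ImH :=
  D x (D y z) - D y (D x z) - D (brk x y) z

/-- `B` is an inner product on the Lie algebra, i.e. a left-invariant Riemannian metric on `S³`. -/
def IsInner (B : ImH →ₗ[ℝ] ImH →ₗ[ℝ] ℝ) : Prop :=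
  (∀ x y, B x y = B y x) ∧ (∀ x, x ≠ 0 → 0 < B x x)

/-- All sectional curvatures of the left-invariant metric `B` are `≥ 1`. -/
def SecGeOne (B : ImH →ₗ[ℝ] ImH →ₗ[ℝ] ℝ) : Prop :=
  ∃ D, IsLeviCivita B D ∧ ∀ x y, B x x * B y y - (B x y) ^ 2 ≤ B (curv D x y y) x

/-- The length in the left-invariant metric `B` of a `C¹` curve `c : [0,1] → S³`. -/
def liLength (B : ImH →ₗ[ℝ] ImH →ₗ[ℝ] ℝ) (c : ℝ → ℍ[ℝ]) : ℝ :=
  ∫ t in (0 : ℝ)..1, √(B (imPart (star (c t) * deriv c t)) (imPart (star (c t) * deriv c t)))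

/-- The Riemannian distance of `p, q ∈ S³` in the left-invariant metric `B`. -/
def liDist (B : ImH →ₗ[ℝ] ImH →ₗ[ℝ] ℝ) (p q : ℍ[ℝ]) : ℝ :=
  sInf {L | ∃ c : ℝ → ℍ[ℝ], ContDiff ℝ 1 c ∧ (∀ t, ‖c t‖ = 1) ∧ c 0 = p ∧ c 1 = q ∧
    L = liLength B c}

end

end Pool.Agent.DGP
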