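import Pool.Agent.DGP.LIDefs

/-!
Module LIDist (size 2).  If `B x x ≤ ‖x‖²` then the distance of the left-invariant metric is at most the round distance
(the angle): use the great circle arc `c t = cos (tθ) p + sin (tθ) e` from `p` to `q`, `θ = angle p q`,
`e ⟂ p` a unit quaternion with `q = cos θ p + sin θ e` (for `q = ± p` any unit `e ⟂ p`).  Its speed is
`‖star (c t) * deriv c t‖ = ‖deriv c t‖ = θ`, and `star (c t) * deriv c t` is purely imaginary (or: `‖x.im‖ ≤ ‖x‖`).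
The set of lengths is bounded below by `0`.
-/

set_option autoImplicit false

open scoped Quaternion RealInnerProductSpace Topology

namespace Pool.Agent.DGP

private theorem LIDist_exists_i : ∃ i : ℍ[ℝ], ‖i‖ = 1 ∧ i.re = 0 := by
  let i : ℍ[ℝ] := ⟨0, 1, 0, 0⟩
  refine ⟨i, ?_, rfl⟩
  have h1 : ‖i‖ * ‖i‖ = 1 := by
    rw [← Quaternion.normSq_eq_norm_mul_self, Quaternion.normSq_def']
    norm_num [i]
  have h2 := norm_nonneg i
  nlinarith

private theorem LIDist_exists_orth (p : ℍ[ℝ]) (hp : ‖p‖ = 1) : ∃ e : ℍ[ℝ], ‖e‖ = 1 ∧ ⟪p, e⟫ = 0 := by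
  obtain ⟨i, hi1, hi2⟩ := LIDist_exists_i
  refine ⟨p * i, ?_, ?_⟩
  · rw [norm_mul, hp, one_mul, hi1]
  · rw [Quaternion.inner_def]
    simp [hi2]
    ring

private theorem LIDist_exists_e {p q : ℍ[ℝ]}
    (hp : ‖p‖ = 1) (hq : ‖q‖ = 1) : ∃ e : ℍ[ℝ], ‖e‖ = 1 ∧ ⟪p, e⟫ = 0 ∧
      q = Real.cos (InnerProductGeometry.angle p q) • p
        + Real.sin (InnerProductGeometry.angle p q) • e := by
  have hcos : Real.cos (InnerProductGeometry.angle p q) = ⟪p, q⟫ := by
    have := InnerProductGeometry.cos_angle_mul_norm_mul_norm p q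
    rw [hp, hq] at this
    linarith
  set θ := InnerProductGeometry.angle p q with hθ
  by_cases hs : Real.sin θ = 0
  · obtain ⟨e, he, hpe⟩ := LIDist_exists_orth p hp
    refine ⟨e, he, hpe, ?_⟩
    rw [hs, zero_smul, add_zero]
    have h1 : ‖q - Real.cos θ • p‖ ^ 2 = 0 := by
      rw [norm_sub_sq_real, real_inner_smul_right, real_inner_comm, ← hcos, norm_smul, hp, hq,
        mul_one, Real.norm_eq_abs, sq_abs]
      have := Real.sin_sq_add_cos_sq θ
      rw [hs] at this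
      nlinarith
    have h2 : ‖q - Real.cos θ • p‖ = 0 := by
      exact pow_eq_zero_iff (two_ne_zero) |>.mp h1
    exact sub_eq_zero.mp (norm_eq_zero.mp h2)
  · refine ⟨(Real.sin θ)⁻¹ • (q - Real.cos θ • p), ?_, ?_, ?_⟩
    · have hsp : 0 < Real.sin θ := by
        refine lt_of_le_of_ne ?_ (Ne.symm hs)
        exact Real.sin_nonneg_of_nonneg_of_le_pi (InnerProductGeometry.angle_nonneg _ _)
          (InnerProductGeometry.angle_le_pi _ _)
      have h1 : ‖q - Real.cos θ • p‖ ^ 2 = Real.sin θ ^ 2 := by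
        rw [norm_sub_sq_real, real_inner_smul_right, real_inner_comm, ← hcos, norm_smul, hp, hq,
          mul_one, Real.norm_eq_abs, sq_abs]
        have := Real.sin_sq_add_cos_sq θ
        nlinarith
      have h2 : ‖q - Real.cos θ • p‖ = Real.sin θ := by
        have h3 := norm_nonneg (q - Real.cos θ • p)
        nlinarith [sq_nonneg (‖q - Real.cos θ • p‖ - Real.sin θ)]
      rw [norm_smul, h2, norm_inv, Real.norm_eq_abs, abs_of_pos hsp, inv_mul_cancel₀ hs]
    · rw [real_inner_smul_right, inner_sub_right, real_inner_smul_right,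
        real_inner_self_eq_norm_sq, hp, ← hcos]
      ring
    · rw [smul_smul, mul_inv_cancel₀ hs, one_smul]
      abel

private theorem LIDist_norm_comb {p e : ℍ[ℝ]} (hp : ‖p‖ = 1) (he : ‖e‖ = 1) (hpe : ⟪p, e⟫ = 0)
    (a b : ℝ) : ‖a • p + b • e‖ ^ 2 = a ^ 2 + b ^ 2 := by
  rw [norm_add_sq_real, real_inner_smul_left, real_inner_smul_right, hpe, norm_smul, norm_smul,
    hp, he, mul_one, mul_one, Real.norm_eq_abs, Real.norm_eq_abs, sq_abs, sq_abs]
  ring

/-- the great circle arc -/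
private theorem LIDist_arc {p q : ℍ[ℝ]} (hp : ‖p‖ = 1) (hq : ‖q‖ = 1) :
    ∃ c : ℝ → ℍ[ℝ], ContDiff ℝ 1 c ∧ (∀ t, ‖c t‖ = 1) ∧ c 0 = p ∧ c 1 = q ∧
      ∀ t, ‖deriv c t‖ = InnerProductGeometry.angle p q := by
  obtain ⟨e, he, hpe, hqe⟩ := LIDist_exists_e hp hq
  set θ := InnerProductGeometry.angle p q with hθ
  have hθ0 : 0 ≤ θ := InnerProductGeometry.angle_nonneg _ _
  refine ⟨fun t => Real.cos (t * θ) • p + Real.sin (t * θ) • e, by fun_prop, ?_, ?_, ?_, ?_⟩
  · intro t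
    have h1 := LIDist_norm_comb hp he hpe (Real.cos (t * θ)) (Real.sin (t * θ))
    rw [Real.cos_sq_add_sin_sq] at h1
    have := norm_nonneg (Real.cos (t * θ) • p + Real.sin (t * θ) • e)
    nlinarith
  · simp
  · simp only [one_mul]
    exact hqe.symm
  · intro t
    have h1 : HasDerivAt (fun t : ℝ => t * θ) θ t := by
      simpa using (hasDerivAt_id t).mul_const θ
    have h2 : HasDerivAt (fun t : ℝ => Real.cos (t * θ) • p + Real.sin (t * θ) • e)
        ((-Real.sin (t * θ) * θ) • p + (Real.cos (t * θ) * θ) • e) t :=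
      (h1.cos.smul_const p).add (h1.sin.smul_const e)
    rw [h2.deriv]
    have h3 := LIDist_norm_comb hp he hpe (-Real.sin (t * θ) * θ) (Real.cos (t * θ) * θ)
    have h4 : (-Real.sin (t * θ) * θ) ^ 2 + (Real.cos (t * θ) * θ) ^ 2 = θ ^ 2 := by
      have := Real.sin_sq_add_cos_sq (t * θ)
      nlinarith
    rw [h4] at h3
    exact (sq_eq_sq₀ (norm_nonneg _) hθ0).1 h3

private theorem LIDist_norm_im (x : ℍ[ℝ]) : ‖(imPart x : ℍ[ℝ])‖ ^ 2 + x.re ^ 2 = ‖x‖ ^ 2 := by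
  have h1 : ‖(imPart x : ℍ[ℝ])‖ ^ 2 = Quaternion.normSq (x.im) := by
    rw [Quaternion.normSq_eq_norm_mul_self, sq]
    rfl
  have h2 : ‖x‖ ^ 2 = Quaternion.normSq x := by
    rw [Quaternion.normSq_eq_norm_mul_self, sq]
  rw [h1, h2, Quaternion.normSq_def', Quaternion.normSq_def']
  simp
  ring

private theorem LIDist_norm_im_le (x : ℍ[ℝ]) : ‖(imPart x : ℍ[ℝ])‖ ≤ ‖x‖ := by
  have h1 := LIDist_norm_im x
  exact (sq_le_sq₀ (norm_nonneg _) (norm_nonneg _)).1 (by nlinarith [sq_nonneg x.re])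

theorem liDist_nonneg {B : ImH →ₗ[ℝ] ImH →ₗ[ℝ] ℝ} (p q : ℍ[ℝ]) : 0 ≤ liDist B p q := by
  apply Real.sInf_nonneg
  rintro L ⟨c, -, -, -, -, rfl⟩
  exact intervalIntegral.integral_nonneg zero_le_one fun t _ => Real.sqrt_nonneg _

theorem liDist_le_angle {B : ImH →ₗ[ℝ] ImH →ₗ[ℝ] ℝ} (hB : IsInner B)
    (hle : ∀ x : ImH, B x x ≤ ‖(x : ℍ[ℝ])‖ ^ 2) {p q : ℍ[ℝ]} (hp : ‖p‖ = 1) (hq : ‖q‖ = 1) :
    liDist B p q ≤ InnerProductGeometry.angle p q := by
  obtain ⟨c, hc1, hc2, hc3, hc4, hc5⟩ := LIDist_arc hp hq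
  have h0 : BddBelow {L | ∃ c : ℝ → ℍ[ℝ], ContDiff ℝ 1 c ∧ (∀ t, ‖c t‖ = 1) ∧ c 0 = p ∧ c 1 = q ∧
      L = liLength B c} := by
    refine ⟨0, ?_⟩
    rintro L ⟨c, -, -, -, -, rfl⟩
    exact intervalIntegral.integral_nonneg zero_le_one fun t _ => Real.sqrt_nonneg _
  have h1 : liDist B p q ≤ liLength B c := csInf_le h0 ⟨c, hc1, hc2, hc3, hc4, rfl⟩
  refine h1.trans ?_
  have h2 : ‖liLength B c‖ ≤ InnerProductGeometry.angle p q * |(1:ℝ) - 0| := by
    apply intervalIntegral.norm_integral_le_of_norm_le_const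
    intro t _
    rw [Real.norm_eq_abs, abs_of_nonneg (Real.sqrt_nonneg _)]
    have h3 : √(B (imPart (star (c t) * deriv c t)) (imPart (star (c t) * deriv c t)))
        ≤ √(‖((imPart (star (c t) * deriv c t) : ImH) : ℍ[ℝ])‖ ^ 2) :=
      Real.sqrt_le_sqrt (hle _)
    rw [Real.sqrt_sq (norm_nonneg _)] at h3
    refine h3.trans ((LIDist_norm_im_le _).trans ?_)
    rw [norm_mul, Quaternion.norm_star, hc2, one_mul, hc5]
  rw [sub_zero, abs_one, mul_one] at h2
  exact (le_abs_self _).trans h2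

private theorem LIDist_inner (x y : ImH) : ⟪(x : ℍ[ℝ]), (y : ℍ[ℝ])⟫ =
    (x : ℍ[ℝ]).imI * (y : ℍ[ℝ]).imI + (x : ℍ[ℝ]).imJ * (y : ℍ[ℝ]).imJ
      + (x : ℍ[ℝ]).imK * (y : ℍ[ℝ]).imK := by
  have hx : (x : ℍ[ℝ]).re = 0 := x.2
  have hy : (y : ℍ[ℝ]).re = 0 := y.2
  rw [Quaternion.inner_def]
  simp [hx, hy]

private theorem LIDist_brk_imI (x y : ImH) : (brk x y : ℍ[ℝ]).imI =
    2 * ((x : ℍ[ℝ]).imJ * (y : ℍ[ℝ]).imK - (x : ℍ[ℝ]).imK * (y : ℍ[ℝ]).imJ) := by
  have hx : (x : ℍ[ℝ]).re = 0 := x.2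
  have hy : (y : ℍ[ℝ]).re = 0 := y.2
  change ((x : ℍ[ℝ]) * y - y * x).im.imI = _
  simp [hx, hy]
  ring

private theorem LIDist_brk_imJ (x y : ImH) : (brk x y : ℍ[ℝ]).imJ =
    2 * ((x : ℍ[ℝ]).imK * (y : ℍ[ℝ]).imI - (x : ℍ[ℝ]).imI * (y : ℍ[ℝ]).imK) := by
  have hx : (x : ℍ[ℝ]).re = 0 := x.2
  have hy : (y : ℍ[ℝ]).re = 0 := y.2
  change ((x : ℍ[ℝ]) * y - y * x).im.imJ = _
  simp [hx, hy]
  ring

private theorem LIDist_brk_imK (x y : ImH) : (brk x y : ℍ[ℝ]).imK =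
    2 * ((x : ℍ[ℝ]).imI * (y : ℍ[ℝ]).imJ - (x : ℍ[ℝ]).imJ * (y : ℍ[ℝ]).imI) := by
  have hx : (x : ℍ[ℝ]).re = 0 := x.2
  have hy : (y : ℍ[ℝ]).re = 0 := y.2
  change ((x : ℍ[ℝ]) * y - y * x).im.imK = _
  simp [hx, hy]
  ring

private theorem LIDist_ext {x y : ImH} (h1 : (x : ℍ[ℝ]).imI = (y : ℍ[ℝ]).imI)
    (h2 : (x : ℍ[ℝ]).imJ = (y : ℍ[ℝ]).imJ) (h3 : (x : ℍ[ℝ]).imK = (y : ℍ[ℝ]).imK) : x = y := by
  have hx : (x : ℍ[ℝ]).re = 0 := x.2
  have hy : (y : ℍ[ℝ]).re = 0 := y.2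
  apply Subtype.ext
  exact QuaternionAlgebra.ext (hx.trans hy.symm) h1 h2 h3

private noncomputable def LIDist_B : ImH →ₗ[ℝ] ImH →ₗ[ℝ] ℝ :=
  LinearMap.mk₂ ℝ (fun x y => ⟪(x : ℍ[ℝ]), (y : ℍ[ℝ])⟫)
    (fun x y z => by simp [inner_add_left]) (fun c x y => by simp [real_inner_smul_left])
    (fun x y z => by simp [inner_add_right]) (fun c x y => by simp [real_inner_smul_right])

private theorem LIDist_B_apply (x y : ImH) : LIDist_B x y = ⟪(x : ℍ[ℝ]), (y : ℍ[ℝ])⟫ := rfl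

private noncomputable def LIDist_D : ImH →ₗ[ℝ] ImH →ₗ[ℝ] ImH :=
  LinearMap.mk₂ ℝ (fun x y => (1 / 2 : ℝ) • brk x y)
    (fun x y z => by
      apply LIDist_ext <;>
        simp [LIDist_brk_imI, LIDist_brk_imJ, LIDist_brk_imK] <;> ring)
    (fun c x y => by
      apply LIDist_ext <;>
        simp [LIDist_brk_imI, LIDist_brk_imJ, LIDist_brk_imK] <;> ring)
    (fun x y z => by
      apply LIDist_ext <;>
        simp [LIDist_brk_imI, LIDist_brk_imJ, LIDist_brk_imK] <;> ring)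
    (fun c x y => by
      apply LIDist_ext <;>
        simp [LIDist_brk_imI, LIDist_brk_imJ, LIDist_brk_imK] <;> ring)

private theorem LIDist_D_apply (x y : ImH) : LIDist_D x y = (1 / 2 : ℝ) • brk x y := rfl

/-- the standard inner product is an inner product of sectional curvature `≥ 1` -/
theorem exists_round : ∃ B : ImH →ₗ[ℝ] ImH →ₗ[ℝ] ℝ, IsInner B ∧ SecGeOne B ∧
    (∀ x y : ImH, B x y = ⟪(x : ℍ[ℝ]), (y : ℍ[ℝ])⟫) := by
  refine ⟨LIDist_B, ⟨fun x y => ?_, fun x hx => ?_⟩, ⟨LIDist_D, ⟨fun x y => ?_, fun x y z => ?_⟩,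
    fun x y => ?_⟩, LIDist_B_apply⟩
  · rw [LIDist_B_apply, LIDist_B_apply, real_inner_comm]
  · rw [LIDist_B_apply, real_inner_self_eq_norm_sq]
    have : (x : ℍ[ℝ]) ≠ 0 := fun h => hx (Subtype.ext h)
    positivity
  · apply LIDist_ext <;>
      simp [LIDist_D_apply, LIDist_brk_imI, LIDist_brk_imJ, LIDist_brk_imK] <;> ring
  · rw [LIDist_B_apply, LIDist_B_apply, LIDist_inner, LIDist_inner]
    simp [LIDist_D_apply, LIDist_brk_imI, LIDist_brk_imJ, LIDist_brk_imK]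
    ring
  · rw [LIDist_B_apply, LIDist_B_apply, LIDist_B_apply, LIDist_B_apply, LIDist_inner,
      LIDist_inner, LIDist_inner, LIDist_inner]
    simp [curv, LIDist_D_apply, LIDist_brk_imI, LIDist_brk_imJ, LIDist_brk_imK]
    apply le_of_eq
    ring

private theorem LIDist_chord {u v : ℍ[ℝ]} (hu : ‖u‖ = 1) (hv : ‖v‖ = 1) :
    ‖v - u‖ = 2 * Real.sin (InnerProductGeometry.angle u v / 2) := by
  have hcos : Real.cos (InnerProductGeometry.angle u v) = ⟪u, v⟫ := by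
    have := InnerProductGeometry.cos_angle_mul_norm_mul_norm u v
    rw [hu, hv] at this
    linarith
  set θ := InnerProductGeometry.angle u v with hθ
  have hθ0 : 0 ≤ θ := InnerProductGeometry.angle_nonneg _ _
  have hθ1 : θ ≤ Real.pi := InnerProductGeometry.angle_le_pi _ _
  have h1 : ‖v - u‖ ^ 2 = (2 * Real.sin (θ / 2)) ^ 2 := by
    rw [norm_sub_sq_real, real_inner_comm, ← hcos, hu, hv]
    have h2 : Real.cos θ = 2 * Real.cos (θ / 2) ^ 2 - 1 := by
      rw [← Real.cos_two_mul]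
      congr 1
      ring
    have := Real.sin_sq_add_cos_sq (θ / 2)
    nlinarith
  exact (sq_eq_sq₀ (norm_nonneg _) (mul_nonneg zero_le_two
    (Real.sin_nonneg_of_nonneg_of_le_pi (by linarith) (by linarith)))).1 h1

private theorem LIDist_chord_le {u v : ℍ[ℝ]} (hu : ‖u‖ = 1) (hv : ‖v‖ = 1) :
    InnerProductGeometry.angle u v * (1 - InnerProductGeometry.angle u v ^ 2 / 24) ≤ ‖v - u‖ := by
  rw [LIDist_chord hu hv]
  set θ := InnerProductGeometry.angle u v with hθ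
  have hθ0 : 0 ≤ θ := InnerProductGeometry.angle_nonneg _ _
  rcases hθ0.lt_or_eq with h | h
  · have := Real.sin_gt_sub_cube (half_pos h)
    nlinarith
  · rw [← h]
    simp

/-- the angle between the endpoints is at most the length -/
private theorem LIDist_angle_le {c : ℝ → ℍ[ℝ]} (hc : ContDiff ℝ 1 c) (hc1 : ∀ t, ‖c t‖ = 1) :
    InnerProductGeometry.angle (c 0) (c 1) ≤ ∫ t in (0 : ℝ)..1, ‖deriv c t‖ := by
  have hne : ∀ t, c t ≠ 0 := fun t h => by
    have := hc1 t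
    rw [h, norm_zero] at this
    exact zero_ne_one this
  have hcc : Continuous c := hc.continuous
  have hdc : Continuous fun t => ‖deriv c t‖ := (hc.continuous_deriv le_rfl).norm
  have hang : ∀ x, Continuous fun z => InnerProductGeometry.angle (c x) (c z) := by
    intro x
    rw [continuous_iff_continuousAt]
    intro z
    have h1 := InnerProductGeometry.continuousAt_angle (x := (c x, c z)) (hne x) (hne z)
    exact ContinuousAt.comp (f := fun z => (c x, c z))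
      (g := fun y : ℍ[ℝ] × ℍ[ℝ] => InnerProductGeometry.angle y.1 y.2) h1
      (by fun_prop)
  have hBd : ∀ z, HasDerivAt (fun z => ∫ t in (0 : ℝ)..z, ‖deriv c t‖) ‖deriv c z‖ z := fun z =>
    intervalIntegral.integral_hasDerivAt_right (hdc.intervalIntegrable _ _)
      (hdc.stronglyMeasurableAtFilter _ _) hdc.continuousAt
  refine image_le_of_liminf_slope_right_le_deriv_boundary
    (f := fun z => InnerProductGeometry.angle (c 0) (c z)) (a := 0) (b := 1)
    (B := fun z => ∫ t in (0 : ℝ)..z, ‖deriv c t‖) (B' := fun z => ‖deriv c z‖)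
    (hang 0).continuousOn ?_ (fun z _ => (hBd z).continuousAt.continuousWithinAt)
    (fun z _ => (hBd z).hasDerivWithinAt) ?_ (Set.right_mem_Icc.2 zero_le_one)
  · simp only [intervalIntegral.integral_same]
    rw [InnerProductGeometry.angle_self (hne 0)]
  · intro x _ r hr
    apply Filter.Eventually.frequently
    have h1 : HasDerivAt c (deriv c x) x := (hc.differentiable (by simp) x).hasDerivAt
    have h2 : Filter.Tendsto (fun z => ‖slope c x z‖) (𝓝[>] x) (𝓝 ‖deriv c x‖) :=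
      ((hasDerivAt_iff_tendsto_slope.1 h1).mono_left
        (nhdsWithin_mono _ fun z hz => ne_of_gt hz)).norm
    have h3 : Filter.Tendsto (fun z => 1 - InnerProductGeometry.angle (c x) (c z) ^ 2 / 24)
        (𝓝[>] x) (𝓝 1) := by
      have h4 : Continuous fun z => 1 - InnerProductGeometry.angle (c x) (c z) ^ 2 / 24 := by
        have := hang x
        fun_prop
      have h5 := (h4.tendsto x).mono_left (nhdsWithin_le_nhds (s := Set.Ioi x))
      simpa [InnerProductGeometry.angle_self (hne x)] using h5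
    have h6 := h2.div h3 one_ne_zero
    rw [div_one] at h6
    filter_upwards [h6.eventually_lt_const hr, h3.eventually_const_lt zero_lt_one,
      self_mem_nhdsWithin] with z hz1 hz2 hz3
    have hz4 : 0 < z - x := sub_pos.2 hz3
    refine lt_of_le_of_lt ?_ hz1
    have h7 := InnerProductGeometry.angle_le_angle_add_angle (c 0) (c x) (c z)
    have h8 := LIDist_chord_le (hc1 x) (hc1 z)
    change slope (fun z => InnerProductGeometry.angle (c 0) (c z)) x z ≤
      ‖slope c x z‖ / (1 - InnerProductGeometry.angle (c x) (c z) ^ 2 / 24)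
    rw [slope_def_field, slope_def_module, norm_smul, norm_inv, Real.norm_eq_abs,
      abs_of_pos hz4, le_div_iff₀ hz2, div_mul_eq_mul_div, div_le_iff₀ hz4]
    have h9 : (z - x)⁻¹ * ‖c z - c x‖ * (z - x) = ‖c z - c x‖ := by
      field_simp
    rw [h9]
    refine le_trans ?_ h8
    apply mul_le_mul_of_nonneg_right _ hz2.le
    linarith

private theorem LIDist_speed {c : ℝ → ℍ[ℝ]} (hc : ContDiff ℝ 1 c) (hc1 : ∀ t, ‖c t‖ = 1) (t : ℝ) :
    ‖((imPart (star (c t) * deriv c t) : ImH) : ℍ[ℝ])‖ = ‖deriv c t‖ := by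
  have h1 : HasDerivAt c (deriv c t) t := (hc.differentiable (by simp) t).hasDerivAt
  have h2 := h1.inner ℝ h1
  have h3 : (fun t => ⟪c t, c t⟫) = fun _ => (1 : ℝ) := by
    funext s
    rw [real_inner_self_eq_norm_sq, hc1]
    norm_num
  rw [h3] at h2
  have h4 := h2.unique (hasDerivAt_const t (1 : ℝ))
  rw [real_inner_comm (c t) (deriv c t)] at h4
  have h5 : ⟪c t, deriv c t⟫ = 0 := by linarith
  have h6 : (star (c t) * deriv c t).re = 0 := by
    rw [Quaternion.inner_def] at h5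
    simp at h5 ⊢
    linarith
  have h7 := LIDist_norm_im (star (c t) * deriv c t)
  rw [h6, norm_mul, Quaternion.norm_star, hc1, one_mul] at h7
  exact (sq_eq_sq₀ (norm_nonneg _) (norm_nonneg _)).1 (by linarith)

/-- in the round metric the distance is at least the angle -/
theorem angle_le_liDist {B : ImH →ₗ[ℝ] ImH →ₗ[ℝ] ℝ}
    (hB : ∀ x y : ImH, B x y = ⟪(x : ℍ[ℝ]), (y : ℍ[ℝ])⟫) {p q : ℍ[ℝ]} (hp : ‖p‖ = 1)
    (hq : ‖q‖ = 1) : InnerProductGeometry.angle p q ≤ liDist B p q := by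
  obtain ⟨c, hc1, hc2, hc3, hc4, hc5⟩ := LIDist_arc hp hq
  refine le_csInf ⟨_, c, hc1, hc2, hc3, hc4, rfl⟩ ?_
  rintro L ⟨c, hc, hc1, rfl, rfl, rfl⟩
  refine (LIDist_angle_le hc hc1).trans (le_of_eq ?_)
  unfold liLength
  congr 1
  funext t
  rw [hB, real_inner_self_eq_norm_sq, LIDist_speed hc hc1, Real.sqrt_sq (norm_nonneg _)]

end Pool.Agent.DGP
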