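import Pool.Agent.DGP.Defs

/-!
Module Q8 (size 3).  The quaternion group of order 8 acts freely on the unit sphere of `ℝ⁴`, and the orbit of
`p = (1,0,0,0)` is `{± e_i}`, so all inner products with `q = (1,1,1,1)/2` are `± 1/2`.

Take the left multiplications by `± 1, ± i, ± j, ± k` on Mathlib's quaternions, transported with
`Quaternion.linearIsometryEquivTuple : ℍ[ℝ] ≃ₗᵢ[ℝ] EuclideanSpace ℝ (Fin 4)`; or explicit signed permutation
matrices.  Freeness: `u x = x`, `x ≠ 0` gives `u = 1` in a division ring.  Irreducibility: an invariant subspace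
`W ≠ 0` is invariant under left multiplication by `i, j, k`, hence by all quaternions, so it contains
`ℍ w = ℍ`.
-/

set_option autoImplicit false

open scoped RealInnerProductSpace

namespace Pool.Agent.DGP

/-- the quaternion with integer components -/
private def q8u (a b c d : ℤ) : Quaternion ℝ := ⟨a, b, c, d⟩

private theorem q8_normSq (a b c d : ℤ) (h : a ^ 2 + b ^ 2 + c ^ 2 + d ^ 2 = 1) : Quaternion.normSq (q8u a b c d) = 1 := by
  rw [Quaternion.normSq_def']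
  have : ((a ^ 2 + b ^ 2 + c ^ 2 + d ^ 2 : ℤ) : ℝ) = 1 := by rw [h]; norm_num
  push_cast at this
  simpa [q8u] using this

private theorem q8_norm (a b c d : ℤ) (h : a ^ 2 + b ^ 2 + c ^ 2 + d ^ 2 = 1) : ‖q8u a b c d‖ = 1 := by
  have h1 := Quaternion.normSq_eq_norm_mul_self (q8u a b c d)
  rw [q8_normSq a b c d h] at h1
  have h2 : 0 ≤ ‖q8u a b c d‖ := norm_nonneg _
  nlinarith

private theorem q8_mul (a b c d a' b' c' d' : ℤ) : q8u a b c d * q8u a' b' c' d' =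
    q8u (a * a' - b * b' - c * c' - d * d') (a * b' + b * a' + c * d' - d * c')
      (a * c' - b * d' + c * a' + d * b') (a * d' + b * c' - c * b' + d * a') := by
  ext <;> simp [q8u]

private theorem q8_one : q8u 1 0 0 0 = 1 := by
  ext <;> simp [q8u] <;> rfl

private theorem q8_star (a b c d : ℤ) (h : a ^ 2 + b ^ 2 + c ^ 2 + d ^ 2 = 1) :
    q8u a b c d * q8u a (-b) (-c) (-d) = 1 := by
  rw [q8_mul]
  have h1 : a * a - b * -b - c * -c - d * -d = 1 := by linarith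
  have h2 : a * -b + b * a + c * -d - d * -c = 0 := by ring
  have h3 : a * -c - b * -d + c * a + d * -b = 0 := by ring
  have h4 : a * -d + b * -c - c * -b + d * a = 0 := by ring
  rw [h1, h2, h3, h4, q8_one]

/-- left multiplication by a unit quaternion with integer components -/
private noncomputable def q8L (a b c d : ℤ) (h : a ^ 2 + b ^ 2 + c ^ 2 + d ^ 2 = 1) : Quaternion ℝ ≃ₗᵢ[ℝ] Quaternion ℝ where
  toFun x := q8u a b c d * x
  map_add' x y := mul_add _ x y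
  map_smul' r x := by simp
  invFun x := q8u a (-b) (-c) (-d) * x
  left_inv x := by
    have h1 := q8_star a (-b) (-c) (-d) (by linarith)
    rw [neg_neg, neg_neg, neg_neg] at h1
    show q8u a (-b) (-c) (-d) * (q8u a b c d * x) = x
    rw [← mul_assoc, h1, one_mul]
  right_inv x := by
    show q8u a b c d * (q8u a (-b) (-c) (-d) * x) = x
    rw [← mul_assoc, q8_star a b c d h, one_mul]
  norm_map' x := by
    show ‖q8u a b c d * x‖ = ‖x‖
    rw [norm_mul, q8_norm a b c d h, one_mul]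

/-- the quaternion group -/
private noncomputable def q8G : Subgroup (Quaternion ℝ ≃ₗᵢ[ℝ] Quaternion ℝ) where
  carrier := {γ | ∃ a b c d : ℤ, a ^ 2 + b ^ 2 + c ^ 2 + d ^ 2 = 1 ∧ ∀ x, γ x = q8u a b c d * x}
  mul_mem' := by
    rintro γ γ' ⟨a, b, c, d, h, hγ⟩ ⟨a', b', c', d', h', hγ'⟩
    refine ⟨a * a' - b * b' - c * c' - d * d', a * b' + b * a' + c * d' - d * c',
      a * c' - b * d' + c * a' + d * b', a * d' + b * c' - c * b' + d * a', ?_, fun x => ?_⟩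
    · calc _ = (a ^ 2 + b ^ 2 + c ^ 2 + d ^ 2) * (a' ^ 2 + b' ^ 2 + c' ^ 2 + d' ^ 2) := by ring
        _ = 1 := by rw [h, h', one_mul]
    · show γ (γ' x) = _
      rw [hγ', hγ, ← mul_assoc, q8_mul]
  one_mem' := ⟨1, 0, 0, 0, by norm_num, fun x => by
    rw [q8_one, one_mul]; rfl⟩
  inv_mem' := by
    rintro γ ⟨a, b, c, d, h, hγ⟩
    refine ⟨a, -b, -c, -d, by linarith, fun x => ?_⟩
    have h1 : γ (q8u a (-b) (-c) (-d) * x) = x := by
      rw [hγ, ← mul_assoc, q8_star a b c d h, one_mul]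
    have h2 : γ⁻¹ (γ (q8u a (-b) (-c) (-d) * x)) = q8u a (-b) (-c) (-d) * x := γ.symm_apply_apply _
    rw [h1] at h2
    exact h2

private theorem q8G_finite : Finite q8G := by
  have hfin : (q8G : Set (Quaternion ℝ ≃ₗᵢ[ℝ] Quaternion ℝ)).Finite := by
    refine Set.Finite.of_injOn (f := fun γ => γ 1)
      (t := (fun t : ℤ × ℤ × ℤ × ℤ => q8u t.1 t.2.1 t.2.2.1 t.2.2.2) ''
        (Set.Icc (-1) 1 ×ˢ (Set.Icc (-1) 1 ×ˢ (Set.Icc (-1) 1 ×ˢ Set.Icc (-1) 1)))) ?_ ?_ ?_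
    · rintro γ ⟨a, b, c, d, h, hγ⟩
      refine ⟨(a, b, c, d), ?_, ?_⟩
      · simp only [Set.mem_prod, Set.mem_Icc]
        refine ⟨⟨?_, ?_⟩, ⟨?_, ?_⟩, ⟨?_, ?_⟩, ?_, ?_⟩ <;> nlinarith [sq_nonneg a, sq_nonneg b, sq_nonneg c, sq_nonneg d]
      · show q8u a b c d = γ 1
        rw [hγ, mul_one]
    · rintro γ ⟨a, b, c, d, h, hγ⟩ γ' ⟨a', b', c', d', h', hγ'⟩ he
      have h1 : q8u a b c d = q8u a' b' c' d' := by
        have : γ 1 = γ' 1 := he
        rwa [hγ, hγ', mul_one, mul_one] at this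
      ext1 x
      rw [hγ, hγ', h1]
    · exact Set.Finite.image _ ((Set.finite_Icc _ _).prod ((Set.finite_Icc _ _).prod ((Set.finite_Icc _ _).prod (Set.finite_Icc _ _))))
  exact hfin.to_subtype

private theorem q8G_free : ActsFreely q8G := by
  rintro γ ⟨a, b, c, d, h, hγ⟩ hne x hx
  by_contra hx0
  rw [hγ] at hx
  have h1 : q8u a b c d = 1 := by
    have : q8u a b c d * x = 1 * x := by rw [hx, one_mul]
    exact mul_right_cancel₀ hx0 this
  apply hne
  ext1 y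
  rw [hγ, h1, one_mul]
  rfl

private theorem q8G_irred : Irred q8G := by
  intro W hW
  by_cases hb : W = ⊥
  · exact Or.inl hb
  · right
    obtain ⟨w, hw, hw0⟩ := W.ne_bot_iff.1 hb
    have key : ∀ q : Quaternion ℝ, q * w ∈ W := by
      intro q
      have hq : q = q.re • q8u 1 0 0 0 + q.imI • q8u 0 1 0 0 + q.imJ • q8u 0 0 1 0 + q.imK • q8u 0 0 0 1 := by
        ext <;> simp [q8u]
      have hm : ∀ a b c d : ℤ, a ^ 2 + b ^ 2 + c ^ 2 + d ^ 2 = 1 → q8u a b c d * w ∈ W := by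
        intro a b c d h
        exact hW (q8L a b c d h) ⟨a, b, c, d, h, fun x => rfl⟩ w hw
      rw [hq, add_mul, add_mul, add_mul, smul_mul_assoc, smul_mul_assoc, smul_mul_assoc, smul_mul_assoc]
      exact W.add_mem (W.add_mem (W.add_mem (W.smul_mem _ (hm 1 0 0 0 (by norm_num))) (W.smul_mem _ (hm 0 1 0 0 (by norm_num))))
        (W.smul_mem _ (hm 0 0 1 0 (by norm_num)))) (W.smul_mem _ (hm 0 0 0 1 (by norm_num)))
    rw [eq_top_iff]
    intro y _
    have h1 := key (y * w⁻¹)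
    rwa [mul_assoc, inv_mul_cancel₀ hw0, mul_one] at h1

/-- the far point -/
private noncomputable def q8q : Quaternion ℝ := ⟨1 / 2, 1 / 2, 1 / 2, 1 / 2⟩

private theorem q8q_norm : ‖q8q‖ = 1 := by
  have h1 := Quaternion.normSq_eq_norm_mul_self q8q
  rw [Quaternion.normSq_def'] at h1
  have h0 : (1 / 2 : ℝ) ^ 2 + (1 / 2) ^ 2 + (1 / 2) ^ 2 + (1 / 2) ^ 2 = 1 := by norm_num
  have h3 : (1 : ℝ) = ‖q8q‖ * ‖q8q‖ := by
    rw [← h0]; exact h1
  have h2 : 0 ≤ ‖q8q‖ := norm_nonneg _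
  nlinarith

/-- the same group as left multiplications on the quaternions -/
private theorem exists_q8_quat_aux : ∃ Γ : Subgroup (Quaternion ℝ ≃ₗᵢ[ℝ] Quaternion ℝ),
    Finite Γ ∧ ActsFreely Γ ∧ Irred Γ ∧ (∀ γ ∈ Γ, ∃ u : Quaternion ℝ, ‖u‖ = 1 ∧ ∀ x, γ x = u * x) ∧
    ∃ p q : Quaternion ℝ, ‖p‖ = 1 ∧ ‖q‖ = 1 ∧ ∀ γ ∈ Γ, ⟪γ p, q⟫ ≤ 1 / 2 := by
  refine ⟨q8G, q8G_finite, q8G_free, q8G_irred, ?_, 1, q8q, norm_one, ?_, ?_⟩
  · rintro γ ⟨a, b, c, d, h, hγ⟩
    exact ⟨_, q8_norm a b c d h, hγ⟩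
  · exact q8q_norm
  · rintro γ ⟨a, b, c, d, h, hγ⟩
    rw [hγ, mul_one, Quaternion.inner_def]
    have hab : ((a + b + c + d : ℤ) : ℝ) ≤ 1 := by
      have : a + b + c + d ≤ 1 := by
        nlinarith [sq_nonneg a, sq_nonneg b, sq_nonneg c, sq_nonneg d, Int.le_self_sq a, Int.le_self_sq b, Int.le_self_sq c, Int.le_self_sq d]
      exact_mod_cast this
    push_cast at hab
    simp [q8u, q8q]
    linarith

theorem exists_q8 : ∃ Γ : Subgroup (EuclideanSpace ℝ (Fin 4) ≃ₗᵢ[ℝ] EuclideanSpace ℝ (Fin 4)),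
    Finite Γ ∧ ActsFreely Γ ∧ Irred Γ ∧
    ∃ p q : EuclideanSpace ℝ (Fin 4), ‖p‖ = 1 ∧ ‖q‖ = 1 ∧ ∀ γ ∈ Γ, ⟪γ p, q⟫ ≤ 1 / 2 := by
  obtain ⟨Γ, hfin, hfree, hirr, -, p, q, hp, hq, hpq⟩ := exists_q8_quat_aux
  set e : Quaternion ℝ ≃ₗᵢ[ℝ] EuclideanSpace ℝ (Fin 4) := Quaternion.linearIsometryEquivTuple with he
  let φ : (EuclideanSpace ℝ (Fin 4) ≃ₗᵢ[ℝ] EuclideanSpace ℝ (Fin 4)) →* (Quaternion ℝ ≃ₗᵢ[ℝ] Quaternion ℝ) :=
    { toFun := fun γ => e.trans (γ.trans e.symm)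
      map_one' := by
        ext1 x
        show e.symm ((1 : EuclideanSpace ℝ (Fin 4) ≃ₗᵢ[ℝ] EuclideanSpace ℝ (Fin 4)) (e x)) = x
        exact e.symm_apply_apply x
      map_mul' := by
        intro γ γ'
        ext1 x
        show e.symm (γ (γ' (e x))) = e.symm (γ (e (e.symm (γ' (e x)))))
        rw [e.apply_symm_apply] }
  have hφ : ∀ γ x, φ γ x = e.symm (γ (e x)) := fun γ x => rfl
  have hinj : Function.Injective φ := by
    intro γ γ' h
    ext1 x
    have h1 : φ γ (e.symm x) = φ γ' (e.symm x) := by rw [h]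
    rw [hφ, hφ, e.apply_symm_apply] at h1
    exact e.symm.injective h1
  refine ⟨Γ.comap φ, ?_, ?_, ?_, e p, e q, ?_, ?_, ?_⟩
  · have := hfin
    exact Finite.of_injective (fun γ : Γ.comap φ => (⟨φ γ.1, γ.2⟩ : Γ)) (fun γ γ' h => by
      have h1 : φ γ.1 = φ γ'.1 := congrArg Subtype.val h
      exact Subtype.ext (hinj h1))
  · intro γ hγ hne x hx
    have h1 := hfree (φ γ) hγ (fun h => hne (hinj (by rw [h, map_one]))) (e.symm x) (by
      rw [hφ, e.apply_symm_apply, hx])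
    have h2 : e (e.symm x) = 0 := by rw [h1, map_zero]
    rwa [e.apply_symm_apply] at h2
  · intro W hW
    have hW' : ∀ γ ∈ Γ, ∀ w ∈ W.comap (e.toLinearEquiv : Quaternion ℝ →ₗ[ℝ] EuclideanSpace ℝ (Fin 4)),
        γ w ∈ W.comap (e.toLinearEquiv : Quaternion ℝ →ₗ[ℝ] EuclideanSpace ℝ (Fin 4)) := by
      intro γ hγ w hw
      have hmem : (e.symm.trans (γ.trans e)) ∈ Γ.comap φ := by
        rw [Subgroup.mem_comap]
        have : φ (e.symm.trans (γ.trans e)) = γ := by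
          ext1 x
          rw [hφ]
          show e.symm (e (γ (e.symm (e x)))) = γ x
          rw [e.symm_apply_apply, e.symm_apply_apply]
        rw [this]
        exact hγ
      have h1 := hW _ hmem (e w) hw
      have h2 : (e.symm.trans (γ.trans e)) (e w) = e (γ w) := by
        show e (γ (e.symm (e w))) = e (γ w)
        rw [e.symm_apply_apply]
      rw [h2] at h1
      exact h1
    rcases hirr _ hW' with h | h
    · left
      rw [eq_bot_iff]
      intro x hx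
      have h1 : e.symm x ∈ W.comap (e.toLinearEquiv : Quaternion ℝ →ₗ[ℝ] EuclideanSpace ℝ (Fin 4)) := by
        show e (e.symm x) ∈ W
        rwa [e.apply_symm_apply]
      rw [h, Submodule.mem_bot] at h1
      rw [Submodule.mem_bot, ← e.apply_symm_apply x, h1, map_zero]
    · right
      rw [eq_top_iff]
      intro x _
      have h1 : e.symm x ∈ W.comap (e.toLinearEquiv : Quaternion ℝ →ₗ[ℝ] EuclideanSpace ℝ (Fin 4)) := by
        rw [h]; exact Submodule.mem_top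
      have h2 : e (e.symm x) ∈ W := h1
      rwa [e.apply_symm_apply] at h2
  · rw [e.norm_map, hp]
  · rw [e.norm_map, hq]
  · intro γ hγ
    have h1 := hpq (φ γ) hγ
    rw [hφ] at h1
    have h2 : ⟪e (e.symm (γ (e p))), e q⟫ = ⟪e.symm (γ (e p)), q⟫ := e.inner_map_map _ _
    rw [e.apply_symm_apply] at h2
    rw [h2]
    exact h1

/-- the same group as left multiplications on the quaternions -/
theorem exists_q8_quat : ∃ Γ : Subgroup (Quaternion ℝ ≃ₗᵢ[ℝ] Quaternion ℝ),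
    Finite Γ ∧ ActsFreely Γ ∧ Irred Γ ∧ (∀ γ ∈ Γ, ∃ u : Quaternion ℝ, ‖u‖ = 1 ∧ ∀ x, γ x = u * x) ∧
    ∃ p q : Quaternion ℝ, ‖p‖ = 1 ∧ ‖q‖ = 1 ∧ ∀ γ ∈ Γ, ⟪γ p, q⟫ ≤ 1 / 2 :=
  exists_q8_quat_aux

end Pool.Agent.DGP
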