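import Pool.Agent.DGP.Defs

/-!
Module Roll (size 4).  Blaschke's rolling theorem for the barrier condition `CurvGeOne`: for a convex
body `K` in dimension `≥ 2` and a support point `x` with outward unit normal `u`, `K` is contained in
the unit ball with centre `x - u`.

Proof.  Fix `R > 1`.  Let `h v = sup_{y ∈ K} ⟪v, y⟫` (attained, continuous) and `φ v = R ‖v‖ - h v`.
(1) Let `v₀ ≠ 0`, `u₀ = v₀/‖v₀‖`, `x₀ ∈ K` a maximiser of `⟪v₀, ·⟫` on `K`; `x₀ ∈ frontier K`.  By
`CurvGeOne` near `x₀` the set `K` lies in the ball `B₀` of radius `R` and centre `x₀ - R u₀`.  The maximiser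
is unique: if `x₁ ≠ x₀` is another one, then the points `x₀ + t (x₁ - x₀)`, small `t > 0`, are in `K`, in the
hyperplane `⟪u₀, · - x₀⟫ = 0`, and have distance `> R` from `x₀ - R u₀`.  So by compactness
all maximisers of `⟪v, ·⟫` are near `x₀` when `v` is near `v₀`, and so
`h v ≤ sup_{B₀} ⟪v, ·⟫ = ⟪v, x₀ - R u₀⟫ + R ‖v‖` for `v` near `v₀`, i.e. `φ v ≥ ⟪R u₀ - x₀, v⟫` near `v₀`,
with equality at `v = v₀`.
(2) One-variable lemma: a continuous function `f` on `[0,1]` such that every `t ∈ [0,1]` has a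
local affine support (there is `s` with `f τ ≥ f t + s (τ - t)` for `τ ∈ [0,1]` near `t`) is convex;
in particular a local support line at `t = 0` is global on `[0,1]`.  (If `g = f - ` the line at `0`
were negative somewhere, or f - chord positive somewhere, look at the first point where the maximum of
f - chord is attained.)
(3) Let `v` be not a nonpositive multiple of `v₀`.  Then the segment `[v₀, v]` avoids `0`, apply (2) to
`f t = φ (v₀ + t (v - v₀))`: `φ v ≥ φ v₀ + ⟪R u₀ - x₀, v - v₀⟫ = ⟪R u₀ - x₀, v⟫`.  By continuity and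
`dim E ≥ 2` this holds for all `v`: `h v ≤ ⟪v, x₀ - R u₀⟫ + R ‖v‖`.
(4) So for `y ∈ K` and `v = y - (x₀ - R u₀)`: `‖v‖² ≤ R ‖v‖`, i.e. `y` is in the ball of radius `R`
with centre `x₀ - R u₀`.  Let `R → 1`.
-/

set_option autoImplicit false

open scoped RealInnerProductSpace Topology

namespace Pool.Agent.DGP

variable {E : Type*} [NormedAddCommGroup E] [InnerProductSpace ℝ E]

private lemma roll_frontier {K : Set E} {x u : E} (hx : x ∈ K) (hu : ‖u‖ = 1)
    (h : ∀ y ∈ K, ⟪u, y - x⟫ ≤ 0) : x ∈ frontier K := by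
  refine ⟨subset_closure hx, fun hint => ?_⟩
  obtain ⟨ε, hε, hball⟩ := Metric.mem_nhds_iff.1 (mem_interior_iff_mem_nhds.1 hint)
  have h1 : x + (ε / 2) • u ∈ K := by
    apply hball
    rw [Metric.mem_ball, dist_eq_norm, add_sub_cancel_left, norm_smul, hu, mul_one,
      Real.norm_of_nonneg (by positivity)]
    linarith
  have h2 := h _ h1
  rw [add_sub_cancel_left, inner_smul_right, real_inner_self_eq_norm_sq, hu] at h2
  nlinarith

private lemma roll_local {K : Set E} (hK : Convex ℝ K) (hcurv : CurvGeOne K) {R : ℝ} (hR : 1 < R)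
    {v₀ x₀ : E} (hv₀ : v₀ ≠ 0) (hx₀ : x₀ ∈ K) (hmax : ∀ y ∈ K, ⟪v₀, y⟫ ≤ ⟪v₀, x₀⟫) :
    ∃ η > 0, ∀ v y : E, ‖v - v₀‖ < η → y ∈ K → ⟪v, x₀⟫ ≤ ⟪v, y⟫ →
      ⟪v, y⟫ ≤ ⟪v, x₀ - R • (‖v₀‖⁻¹ • v₀)⟫ + R * ‖v‖ := by
  have hn : 0 < ‖v₀‖ := norm_pos_iff.2 hv₀
  set u₀ : E := ‖v₀‖⁻¹ • v₀ with hu₀
  have hu1 : ‖u₀‖ = 1 := by
    rw [hu₀, norm_smul, norm_inv, norm_norm, inv_mul_cancel₀ hn.ne']
  have hvu : v₀ = ‖v₀‖ • u₀ := by
    rw [hu₀, smul_smul, mul_inv_cancel₀ hn.ne', one_smul]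
  have hnorm : ∀ y ∈ K, ⟪u₀, y - x₀⟫ ≤ 0 := by
    intro y hy
    rw [hu₀, inner_smul_left, inner_sub_right]
    have := hmax y hy
    have h2 : 0 < ‖v₀‖⁻¹ := inv_pos.2 hn
    simp only [conj_trivial]
    nlinarith
  have hfr : x₀ ∈ frontier K := roll_frontier hx₀ hu1 hnorm
  have hc := hcurv x₀ hfr u₀ hu1 hnorm R hR
  rw [Metric.nhdsWithin_basis_ball.eventually_iff] at hc
  obtain ⟨ε, hε, hball⟩ := hc
  have hR0 : 0 < R := by linarith
  refine ⟨‖v₀‖ * (ε / 2) / (4 * R), by positivity, ?_⟩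
  intro v y hv hy hvy
  have hclose : ‖y - x₀‖ < ε / 2 := by
    by_contra hfar
    push Not at hfar
    set w : E := y - x₀ with hw
    have hw0 : 0 < ‖w‖ := by linarith
    set t : ℝ := (ε / 2) / ‖w‖ with ht
    have ht0 : 0 < t := by positivity
    have ht1 : t ≤ 1 := by rw [ht, div_le_one hw0]; exact hfar
    have htw : t * ‖w‖ = ε / 2 := by rw [ht, div_mul_cancel₀ _ hw0.ne']
    have hy' : x₀ + t • w ∈ K := hK.add_smul_sub_mem hx₀ hy ⟨ht0.le, ht1⟩
    have hd : dist (x₀ + t • w) x₀ < ε := by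
      rw [dist_eq_norm, add_sub_cancel_left, norm_smul, Real.norm_of_nonneg ht0.le, htw]
      linarith
    have h1 := hball ⟨hd, hy'⟩
    rw [dist_eq_norm] at h1
    have e1 : x₀ + t • w - (x₀ - R • u₀) = t • w + R • u₀ := by abel
    rw [e1] at h1
    have h2 : ‖t • w + R • u₀‖ ^ 2 ≤ R ^ 2 := by
      have := norm_nonneg (t • w + R • u₀)
      nlinarith
    rw [norm_add_sq_real, norm_smul, norm_smul, hu1, inner_smul_left, inner_smul_right,
      Real.norm_of_nonneg ht0.le, Real.norm_of_nonneg hR0.le, htw] at h2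
    simp only [conj_trivial] at h2
    -- (ε/2)^2 + 2 t R ⟪w,u₀⟫ ≤ 0
    have h3 : ⟪w, u₀⟫ * (2 * R) ≤ - (ε / 2) * ‖w‖ := by
      have h4 : t * (⟪w, u₀⟫ * (2 * R)) ≤ t * (- (ε / 2) * ‖w‖) := by
        have : t * (- (ε / 2) * ‖w‖) = - (ε / 2) ^ 2 := by
          calc t * (- (ε / 2) * ‖w‖) = - (ε / 2) * (t * ‖w‖) := by ring
            _ = - (ε / 2) ^ 2 := by rw [htw]; ring
        rw [this]
        nlinarith
      exact le_of_mul_le_mul_left h4 ht0
    have h5 : ⟪v, w⟫ = ‖v₀‖ * ⟪w, u₀⟫ + ⟪v - v₀, w⟫ := by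
      have h51 : ⟪v - v₀, w⟫ = ⟪v, w⟫ - ⟪v₀, w⟫ := inner_sub_left _ _ _
      have : ⟪v₀, w⟫ = ‖v₀‖ * ⟪w, u₀⟫ := by
        conv_lhs => rw [hvu]
        rw [inner_smul_left, real_inner_comm]
        simp
      rw [h51, this]
      ring
    have h6 : ⟪v - v₀, w⟫ ≤ ‖v - v₀‖ * ‖w‖ := real_inner_le_norm _ _
    have h7 : 0 ≤ ⟪v, w⟫ := by
      rw [hw, inner_sub_right]
      linarith
    have h8 : ‖v - v₀‖ * ‖w‖ < ‖v₀‖ * (ε / 2) / (4 * R) * ‖w‖ := mul_lt_mul_of_pos_right hv hw0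
    have h9 : ‖v₀‖ * ⟪w, u₀⟫ ≤ - (‖v₀‖ * (ε / 2) / (2 * R) * ‖w‖) := by
      have h10 : ⟪w, u₀⟫ ≤ - ((ε / 2) / (2 * R) * ‖w‖) := by
        have : - ((ε / 2) / (2 * R) * ‖w‖) = (- (ε / 2) * ‖w‖) / (2 * R) := by ring
        rw [this, le_div_iff₀ (by positivity)]
        exact h3
      have := mul_le_mul_of_nonneg_left h10 hn.le
      calc ‖v₀‖ * ⟪w, u₀⟫ ≤ ‖v₀‖ * - ((ε / 2) / (2 * R) * ‖w‖) := this
        _ = - (‖v₀‖ * (ε / 2) / (2 * R) * ‖w‖) := by ring
    have h11 : ‖v₀‖ * (ε / 2) / (4 * R) * ‖w‖ = (‖v₀‖ * (ε / 2) / (2 * R) * ‖w‖) / 2 := by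
      field_simp
      ring
    have h12 : 0 < ‖v₀‖ * (ε / 2) / (2 * R) * ‖w‖ := by positivity
    linarith
  have hd : dist y x₀ < ε := by
    rw [dist_eq_norm]
    linarith
  have h1 := hball ⟨hd, hy⟩
  rw [dist_eq_norm] at h1
  have h2 : ⟪v, y - (x₀ - R • u₀)⟫ ≤ ‖v‖ * ‖y - (x₀ - R • u₀)‖ := real_inner_le_norm _ _
  rw [inner_sub_right] at h2
  have h3 : ‖v‖ * ‖y - (x₀ - R • u₀)‖ ≤ ‖v‖ * R := mul_le_mul_of_nonneg_left h1 (norm_nonneg v)
  linarith

private lemma roll_line {f : ℝ → ℝ} (hf : ContinuousOn f (Set.Icc 0 1))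
    (hloc : ∀ t ∈ Set.Ioo (0 : ℝ) 1, ∃ s : ℝ, ∃ ε > 0, ∀ τ ∈ Set.Icc (0 : ℝ) 1, |τ - t| < ε →
      f t + s * (τ - t) ≤ f τ) {s₀ : ℝ}
    (h0 : ∃ ε > 0, ∀ τ ∈ Set.Icc (0 : ℝ) 1, τ < ε → f 0 + s₀ * τ ≤ f τ) : f 0 + s₀ ≤ f 1 := by
  by_contra hcon
  push Not at hcon
  set d : ℝ := f 1 - f 0 with hd
  set G : ℝ → ℝ := fun τ => f τ - f 0 - τ * d with hG
  have hGc : ContinuousOn G (Set.Icc 0 1) := by
    apply ContinuousOn.sub (hf.sub continuousOn_const)
    exact (continuous_id.mul continuous_const).continuousOn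
  have hG0 : G 0 = 0 := by simp [hG]
  have hG1 : G 1 = 0 := by simp [hG, hd]
  obtain ⟨tm, htm, hmax⟩ := isCompact_Icc.exists_isMaxOn ⟨0, by simp⟩ hGc
  set M : ℝ := G tm with hM
  have hle : ∀ τ ∈ Set.Icc (0 : ℝ) 1, G τ ≤ M := fun τ hτ => hmax hτ
  have hMpos : 0 < M := by
    obtain ⟨ε, hε, h⟩ := h0
    set τ : ℝ := min (ε / 2) 1 with hτ
    have hτ0 : 0 < τ := lt_min (by linarith) one_pos
    have hτ1 : τ ≤ 1 := min_le_right _ _
    have hτε : τ < ε := lt_of_le_of_lt (min_le_left _ _) (by linarith)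
    have h1 := h τ ⟨hτ0.le, hτ1⟩ hτε
    have h2 := hle τ ⟨hτ0.le, hτ1⟩
    have h3 : 0 < G τ := by
      simp only [hG]
      have : 0 < s₀ - d := by rw [hd]; linarith
      nlinarith
    linarith
  -- the least maximiser
  have hScomp : IsCompact (Set.Icc (0 : ℝ) 1 ∩ G ⁻¹' {M}) :=
    isCompact_Icc.of_isClosed_subset
      (hGc.preimage_isClosed_of_isClosed isClosed_Icc isClosed_singleton) Set.inter_subset_left
  obtain ⟨t, ht, hleast⟩ := hScomp.exists_isLeast ⟨tm, htm, rfl⟩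
  have htI : t ∈ Set.Icc (0 : ℝ) 1 := ht.1
  have hGt : G t = M := ht.2
  have ht0 : 0 < t := by
    rcases htI.1.eq_or_lt with h | h
    · rw [← h, hG0] at hGt
      linarith
    · exact h
  have ht1 : t < 1 := by
    rcases htI.2.eq_or_lt with h | h
    · rw [h, hG1] at hGt
      linarith
    · exact h
  obtain ⟨s, ε, hε, hs⟩ := hloc t ⟨ht0, ht1⟩
  -- G τ ≥ M + (s - d) (τ - t)
  have hs' : ∀ τ ∈ Set.Icc (0 : ℝ) 1, |τ - t| < ε → M + (s - d) * (τ - t) ≤ G τ := by
    intro τ hτ hτt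
    have h1 := hs τ hτ hτt
    have h2 : M = f t - f 0 - t * d := hGt.symm
    simp only [hG]
    rw [h2]
    linarith
  set ρ : ℝ := min (ε / 2) (min t (1 - t)) with hρ
  have hρ0 : 0 < ρ := lt_min (by linarith) (lt_min ht0 (by linarith))
  have hρε : ρ < ε := lt_of_le_of_lt (min_le_left _ _) (by linarith)
  have hρt : ρ ≤ t := (min_le_right _ _).trans (min_le_left _ _)
  have hρt' : ρ ≤ 1 - t := (min_le_right _ _).trans (min_le_right _ _)
  have hA := hs' (t + ρ) ⟨by linarith, by linarith⟩ (by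
    rw [add_sub_cancel_left, abs_of_pos hρ0]; exact hρε)
  have hB := hs' (t - ρ) ⟨by linarith, by linarith⟩ (by
    rw [sub_sub_cancel_left, abs_neg, abs_of_pos hρ0]; exact hρε)
  have hA' := hle (t + ρ) ⟨by linarith, by linarith⟩
  have hB' := hle (t - ρ) ⟨by linarith, by linarith⟩
  rw [add_sub_cancel_left] at hA
  rw [sub_sub_cancel_left] at hB
  have hs1 : (s - d) * ρ ≤ 0 := by linarith
  have hs2 : 0 ≤ (s - d) * ρ := by linarith
  have hGB : G (t - ρ) = M := by linarith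
  have := hleast ⟨⟨by linarith, by linarith⟩, hGB⟩
  linarith

theorem blaschke [FiniteDimensional ℝ E] (hdim : 2 ≤ Module.finrank ℝ E) {K : Set E}
    (hK : Convex ℝ K) (hc : IsCompact K) (hcurv : CurvGeOne K) {x u : E} (hx : x ∈ K)
    (hu : ‖u‖ = 1) (hxu : ∀ y ∈ K, ⟪u, y - x⟫ ≤ 0) : K ⊆ Metric.closedBall (x - u) 1 := by
  have hu0 : u ≠ 0 := by
    rintro rfl
    simp at hu
  -- support function
  have hX : ∀ v : E, ∃ z ∈ K, ∀ y ∈ K, ⟪v, y⟫ ≤ ⟪v, z⟫ := by
    intro v
    obtain ⟨z, hz, hmax⟩ := hc.exists_isMaxOn ⟨x, hx⟩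
      (f := fun y => ⟪v, y⟫) (by fun_prop)
    exact ⟨z, hz, fun y hy => hmax hy⟩
  choose X hXK hXmax using hX
  set h : E → ℝ := fun v => ⟪v, X v⟫ with hh
  obtain ⟨C, hC⟩ := hc.isBounded.exists_norm_le
  have hC0 : 0 ≤ C := (norm_nonneg x).trans (hC x hx)
  have hLip : ∀ v w : E, h v - h w ≤ C * ‖v - w‖ := by
    intro v w
    have h1 : ⟪w, X v⟫ ≤ h w := hXmax w _ (hXK v)
    have h2 : h v - ⟪w, X v⟫ = ⟪v - w, X v⟫ := by rw [inner_sub_left]
    have h3 : ⟪v - w, X v⟫ ≤ ‖v - w‖ * ‖X v‖ := real_inner_le_norm _ _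
    have h4 : ‖v - w‖ * ‖X v‖ ≤ ‖v - w‖ * C :=
      mul_le_mul_of_nonneg_left (hC _ (hXK v)) (norm_nonneg _)
    linarith
  have hcont : Continuous h := by
    apply LipschitzWith.continuous (K := C.toNNReal)
    apply LipschitzWith.of_dist_le_mul
    intro v w
    rw [Real.dist_eq, abs_le, dist_eq_norm, Real.coe_toNNReal C hC0]
    constructor
    · have := hLip w v
      rw [norm_sub_rev] at this
      linarith
    · exact hLip v w
  have hmaxu : ∀ y ∈ K, ⟪u, y⟫ ≤ ⟪u, x⟫ := by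
    intro y hy
    have := hxu y hy
    rw [inner_sub_right] at this
    linarith
  have hhu : h u = ⟪u, x⟫ := le_antisymm (hmaxu _ (hXK u)) (hXmax u x hx)
  -- the ball of radius R
  have key : ∀ R : ℝ, 1 < R → ∀ y ∈ K, ‖y - (x - R • u)‖ ≤ R := by
    intro R hR
    have hR0 : 0 < R := by linarith
    have hstar : ∀ v : E, (∀ t ∈ Set.Icc (0 : ℝ) 1, u + t • (v - u) ≠ 0) →
        h v ≤ ⟪v, x - R • u⟫ + R * ‖v‖ := by
      intro v hv
      set w : ℝ → E := fun t => u + t • (v - u) with hw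
      have hwc : Continuous w := by fun_prop
      set f : ℝ → ℝ := fun t => R * ‖w t‖ - h (w t) with hf
      have hfc : Continuous f := by
        apply Continuous.sub
        · exact continuous_const.mul hwc.norm
        · exact hcont.comp hwc
      have hw0 : w 0 = u := by simp [hw]
      have hw1 : w 1 = v := by simp [hw]
      have hwsub : ∀ τ t : ℝ, w τ - w t = (τ - t) • (v - u) := by
        intro τ t
        simp only [hw]
        rw [add_sub_add_left_eq_sub, ← sub_smul]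
      -- general local support
      have hsup : ∀ (t : ℝ) (x₀ : E), w t ≠ 0 → x₀ ∈ K → (∀ y ∈ K, ⟪w t, y⟫ ≤ ⟪w t, x₀⟫) →
          ∃ ε > 0, ∀ τ : ℝ, |τ - t| < ε →
            f t + ⟪R • (‖w t‖⁻¹ • w t) - x₀, v - u⟫ * (τ - t) ≤ f τ := by
        intro t x₀ hwt hx₀ hmax
        obtain ⟨η, hη, hloc⟩ := roll_local hK hcurv hR hwt hx₀ hmax
        refine ⟨η / (‖v - u‖ + 1), by positivity, ?_⟩
        intro τ hτ
        have hdist : ‖w τ - w t‖ < η := by
          rw [hwsub, norm_smul, Real.norm_eq_abs]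
          have h1 : |τ - t| * ‖v - u‖ ≤ |τ - t| * (‖v - u‖ + 1) :=
            mul_le_mul_of_nonneg_left (by linarith) (abs_nonneg _)
          have h2 : |τ - t| * (‖v - u‖ + 1) < η := by
            rwa [lt_div_iff₀ (by positivity)] at hτ
          linarith
        have h1 := hloc (w τ) (X (w τ)) hdist (hXK _) (hXmax _ _ hx₀)
        have h2 : h (w t) = ⟪w t, x₀⟫ := le_antisymm (hmax _ (hXK _)) (hXmax _ _ hx₀)
        have h3 : ⟪R • (‖w t‖⁻¹ • w t) - x₀, v - u⟫ * (τ - t) =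
            ⟪R • (‖w t‖⁻¹ • w t) - x₀, w τ - w t⟫ := by
          rw [hwsub, inner_smul_right]
          ring
        have h4 : ⟪R • (‖w t‖⁻¹ • w t), w t⟫ = R * ‖w t‖ := by
          rw [inner_smul_left, inner_smul_left, real_inner_self_eq_norm_sq]
          simp only [conj_trivial]
          have : ‖w t‖ ≠ 0 := norm_ne_zero_iff.2 hwt
          field_simp
        have h5 : f t = ⟪R • (‖w t‖⁻¹ • w t) - x₀, w t⟫ := by
          rw [inner_sub_left, h4, real_inner_comm, ← h2]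
        rw [h3, h5, ← inner_add_right, add_sub_cancel]
        change _ ≤ R * ‖w τ‖ - h (w τ)
        rw [inner_sub_right] at h1
        rw [inner_sub_left, real_inner_comm (w τ), real_inner_comm (w τ)]
        change h (w τ) ≤ _ at h1
        linarith
      have hline := roll_line (f := f) hfc.continuousOn (by
          intro t ht
          obtain ⟨ε, hε, h1⟩ := hsup t (X (w t)) (hv t ⟨ht.1.le, ht.2.le⟩) (hXK _) (hXmax _)
          exact ⟨_, ε, hε, fun τ _ hτ => h1 τ hτ⟩)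
        (s₀ := ⟪R • u - x, v - u⟫) (by
          obtain ⟨ε, hε, h1⟩ := hsup 0 x (hv 0 (by simp)) hx (by rw [hw0]; exact hmaxu)
          refine ⟨ε, hε, fun τ hτ hτε => ?_⟩
          have h2 := h1 τ (by rw [sub_zero, abs_of_nonneg hτ.1]; exact hτε)
          rw [hw0, hu, inv_one, one_smul, sub_zero] at h2
          exact h2)
      have e0 : f 0 = R - ⟪u, x⟫ := by
        simp only [hf, hw0, hu, hhu, mul_one]
      have e1 : f 1 = R * ‖v‖ - h v := by
        simp only [hf, hw1]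
      rw [e0, e1] at hline
      have e2 : ⟪R • u - x, v - u⟫ = R * ⟪v, u⟫ - ⟪v, x⟫ - R + ⟪u, x⟫ := by
        rw [inner_sub_left, inner_sub_right, inner_sub_right, inner_smul_left, inner_smul_left,
          real_inner_self_eq_norm_sq, hu, real_inner_comm v u, real_inner_comm v x,
          real_inner_comm u x]
        simp only [conj_trivial]
        ring
      rw [e2] at hline
      rw [inner_sub_right, inner_smul_right]
      linarith
    intro y hy
    set z : E := y - (x - R • u) with hz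
    by_cases hzz : ∃ c : ℝ, z = c • u
    · -- perturb
      obtain ⟨c, hcz⟩ := hzz
      -- a unit vector orthogonal to u
      obtain ⟨e, he, he1⟩ : ∃ e : E, ⟪u, e⟫ = 0 ∧ ‖e‖ = 1 := by
        have h1 : Module.finrank ℝ (ℝ ∙ u)ᗮ = Module.finrank ℝ E - 1 := by
          have h2 := Submodule.finrank_add_finrank_orthogonal (ℝ ∙ u : Submodule ℝ E)
          rw [finrank_span_singleton hu0] at h2
          omega
        have h2 : Nontrivial (ℝ ∙ u)ᗮ := by
          apply Module.nontrivial_of_finrank_pos (R := ℝ)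
          omega
        obtain ⟨e, he⟩ := exists_ne (0 : (ℝ ∙ u)ᗮ)
        have he0 : (e : E) ≠ 0 := fun h => he (Subtype.ext h)
        refine ⟨‖(e : E)‖⁻¹ • (e : E), ?_, ?_⟩
        · rw [inner_smul_right, (Submodule.mem_orthogonal_singleton_iff_inner_right).1 e.2,
            mul_zero]
        · rw [norm_smul, norm_inv, norm_norm, inv_mul_cancel₀ (norm_ne_zero_iff.2 he0)]
      have hze : ⟪z, e⟫ = 0 := by rw [hcz, inner_smul_left, he, mul_zero]
      have hineq : ∀ δ : ℝ, 0 < δ → ‖z‖ ^ 2 ≤ R * (‖z‖ + δ) := by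
        intro δ hδ
        have h1 := hstar (z + δ • e) (by
          intro t ht h0
          have h2 : ⟪u + t • (z + δ • e - u), e⟫ = t * δ := by
            rw [inner_add_left, he, inner_smul_left, inner_sub_left, inner_add_left, hze,
              inner_smul_left, he, real_inner_self_eq_norm_sq, he1]
            simp
          rw [h0, inner_zero_left] at h2
          have ht0 : t = 0 := by
            rcases mul_eq_zero.1 h2.symm with h | h
            · exact h
            · exact absurd h hδ.ne'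
          rw [ht0, zero_smul, add_zero] at h0
          exact hu0 h0)
        have h3 : ⟪z + δ • e, y⟫ ≤ h (z + δ • e) := hXmax _ y hy
        have h4 : ⟪z + δ • e, y⟫ - ⟪z + δ • e, x - R • u⟫ = ‖z‖ ^ 2 := by
          rw [← inner_sub_right, ← hz, inner_add_left, inner_smul_left, real_inner_comm z e, hze,
            real_inner_self_eq_norm_sq]
          simp
        have h5 : ‖z + δ • e‖ ≤ ‖z‖ + δ := by
          refine (norm_add_le _ _).trans ?_
          rw [norm_smul, he1, Real.norm_of_nonneg hδ.le, mul_one]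
        have h6 : R * ‖z + δ • e‖ ≤ R * (‖z‖ + δ) := mul_le_mul_of_nonneg_left h5 hR0.le
        linarith
      have h1 : ‖z‖ ^ 2 ≤ R * ‖z‖ := by
        apply le_of_forall_pos_le_add
        intro δ hδ
        have h2 := hineq (δ / R) (by positivity)
        have h3 : R * (‖z‖ + δ / R) = R * ‖z‖ + δ := by
          field_simp
        linarith
      rcases (norm_nonneg z).eq_or_lt with h0 | h0
      · rw [← h0]; exact hR0.le
      · nlinarith
    · have h1 := hstar z (by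
        intro t ht h0
        rcases eq_or_ne t 0 with h | h
        · rw [h, zero_smul, add_zero] at h0
          exact hu0 h0
        · apply hzz
          refine ⟨1 - t⁻¹, ?_⟩
          have h2 : t • z = (t - 1) • u := by
            have : u + t • (z - u) = t • z - (t - 1) • u := by
              rw [smul_sub, sub_smul, one_smul]
              abel
            rw [this] at h0
            exact sub_eq_zero.1 h0
          have h3 : z = t⁻¹ • (t • z) := by rw [smul_smul, inv_mul_cancel₀ h, one_smul]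
          rw [h3, h2, smul_smul, mul_sub, inv_mul_cancel₀ h, mul_one])
      have h3 : ⟪z, y⟫ ≤ h z := hXmax _ y hy
      have h4 : ⟪z, y⟫ - ⟪z, x - R • u⟫ = ‖z‖ ^ 2 := by
        rw [← inner_sub_right, ← hz, real_inner_self_eq_norm_sq]
      rcases (norm_nonneg z).eq_or_lt with h0 | h0
      · rw [← h0]; exact hR0.le
      · nlinarith
  intro y hy
  rw [Metric.mem_closedBall, dist_eq_norm]
  by_contra hcon
  push Not at hcon
  set ε : ℝ := ‖y - (x - u)‖ - 1 with hε
  have hε0 : 0 < ε := by linarith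
  have h1 := key (1 + ε / 4) (by linarith) y hy
  have h2 : ‖y - (x - u)‖ ≤ ‖y - (x - (1 + ε / 4) • u)‖ + ε / 4 := by
    have e1 : y - (x - u) = (y - (x - (1 + ε / 4) • u)) - (ε / 4) • u := by
      rw [add_smul, one_smul]
      abel
    rw [e1]
    refine (norm_sub_le _ _).trans ?_
    rw [norm_smul, hu, mul_one, Real.norm_of_nonneg (by positivity)]
  linarith

end Pool.Agent.DGP
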