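import Pool.Agent.DGP.Defs

/-!
Module SphLen (size 3).  On the unit sphere a curve from `p` to `q` has length at least the angle:
chords of angle `α` have length `2 sin (α/2) ≥ (1 - η) α` for small `α`; refine the subdivision using uniform
continuity of the curve, and use the triangle inequality for angles
(`InnerProductGeometry.angle_le_angle_add_angle`).  Conversely great circle arcs have length equal to the angle
(not needed here).  Also: the closed unit ball satisfies `CurvGeOne`.
-/

set_option autoImplicit false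

open scoped RealInnerProductSpace Topology

namespace Pool.Agent.DGP

variable {E : Type*} [NormedAddCommGroup E] [InnerProductSpace ℝ E]

/-- chord bound for the angle of two unit vectors -/
private theorem sph_chord {x y : E} (hx : ‖x‖ = 1) (hy : ‖y‖ = 1) {δ : ℝ} (hδ : 0 ≤ δ)
    (hδ1 : δ ≤ 1) (h : ‖x - y‖ ≤ δ) : (1 - δ) * InnerProductGeometry.angle x y ≤ ‖x - y‖ := by
  set α := InnerProductGeometry.angle x y with hα
  have hα0 : 0 ≤ α := InnerProductGeometry.angle_nonneg x y
  have hαπ : α ≤ Real.pi := InnerProductGeometry.angle_le_pi x y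
  have hcos : Real.cos α = ⟪x, y⟫ := by
    rw [hα, InnerProductGeometry.cos_angle, hx, hy]
    simp
  have hsq : ‖x - y‖ ^ 2 = 2 - 2 * Real.cos α := by
    rw [hcos, norm_sub_sq_real, hx, hy]
    ring
  have hhalf : Real.cos α = 1 - 2 * Real.sin (α / 2) ^ 2 := by
    have h1 := Real.cos_sq' (α / 2)
    have h2 := Real.cos_two_mul (α / 2)
    have h3 : 2 * (α / 2) = α := by ring
    rw [h3] at h2
    rw [h2, h1]
    ring
  have hsin0 : 0 ≤ Real.sin (α / 2) :=
    Real.sin_nonneg_of_nonneg_of_le_pi (by linarith) (by linarith)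
  have hd : ‖x - y‖ = 2 * Real.sin (α / 2) := by
    have h1 : ‖x - y‖ ^ 2 = (2 * Real.sin (α / 2)) ^ 2 := by
      rw [hsq, hhalf]; ring
    exact (pow_left_inj₀ (norm_nonneg _) (by positivity) two_ne_zero).1 h1
  have hcos0 : 0 ≤ Real.cos (α / 2) :=
    Real.cos_nonneg_of_neg_pi_div_two_le_of_le (by linarith [Real.pi_pos]) (by linarith)
  have hc2 : 1 - δ ≤ Real.cos (α / 2) := by
    apply (sq_le_sq₀ (by linarith) hcos0).1
    rw [Real.cos_sq']
    have h1 : Real.sin (α / 2) ≤ δ / 2 := by linarith
    nlinarith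
  -- `α / 2 * cos (α / 2) ≤ sin (α / 2)`
  have htan : α / 2 * Real.cos (α / 2) ≤ Real.sin (α / 2) := by
    rcases lt_or_ge (α / 2) (Real.pi / 2) with h1 | h1
    · have hcp : 0 < Real.cos (α / 2) :=
        Real.cos_pos_of_mem_Ioo ⟨by linarith [Real.pi_pos], h1⟩
      have h2 := Real.le_tan (x := α / 2) (by linarith) h1
      rw [Real.tan_eq_sin_div_cos, le_div_iff₀ hcp] at h2
      exact h2
    · have h2 : α / 2 = Real.pi / 2 := le_antisymm (by linarith) h1
      rw [h2, Real.cos_pi_div_two, mul_zero, Real.sin_pi_div_two]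
      exact zero_le_one
  have h5 : (1 - δ) * (α / 2) ≤ Real.cos (α / 2) * (α / 2) :=
    mul_le_mul_of_nonneg_right hc2 (by linarith)
  rw [hd]
  linarith

private theorem sph_chain (f : ℕ → E) (n : ℕ) :
    InnerProductGeometry.angle (f 0) (f n) ≤
      ∑ i ∈ Finset.range n, InnerProductGeometry.angle (f i) (f (i + 1)) ∨
    ∃ i ≤ n, f i = 0 := by
  by_cases h : ∃ i ≤ n, f i = 0
  · exact Or.inr h
  · left
    push Not at h
    induction n with
    | zero =>
      simp [InnerProductGeometry.angle_self (h 0 le_rfl)]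
    | succ n ih =>
      rw [Finset.sum_range_succ]
      exact (InnerProductGeometry.angle_le_angle_add_angle (f 0) (f n) (f (n + 1))).trans
        (add_le_add (ih fun i hi => h i (hi.trans (Nat.le_succ n))) le_rfl)

theorem angle_le_eVariationOn (c : C(unitInterval, E)) (hc : ∀ t, ‖c t‖ = 1) :
    ENNReal.ofReal (InnerProductGeometry.angle (c 0) (c 1)) ≤ eVariationOn c Set.univ := by
  by_cases hL : eVariationOn c Set.univ = ⊤
  · rw [hL]; exact le_top
  have key : ∀ δ : ℝ, 0 < δ → δ < 1 →
      (1 - δ) * InnerProductGeometry.angle (c 0) (c 1) ≤ (eVariationOn c Set.univ).toReal := by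
    intro δ hδ hδ1
    have huc : UniformContinuous c := CompactSpace.uniformContinuous_of_continuous c.continuous
    obtain ⟨ε, hε, hεδ⟩ := Metric.uniformContinuous_iff.1 huc δ hδ
    obtain ⟨N, hN⟩ := exists_nat_gt (1 / ε)
    have hN0 : (0 : ℝ) < N := lt_trans (by positivity) hN
    set u : ℕ → unitInterval := fun i => Set.projIcc 0 1 zero_le_one ((i : ℝ) / N) with hu
    have humono : Monotone u := by
      intro i j hij
      apply Set.monotone_projIcc
      have : (i : ℝ) ≤ j := by exact_mod_cast hij
      gcongr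
    have hu0 : u 0 = 0 := by
      simp only [hu]
      rw [Nat.cast_zero, zero_div]
      exact Set.projIcc_left _
    have huN : u N = 1 := by
      simp only [hu]
      rw [div_self hN0.ne']
      exact Set.projIcc_right _
    have hstep : ∀ i, dist (u i) (u (i + 1)) < ε := by
      intro i
      have h1 : dist (u i) (u (i + 1)) ≤ dist ((i : ℝ) / N) (((i + 1 : ℕ) : ℝ) / N) := by
        have := (LipschitzWith.projIcc (a := (0 : ℝ)) (b := 1) zero_le_one).dist_le_mul
          ((i : ℝ) / N) (((i + 1 : ℕ) : ℝ) / N)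
        simpa [hu] using this
      refine h1.trans_lt ?_
      rw [Real.dist_eq]
      have h2 : (i : ℝ) / N - ((i + 1 : ℕ) : ℝ) / N = -(1 / N) := by
        push_cast
        field_simp
        ring
      rw [h2, abs_neg, abs_of_pos (by positivity)]
      rw [div_lt_iff₀ hN0]
      rw [div_lt_iff₀ hε] at hN
      linarith
    have hsum : ∑ i ∈ Finset.range N, ‖c (u i) - c (u (i + 1))‖ ≤
        (eVariationOn c Set.univ).toReal := by
      have h1 := eVariationOn.sum_le (f := c) (s := Set.univ) (n := N) humono
        (fun i => Set.mem_univ _)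
      have h2 : ENNReal.ofReal (∑ i ∈ Finset.range N, ‖c (u i) - c (u (i + 1))‖) =
          ∑ i ∈ Finset.range N, edist (c (u (i + 1))) (c (u i)) := by
        rw [ENNReal.ofReal_sum_of_nonneg (fun i _ => norm_nonneg _)]
        refine Finset.sum_congr rfl fun i _ => ?_
        rw [edist_comm, edist_dist, dist_eq_norm]
      rw [← h2] at h1
      exact (ENNReal.ofReal_le_iff_le_toReal hL).1 h1
    have hch := sph_chain (fun i => c (u i)) N
    rcases hch with hch | ⟨i, -, hi⟩
    · simp only [hu0, huN] at hch
      calc (1 - δ) * InnerProductGeometry.angle (c 0) (c 1)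
          ≤ (1 - δ) * ∑ i ∈ Finset.range N,
              InnerProductGeometry.angle (c (u i)) (c (u (i + 1))) :=
            mul_le_mul_of_nonneg_left hch (by linarith)
        _ = ∑ i ∈ Finset.range N,
              (1 - δ) * InnerProductGeometry.angle (c (u i)) (c (u (i + 1))) := Finset.mul_sum ..
        _ ≤ ∑ i ∈ Finset.range N, ‖c (u i) - c (u (i + 1))‖ := by
            refine Finset.sum_le_sum fun i _ => ?_
            apply sph_chord (hc _) (hc _) hδ.le hδ1.le
            have := hεδ (hstep i)
            rw [dist_eq_norm] at this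
            exact this.le
        _ ≤ _ := hsum
    · exfalso
      have := hc (u i)
      have hi' : c (u i) = 0 := hi
      rw [hi', norm_zero] at this
      exact zero_ne_one this
  have hlim : InnerProductGeometry.angle (c 0) (c 1) ≤ (eVariationOn c Set.univ).toReal := by
    have h1 : Filter.Tendsto (fun δ : ℝ => (1 - δ) * InnerProductGeometry.angle (c 0) (c 1))
        (𝓝[>] 0) (𝓝 ((1 - 0) * InnerProductGeometry.angle (c 0) (c 1))) := by
      apply Filter.Tendsto.mono_left _ nhdsWithin_le_nhds
      exact ((continuous_const.sub continuous_id).mul continuous_const).tendsto 0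
    rw [sub_zero, one_mul] at h1
    apply le_of_tendsto h1
    filter_upwards [Ioo_mem_nhdsGT (zero_lt_one (α := ℝ))] with δ hδ
    exact key δ hδ.1 hδ.2
  exact (ENNReal.ofReal_le_iff_le_toReal hL).2 hlim

theorem angle_le_bdDist_ball {p q : E} :
    ENNReal.ofReal (InnerProductGeometry.angle p q) ≤ bdDist (Metric.closedBall (0 : E) 1) p q := by
  unfold bdDist
  refine le_iInf₂ fun c hc => ?_
  obtain ⟨h0, h1, hf⟩ := hc
  rw [← h0, ← h1]
  apply angle_le_eVariationOn
  intro t
  have := hf t
  rw [frontier_closedBall (0 : E) one_ne_zero] at this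
  exact mem_sphere_zero_iff_norm.1 this

theorem curvGeOne_ball : CurvGeOne (Metric.closedBall (0 : E) 1) := by
  intro x hx u hu hsup R hR
  rw [frontier_closedBall (0 : E) one_ne_zero] at hx
  have hx1 : ‖x‖ = 1 := mem_sphere_zero_iff_norm.1 hx
  have h1 := hsup u (by rw [mem_closedBall_zero_iff, hu])
  rw [inner_sub_right, real_inner_self_eq_norm_sq, hu] at h1
  have h2 : ‖u - x‖ ^ 2 ≤ 0 := by
    rw [norm_sub_sq_real, hu, hx1]
    linarith
  have h3 : u = x := by
    have h4 : ‖u - x‖ = 0 := by
      have := norm_nonneg (u - x)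
      nlinarith
    exact sub_eq_zero.1 (norm_eq_zero.1 h4)
  subst h3
  filter_upwards [self_mem_nhdsWithin] with y hy
  rw [mem_closedBall_zero_iff] at hy
  rw [dist_eq_norm]
  have h5 : y - (u - R • u) = y + (R - 1) • u := by
    rw [sub_smul, one_smul]; abel
  rw [h5]
  calc ‖y + (R - 1) • u‖ ≤ ‖y‖ + ‖(R - 1) • u‖ := norm_add_le _ _
    _ = ‖y‖ + (R - 1) := by
        rw [norm_smul, hu, Real.norm_of_nonneg (by linarith), mul_one]
    _ ≤ R := by linarith

end Pool.Agent.DGP
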