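import Pool.Agent.DGP.Defs

/-!
Module Support (size 2).  Supporting points and normals, and the 1-Lipschitz property of the inverse
Gauss map.

`norm_sub_le_of_support`: `‖y - x + u‖ ≤ 1` and `‖x - y + v‖ ≤ 1` give (with `Δ = y - x`)
`‖Δ‖² + 2⟪Δ, u⟫ ≤ 0`, `‖Δ‖² - 2⟪Δ, v⟫ ≤ 0`; add: `‖Δ‖² ≤ ⟪Δ, v - u⟫ ≤ ‖Δ‖ ‖u - v‖`.
-/

set_option autoImplicit false

open scoped RealInnerProductSpace Topology

namespace Pool.Agent.DGP

variable {E : Type*} [NormedAddCommGroup E] [InnerProductSpace ℝ E]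

theorem norm_sub_le_of_support {K : Set E} {x y u v : E} (hx : x ∈ K) (hy : y ∈ K)
    (hu : ‖u‖ = 1) (hv : ‖v‖ = 1) (hKx : K ⊆ Metric.closedBall (x - u) 1)
    (hKy : K ⊆ Metric.closedBall (y - v) 1) : ‖x - y‖ ≤ ‖u - v‖ := by
  have h1 := hKx hy
  have h2 := hKy hx
  rw [mem_closedBall_iff_norm] at h1 h2
  have e1 : y - (x - u) = u - (x - y) := by abel
  have e2 : x - (y - v) = v + (x - y) := by abel
  rw [e1] at h1
  rw [e2] at h2
  have s1 : ‖u - (x - y)‖ ^ 2 ≤ 1 := by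
    have := norm_nonneg (u - (x - y)); nlinarith
  have s2 : ‖v + (x - y)‖ ^ 2 ≤ 1 := by
    have := norm_nonneg (v + (x - y)); nlinarith
  rw [norm_sub_sq_real, hu] at s1
  rw [norm_add_sq_real, hv] at s2
  have h3 : ⟪u - v, x - y⟫ ≤ ‖u - v‖ * ‖x - y‖ := real_inner_le_norm _ _
  rw [inner_sub_left] at h3
  have h4 : ‖x - y‖ ^ 2 ≤ ‖u - v‖ * ‖x - y‖ := by linarith
  rcases (norm_nonneg (x - y)).eq_or_lt with h0 | h0
  · rw [← h0]; exact norm_nonneg _
  · nlinarith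

theorem exists_normal [FiniteDimensional ℝ E] {K : Set E} (hK : Convex ℝ K)
    (hi : (interior K).Nonempty) {x : E} (hx : x ∈ frontier K) :
    ∃ u : E, ‖u‖ = 1 ∧ ∀ y ∈ K, ⟪u, y - x⟫ ≤ 0 := by
  haveI : CompleteSpace E := FiniteDimensional.complete ℝ E
  have hxi : x ∉ interior K := hx.2
  obtain ⟨f, hf⟩ := geometric_hahn_banach_open_point hK.interior isOpen_interior hxi
  set w : E := (InnerProductSpace.toDual ℝ E).symm f with hw
  have hfw : ∀ y, f y = ⟪w, y⟫ := fun y => by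
    rw [hw, InnerProductSpace.toDual_symm_apply]
  have hle : ∀ y ∈ K, f y ≤ f x := by
    intro y hy
    have hy' : y ∈ closure (interior K) := by
      rw [hK.closure_interior_eq_closure_of_nonempty_interior hi]
      exact subset_closure hy
    have hcl : IsClosed {z | f z ≤ f x} := isClosed_le f.continuous continuous_const
    exact closure_minimal (fun z hz => (hf z hz).le) hcl hy'
  have hw0 : w ≠ 0 := by
    intro h0
    obtain ⟨a, ha⟩ := hi
    have := hf a ha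
    rw [hfw, hfw, h0, inner_zero_left, inner_zero_left] at this
    exact lt_irrefl _ this
  have hwn : 0 < ‖w‖ := norm_pos_iff.mpr hw0
  refine ⟨(‖w‖)⁻¹ • w, ?_, ?_⟩
  · rw [norm_smul, norm_inv, norm_norm, inv_mul_cancel₀ hwn.ne']
  · intro y hy
    rw [real_inner_smul_left, inner_sub_right]
    have := hle y hy
    rw [hfw, hfw] at this
    exact mul_nonpos_of_nonneg_of_nonpos (inv_nonneg.mpr hwn.le) (by linarith)

theorem mem_frontier_of_normal {K : Set E} {x u : E} (hx : x ∈ K) (hu : ‖u‖ = 1)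
    (h : ∀ y ∈ K, ⟪u, y - x⟫ ≤ 0) : x ∈ frontier K := by
  refine ⟨subset_closure hx, ?_⟩
  intro hxi
  have hcont : Filter.Tendsto (fun ε : ℝ => x + ε • u) (𝓝[>] 0) (𝓝 x) := by
    have : Filter.Tendsto (fun ε : ℝ => x + ε • u) (𝓝 0) (𝓝 (x + (0 : ℝ) • u)) :=
      (Continuous.tendsto (by fun_prop) 0)
    rw [zero_smul, add_zero] at this
    exact this.mono_left nhdsWithin_le_nhds
  have hev : ∀ᶠ ε in 𝓝[>] (0 : ℝ), x + ε • u ∈ K :=
    hcont.eventually (mem_interior_iff_mem_nhds.mp hxi)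
  obtain ⟨ε, hε, hε0⟩ := (hev.and self_mem_nhdsWithin).exists
  have h1 := h _ hε
  rw [add_sub_cancel_left, real_inner_smul_right, real_inner_self_eq_norm_sq, hu] at h1
  have : (0 : ℝ) < ε := hε0
  linarith

theorem exists_support_map {K : Set E} (hc : IsCompact K) (hne : K.Nonempty) :
    ∃ X : E → E, ∀ u, X u ∈ K ∧ ∀ y ∈ K, ⟪u, y - X u⟫ ≤ 0 := by
  have h : ∀ u : E, ∃ x ∈ K, ∀ y ∈ K, ⟪u, y - x⟫ ≤ 0 := by
    intro u
    obtain ⟨x, hx, hmax⟩ := hc.exists_isMaxOn hne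
      (f := fun y => ⟪u, y⟫) (Continuous.continuousOn (by fun_prop))
    refine ⟨x, hx, fun y hy => ?_⟩
    have := hmax hy
    rw [inner_sub_right]
    have h2 : ⟪u, y⟫ ≤ ⟪u, x⟫ := this
    linarith
  choose X hX hX2 using h
  exact ⟨X, fun u => ⟨hX u, hX2 u⟩⟩

end Pool.Agent.DGP
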