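import Pool.Agent.DGP.Core
import Pool.Agent.DGP.Roll
import Pool.Agent.DGP.Support
import Pool.Agent.DGP.Arc
import Pool.Agent.DGP.Homeo
import Pool.Agent.DGP.SphLen
import Pool.Agent.DGP.Q8

/-!
Assembly (helper26): the theorem on convex hypersurfaces.
-/

set_option autoImplicit false

open scoped RealInnerProductSpace Topology ENNReal

namespace Pool.Agent.DGP

variable {E : Type*} [NormedAddCommGroup E] [InnerProductSpace ℝ E]

lemma angle_of_unit {p q : E} (hp : ‖p‖ = 1) (hq : ‖q‖ = 1) :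
    InnerProductGeometry.angle p q = Real.arccos ⟪p, q⟫ := by
  rw [InnerProductGeometry.angle, hp, hq]
  simp

/-- the hypersurface quotient has small diameter if the group is irreducible -/
theorem bdQuotDiam_le [FiniteDimensional ℝ E] (hdim : 2 ≤ Module.finrank ℝ E) {K : Set E}
    (hK : Convex ℝ K) (hc : IsCompact K) (hi : (interior K).Nonempty) (hcurv : CurvGeOne K)
    (Γ : Subgroup (E ≃ₗᵢ[ℝ] E)) (hinv : ∀ γ ∈ Γ, γ '' K = K) {δ : ℝ}
    (hδ : ∀ p q : E, ‖p‖ = 1 → ‖q‖ = 1 → ∃ γ ∈ Γ, δ ≤ ⟪γ p, q⟫) :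
    bdQuotDiam K Γ ≤ ENNReal.ofReal (Real.arccos δ) := by
  obtain ⟨X, hX⟩ := exists_support_map (K := K) hc (hi.mono interior_subset)
  have hroll : ∀ {x u : E}, x ∈ K → ‖u‖ = 1 → (∀ y ∈ K, ⟪u, y - x⟫ ≤ 0) →
      K ⊆ Metric.closedBall (x - u) 1 := fun hx hu h => blaschke hdim hK hc hcurv hx hu h
  have huniq : ∀ {x u : E}, x ∈ K → ‖u‖ = 1 → (∀ y ∈ K, ⟪u, y - x⟫ ≤ 0) → X u = x := by
    intro x u hx hu h
    have h1 := norm_sub_le_of_support (hX u).1 hx hu hu (hroll (hX u).1 hu (hX u).2)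
      (hroll hx hu h)
    rw [sub_self, norm_zero] at h1
    exact sub_eq_zero.1 (norm_le_zero_iff.1 h1)
  have hLip : ∀ u v : E, ‖u‖ = 1 → ‖v‖ = 1 → ‖X u - X v‖ ≤ ‖u - v‖ := by
    intro u v hu hv
    exact norm_sub_le_of_support (hX u).1 (hX v).1 hu hv (hroll (hX u).1 hu (hX u).2)
      (hroll (hX v).1 hv (hX v).2)
  refine iSup₂_le fun x hx => iSup₂_le fun y hy => ?_
  have hcl : IsClosed K := hc.isClosed
  have hxK : x ∈ K := hcl.frontier_subset hx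
  have hyK : y ∈ K := hcl.frontier_subset hy
  obtain ⟨u, hu, hxu⟩ := exists_normal hK hi hx
  obtain ⟨v, hv, hyv⟩ := exists_normal hK hi hy
  obtain ⟨γ, hγ, hγuv⟩ := hδ u v hu hv
  have hγu : ‖γ u‖ = 1 := by rw [LinearIsometryEquiv.norm_map, hu]
  have hγxK : γ x ∈ K := by
    rw [← hinv γ hγ]
    exact ⟨x, hxK, rfl⟩
  have hγx : ∀ z ∈ K, ⟪γ u, z - γ x⟫ ≤ 0 := by
    intro z hz
    rw [← hinv γ hγ] at hz
    obtain ⟨w, hw, rfl⟩ := hz
    rw [← map_sub, LinearIsometryEquiv.inner_map_map]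
    exact hxu w hw
  obtain ⟨c, hc0, hc1, hct, hlen⟩ := exists_path_image hdim X hLip hγu hv
  refine (iInf₂_le γ hγ).trans ?_
  have hpath : c 0 = γ x ∧ c 1 = y ∧ ∀ t, c t ∈ frontier K := by
    refine ⟨by rw [hc0]; exact huniq hγxK hγu hγx, by rw [hc1]; exact huniq hyK hv hyv, ?_⟩
    intro t
    obtain ⟨w, hw, hcw⟩ := hct t
    rw [hcw]
    exact mem_frontier_of_normal (hX w).1 hw (hX w).2
  refine (iInf₂_le c hpath).trans (hlen.trans ?_)
  apply ENNReal.ofReal_le_ofReal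
  rw [angle_of_unit hγu hv]
  exact Real.arccos_le_arccos hγuv

/-- the round quotient of a reducible group has diameter at least `π/2` -/
theorem le_bdQuotDiam_ball {Γ : Subgroup (E ≃ₗᵢ[ℝ] E)} [FiniteDimensional ℝ E]
    (hirr : ¬ Irred Γ) :
    ENNReal.ofReal (Real.pi / 2) ≤ bdQuotDiam (Metric.closedBall (0 : E) 1) Γ := by
  unfold Irred at hirr
  push Not at hirr
  obtain ⟨W, hW, hbot, htop⟩ := hirr
  have hex : ∀ {W : Submodule ℝ E}, W ≠ ⊥ → ∃ p ∈ W, ‖p‖ = 1 := by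
    intro W hW
    obtain ⟨w, hw, hne⟩ := Submodule.exists_mem_ne_zero_of_ne_bot hW
    refine ⟨(‖w‖)⁻¹ • w, W.smul_mem _ hw, ?_⟩
    rw [norm_smul, norm_inv, norm_norm, inv_mul_cancel₀ (norm_ne_zero_iff.2 hne)]
  obtain ⟨p, hpW, hp⟩ := hex hbot
  obtain ⟨q, hqW, hq⟩ := hex (W := Wᗮ) (by rwa [ne_eq, Submodule.orthogonal_eq_bot_iff])
  have hfr : ∀ x : E, ‖x‖ = 1 → x ∈ frontier (Metric.closedBall (0 : E) 1) := by
    intro x hx
    rw [frontier_closedBall _ one_ne_zero]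
    simpa using hx
  refine le_trans ?_ (le_iSup₂ (f := fun x (_ : x ∈ frontier (Metric.closedBall (0 : E) 1)) =>
    ⨆ y ∈ frontier (Metric.closedBall (0 : E) 1), ⨅ γ ∈ Γ,
      bdDist (Metric.closedBall (0 : E) 1) (γ x) y) p (hfr p hp))
  refine le_trans ?_ (le_iSup₂ (f := fun y (_ : y ∈ frontier (Metric.closedBall (0 : E) 1)) =>
    ⨅ γ ∈ Γ, bdDist (Metric.closedBall (0 : E) 1) (γ p) y) q (hfr q hq))
  refine le_iInf₂ fun γ hγ => ?_
  refine le_trans ?_ angle_le_bdDist_ball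
  apply ENNReal.ofReal_le_ofReal
  rw [angle_of_unit (by rw [LinearIsometryEquiv.norm_map, hp]) hq,
    Submodule.inner_right_of_mem_orthogonal (hW γ hγ p hpW) hqW, Real.arccos_zero]

theorem arccos_half : Real.arccos (1 / 2) = Real.pi / 3 := by
  rw [← Real.cos_pi_div_three, Real.arccos_cos (by positivity) (by linarith [Real.pi_pos])]

/-- `S³/Q₈` has diameter exactly `π/3` -/
theorem q8_diam : ∃ Γ : Subgroup (EuclideanSpace ℝ (Fin 4) ≃ₗᵢ[ℝ] EuclideanSpace ℝ (Fin 4)),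
    Finite Γ ∧ (∀ γ ∈ Γ, γ ≠ 1 → ∀ x ∈ frontier (Metric.closedBall (0 : EuclideanSpace ℝ (Fin 4)) 1),
      γ x ≠ x) ∧
    bdQuotDiam (Metric.closedBall 0 1) Γ = ENNReal.ofReal (Real.pi / 3) := by
  obtain ⟨Γ, hfin, hfree, hirr, p, q, hp, hq, hpq⟩ := exists_q8
  have hfr : ∀ x : EuclideanSpace ℝ (Fin 4), ‖x‖ = 1 →
      x ∈ frontier (Metric.closedBall (0 : EuclideanSpace ℝ (Fin 4)) 1) := by
    intro x hx
    rw [frontier_closedBall _ one_ne_zero]
    simpa using hx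
  have hfr' : ∀ x : EuclideanSpace ℝ (Fin 4),
      x ∈ frontier (Metric.closedBall (0 : EuclideanSpace ℝ (Fin 4)) 1) → ‖x‖ = 1 := by
    intro x hx
    rw [frontier_closedBall _ one_ne_zero] at hx
    simpa using hx
  have hlow : ENNReal.ofReal (Real.pi / 3) ≤ bdQuotDiam (Metric.closedBall 0 1) Γ := by
    refine le_trans ?_ (le_iSup₂ (f := fun x (_ : x ∈ frontier
      (Metric.closedBall (0 : EuclideanSpace ℝ (Fin 4)) 1)) =>
      ⨆ y ∈ frontier (Metric.closedBall (0 : EuclideanSpace ℝ (Fin 4)) 1), ⨅ γ ∈ Γ,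
        bdDist (Metric.closedBall (0 : EuclideanSpace ℝ (Fin 4)) 1) (γ x) y) p (hfr p hp))
    refine le_trans ?_ (le_iSup₂ (f := fun y (_ : y ∈ frontier
      (Metric.closedBall (0 : EuclideanSpace ℝ (Fin 4)) 1)) =>
      ⨅ γ ∈ Γ, bdDist (Metric.closedBall (0 : EuclideanSpace ℝ (Fin 4)) 1) (γ p) y) q (hfr q hq))
    refine le_iInf₂ fun γ hγ => ?_
    refine le_trans ?_ angle_le_bdDist_ball
    apply ENNReal.ofReal_le_ofReal
    rw [angle_of_unit (by rw [LinearIsometryEquiv.norm_map, hp]) hq, ← arccos_half]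
    exact Real.arccos_le_arccos (hpq γ hγ)
  have h4 : Module.finrank ℝ (EuclideanSpace ℝ (Fin 4)) = 4 := by simp
  have hgap : gapCos (Module.finrank ℝ (EuclideanSpace ℝ (Fin 4))) = 1 / 2 := by
    rw [h4, gapCos, if_pos (by norm_num)]
    have : √((4 : ℕ) : ℝ) = 2 := by
      rw [show ((4 : ℕ) : ℝ) = 2 ^ 2 by norm_num]
      exact Real.sqrt_sq (by norm_num)
    rw [this]
  refine ⟨Γ, hfin, ?_, le_antisymm ?_ hlow⟩
  · intro γ hγ hγ1 x hx h
    have h0 := hfree γ hγ hγ1 x h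
    have := hfr' x hx
    rw [h0, norm_zero] at this
    exact zero_ne_one this
  · rw [← arccos_half]
    apply bdQuotDiam_le (by omega) (convex_closedBall 0 1) (isCompact_closedBall 0 1)
      ⟨0, by rw [interior_closedBall _ one_ne_zero]; simp⟩ curvGeOne_ball Γ
    · intro γ _
      ext x
      constructor
      · rintro ⟨y, hy, rfl⟩
        simpa using hy
      · intro hx
        exact ⟨γ.symm x, by simpa using hx, by simp⟩
    · intro p q hp hq
      obtain ⟨γ, hγ, h⟩ := core (by omega) Γ hfree hirr hp hq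
      exact ⟨γ, hγ, by rw [← hgap]; exact h⟩

end Pool.Agent.DGP

namespace Pool.Agent.DGP

/-- **Theorem (convex hypersurfaces).** -/
theorem hypersurfaces :
    (∀ n : ℕ, 1 ≤ n → ∀ (K : Set (EuclideanSpace ℝ (Fin (n + 1))))
      (Γ : Subgroup (EuclideanSpace ℝ (Fin (n + 1)) ≃ₗᵢ[ℝ] EuclideanSpace ℝ (Fin (n + 1)))),
      Convex ℝ K → IsCompact K → (interior K).Nonempty → CurvGeOne K → Finite Γ →
      (∀ γ ∈ Γ, γ '' K = K) → (∀ γ ∈ Γ, γ ≠ 1 → ∀ x ∈ frontier K, γ x ≠ x) →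
      bdQuotDiam K Γ ≤ ENNReal.ofReal (Real.arccos (gapCos (n + 1))) ∨
      (ENNReal.ofReal (Real.pi / 2) ≤ bdQuotDiam (Metric.closedBall 0 1) Γ ∧
        (∀ γ ∈ Γ, γ ≠ 1 → ∀ x : EuclideanSpace ℝ (Fin (n + 1)), ‖x‖ = 1 → γ x ≠ x) ∧
        ∃ f : frontier K ≃ₜ Metric.sphere (0 : EuclideanSpace ℝ (Fin (n + 1))) 1,
          ∀ γ ∈ Γ, ∀ x y : frontier K, (y : EuclideanSpace ℝ (Fin (n + 1))) = γ x →
            (f y : EuclideanSpace ℝ (Fin (n + 1))) = γ (f x))) ∧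
    (∃ Γ : Subgroup (EuclideanSpace ℝ (Fin 4) ≃ₗᵢ[ℝ] EuclideanSpace ℝ (Fin 4)),
      Finite Γ ∧ (∀ γ ∈ Γ, γ ≠ 1 → ∀ x : EuclideanSpace ℝ (Fin 4), ‖x‖ = 1 → γ x ≠ x) ∧
      bdQuotDiam (Metric.closedBall 0 1) Γ = ENNReal.ofReal (Real.arccos (gapCos 4))) := by
  refine ⟨?_, ?_⟩
  · intro n hn K Γ hK hc hi hcurv hfin hinv hfree
    have hfr : Module.finrank ℝ (EuclideanSpace ℝ (Fin (n + 1))) = n + 1 := by simp
    have hF : ActsFreely Γ := free_of_free_frontier Γ hK hc hi hinv hfree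
    by_cases hirr : Irred Γ
    · left
      apply bdQuotDiam_le (by omega) hK hc hi hcurv Γ hinv
      intro p q hp hq
      obtain ⟨γ, hγ, h⟩ := core (by omega) Γ hF hirr hp hq
      exact ⟨γ, hγ, by rw [hfr] at h; exact h⟩
    · right
      refine ⟨le_bdQuotDiam_ball hirr, ?_, exists_equivariant_homeo Γ hK hc hi hinv⟩
      intro γ hγ hγ1 x hx h
      have := hF γ hγ hγ1 x h
      rw [this, norm_zero] at hx
      exact zero_ne_one hx
  · obtain ⟨Γ, hfin, hfree, hd⟩ := q8_diam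
    refine ⟨Γ, hfin, ?_, ?_⟩
    · intro γ hγ hγ1 x hx
      apply hfree γ hγ hγ1
      rw [frontier_closedBall _ one_ne_zero]
      simpa using hx
    · have hgap : gapCos 4 = 1 / 2 := by
        rw [gapCos, if_pos (by norm_num)]
        have : √((4 : ℕ) : ℝ) = 2 := by
          rw [show ((4 : ℕ) : ℝ) = 2 ^ 2 by norm_num]
          exact Real.sqrt_sq (by norm_num)
        rw [this]
      rw [hgap, arccos_half]
      exact hd

end Pool.Agent.DGP
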