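import Pool.Agent.DGP.Defs

/-!
Module Mono (size 4).  Monomial groups acting freely on `S^{2d-1}`.
-/

set_option autoImplicit false

open scoped RealInnerProductSpace

namespace Pool.Agent.DGP

/-- the complex space `ℂ^(ZMod d)` as a real inner product space -/
private abbrev MonoV (d : ℕ) : Type := PiLp 2 (fun _ : ZMod d => ℂ)

private lemma mono_exists_circle (n : ℕ) (hn : n ≠ 0) : ∃ z : Circle, orderOf z = n := by
  refine ⟨Circle.exp (2 * Real.pi / n), ?_⟩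
  have h := Complex.isPrimitiveRoot_exp n hn
  have h2 : ((Circle.exp (2 * Real.pi / n) : Circle) : ℂ)
      = Complex.exp (2 * Real.pi * Complex.I / n) := by
    rw [Circle.coe_exp]
    congr 1
    push_cast
    ring
  rw [← orderOf_injective Circle.coeHom (fun a b hab => Circle.ext hab)]
  change orderOf ((Circle.exp (2 * Real.pi / n) : Circle) : ℂ) = n
  rw [h2]
  exact h.eq_orderOf.symm

private lemma mono_exists_r (d m : ℕ) (hd : d ≠ 0) (hm : m.Prime) (h : m ≡ 1 [MOD d]) :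
    ∃ r : ℕ, orderOf (r : ZMod m) = d := by
  haveI : Fact m.Prime := ⟨hm⟩
  obtain ⟨g, hg⟩ := IsCyclic.exists_ofOrder_eq_natCard (α := (ZMod m)ˣ)
  have hc : Nat.card (ZMod m)ˣ = m - 1 := by
    rw [Nat.card_eq_fintype_card, ZMod.card_units_eq_totient, Nat.totient_prime hm]
  have hdvd : d ∣ orderOf g := by
    rw [hg, hc]
    exact (Nat.modEq_iff_dvd' hm.one_lt.le).mp h.symm
  have h0 : orderOf g ≠ 0 := by
    rw [hg, hc]
    have := hm.one_lt
    omega
  refine ⟨((g ^ (orderOf g / d) : (ZMod m)ˣ) : ZMod m).val, ?_⟩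
  rw [ZMod.natCast_zmod_val, orderOf_units]
  exact orderOf_pow_orderOf_div h0 hdvd

section Build

variable (d : ℕ) [NeZero d]

/-- diagonal isometry -/
private noncomputable def monoDiag (c : ZMod d → Circle) : MonoV d ≃ₗᵢ[ℝ] MonoV d :=
  LinearIsometryEquiv.piLpCongrRight 2 (fun i => rotation (c i))

/-- shift isometry -/
private noncomputable def monoShift : MonoV d ≃ₗᵢ[ℝ] MonoV d :=
  LinearIsometryEquiv.piLpCongrLeft 2 ℝ ℂ (Equiv.subRight (1 : ZMod d))

private lemma monoDiag_apply (c : ZMod d → Circle) (x : MonoV d) (i : ZMod d) :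
    monoDiag d c x i = c i * x i := rfl

private lemma monoShift_apply (x : MonoV d) (i : ZMod d) :
    monoShift d x i = x (i + 1) := rfl

private lemma monoDiag_pow (c : ZMod d → Circle) (n : ℕ) (x : MonoV d) (i : ZMod d) :
    (monoDiag d c ^ n) x i = (c i : ℂ) ^ n * x i := by
  induction n generalizing x with
  | zero => simp
  | succ n ih =>
    rw [pow_succ, LinearIsometryEquiv.coe_mul, Function.comp_apply, ih, monoDiag_apply, pow_succ]
    ring

private lemma monoB_pow (β : Circle) (n : ℕ) (x : MonoV d) (i : ZMod d) :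
    ((monoDiag d (fun _ => β) * monoShift d) ^ n) x i = (β : ℂ) ^ n * x (i + n) := by
  induction n generalizing x with
  | zero => simp
  | succ n ih =>
    rw [pow_succ, LinearIsometryEquiv.coe_mul, Function.comp_apply, ih, LinearIsometryEquiv.coe_mul,
      Function.comp_apply, monoDiag_apply, monoShift_apply, pow_succ, Nat.cast_succ, add_assoc]
    ring

end Build

private lemma mono_core (d m r : ℕ) [NeZero d] (hd : 2 ≤ d) (hm : m.Prime) (hmd : m ≡ 1 [MOD d])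
    (hr : orderOf (r : ZMod m) = d) :
    ∃ (Γ : Subgroup (MonoV d ≃ₗᵢ[ℝ] MonoV d)) (a b : MonoV d ≃ₗᵢ[ℝ] MonoV d),
      Finite Γ ∧ ActsFreely Γ ∧ a ∈ Γ ∧ b ∈ Γ ∧
      orderOf a = m ∧ orderOf b = d ^ 3 ∧ b * a * b⁻¹ = a ^ r ∧
      ∃ p q : MonoV d, ‖p‖ = 1 ∧ ‖q‖ = 1 ∧ ∀ γ ∈ Γ, ⟪γ p, q⟫ ≤ 1 / √(d : ℝ) := by
  haveI : Fact m.Prime := ⟨hm⟩
  obtain ⟨ζ, hζ⟩ := mono_exists_circle m hm.ne_zero
  obtain ⟨β, hβ⟩ := mono_exists_circle (d ^ 3) (pow_ne_zero 3 (by omega))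
  have hd0 : 0 < d := by omega
  have hcop : Nat.Coprime (d ^ 3) m := by
    apply Nat.Coprime.pow_left
    have h1 : Nat.gcd m d = Nat.gcd 1 d := Nat.ModEq.gcd_eq hmd
    rw [Nat.gcd_one_left] at h1
    exact (Nat.coprime_comm).mp h1
  have hζpow : ∀ n : ℕ, (ζ : ℂ) ^ n = 1 ↔ m ∣ n := by
    intro n
    rw [← hζ, orderOf_dvd_iff_pow_eq_one]
    constructor
    · intro h
      apply Circle.ext
      rw [Circle.coe_pow, h, Circle.coe_one]
    · intro h
      rw [← Circle.coe_pow, h, Circle.coe_one]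
  have hβpow : ∀ n : ℕ, (β : ℂ) ^ n = 1 ↔ d ^ 3 ∣ n := by
    intro n
    rw [← hβ, orderOf_dvd_iff_pow_eq_one]
    constructor
    · intro h
      apply Circle.ext
      rw [Circle.coe_pow, h, Circle.coe_one]
    · intro h
      rw [← Circle.coe_pow, h, Circle.coe_one]
  have hr0 : ¬ m ∣ r := by
    intro h
    have h1 : (r : ZMod m) = 0 := (ZMod.natCast_eq_zero_iff r m).mpr h
    have h2 : (r : ZMod m) ^ d = 1 := by rw [← hr]; exact pow_orderOf_eq_one _
    rw [h1, zero_pow (by omega)] at h2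
    exact zero_ne_one h2
  set a : MonoV d ≃ₗᵢ[ℝ] MonoV d := monoDiag d (fun i => ζ ^ (r ^ i.val)) with ha
  set b : MonoV d ≃ₗᵢ[ℝ] MonoV d := monoDiag d (fun _ => β) * monoShift d with hb
  have hapow : ∀ (n : ℕ) (x : MonoV d) (i : ZMod d),
      (a ^ n) x i = (ζ : ℂ) ^ (n * r ^ i.val) * x i := by
    intro n x i
    rw [ha, monoDiag_pow, Circle.coe_pow, ← pow_mul, mul_comm n]
  have hbpow : ∀ (n : ℕ) (x : MonoV d) (i : ZMod d),
      (b ^ n) x i = (β : ℂ) ^ n * x (i + n) := fun n x i => monoB_pow d β n x i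
  have habpow : ∀ (j k : ℕ) (x : MonoV d) (i : ZMod d),
      (a ^ j * b ^ k) x i = (ζ : ℂ) ^ (j * r ^ i.val) * ((β : ℂ) ^ k * x (i + k)) := by
    intro j k x i
    rw [LinearIsometryEquiv.coe_mul, Function.comp_apply, hapow, hbpow]
  have ham : a ^ m = 1 := by
    ext x i
    rw [hapow, (hζpow _).mpr (dvd_mul_right _ _), one_mul]
    rfl
  have hbd : b ^ (d ^ 3) = 1 := by
    ext x i
    rw [hbpow, (hβpow _).mpr dvd_rfl, one_mul]
    have : ((d ^ 3 : ℕ) : ZMod d) = 0 := by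
      rw [ZMod.natCast_eq_zero_iff]
      exact dvd_pow_self d (by norm_num)
    rw [this, add_zero]
    rfl
  have ha1 : a ≠ 1 := by
    intro h
    have h1 := hapow 1 (WithLp.toLp 2 (fun _ => (1 : ℂ))) 0
    rw [pow_one, h] at h1
    have h2 : (ζ : ℂ) ^ (1 * r ^ (0 : ZMod d).val) = 1 := by
      have h3 : ((1 : MonoV d ≃ₗᵢ[ℝ] MonoV d) (WithLp.toLp 2 (fun _ => (1 : ℂ)))) (0 : ZMod d)
        = (1 : ℂ) := rfl
      rw [h3] at h1
      simpa using h1.symm
    rw [hζpow, ZMod.val_zero, pow_zero, mul_one] at h2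
    exact hm.one_lt.ne' (Nat.dvd_one.mp h2)
  have haord : orderOf a = m := orderOf_eq_prime ham ha1
  have hbord : orderOf b = d ^ 3 := by
    apply Nat.dvd_antisymm (orderOf_dvd_of_pow_eq_one hbd)
    have h1 := hbpow (orderOf b) (WithLp.toLp 2 (fun _ => (1 : ℂ))) 0
    rw [pow_orderOf_eq_one] at h1
    have h3 : ((1 : MonoV d ≃ₗᵢ[ℝ] MonoV d) (WithLp.toLp 2 (fun _ => (1 : ℂ)))) (0 : ZMod d)
      = (1 : ℂ) := rfl
    rw [h3] at h1
    rw [← hβpow]
    simpa using h1.symm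
  -- commutation
  have hrpow : ∀ n n' : ℕ, n ≡ n' [MOD d] → ∀ j : ℕ,
      (ζ : ℂ) ^ (j * r ^ n) = (ζ : ℂ) ^ (j * r ^ n') := by
    intro n n' hnn j
    have h1 : (r : ZMod m) ^ n = (r : ZMod m) ^ n' := by
      rw [← pow_mod_orderOf (r : ZMod m) n, ← pow_mod_orderOf (r : ZMod m) n', hr]
      exact congrArg (fun e => (r : ZMod m) ^ e) hnn
    have h2 : ((j * r ^ n : ℕ) : ZMod m) = ((j * r ^ n' : ℕ) : ZMod m) := by
      push_cast
      rw [h1]
    have h3 : ζ ^ (j * r ^ n) = ζ ^ (j * r ^ n') := by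
      rw [pow_eq_pow_iff_modEq, hζ]
      exact (ZMod.natCast_eq_natCast_iff _ _ _).mp h2
    rw [← Circle.coe_pow, h3, Circle.coe_pow]
  have hba : ∀ j : ℕ, b * a ^ j = a ^ (j * r) * b := by
    intro j
    ext x i
    have e1 : (b * a ^ j) x i = (β : ℂ) * ((ζ : ℂ) ^ (j * r ^ (i + 1).val) * x (i + 1)) := by
      have := hbpow 1 ((a ^ j) x) i
      rw [pow_one, pow_one, Nat.cast_one, hapow] at this
      exact this
    have e2 : (a ^ (j * r) * b) x i
        = (ζ : ℂ) ^ (j * r * r ^ i.val) * ((β : ℂ) * x (i + 1)) := by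
      have := habpow (j * r) 1 x i
      rw [pow_one, pow_one, Nat.cast_one] at this
      exact this
    rw [e1, e2]
    have h3 : (ζ : ℂ) ^ (j * r ^ (i + 1).val) = (ζ : ℂ) ^ (j * r * r ^ i.val) := by
      rw [hrpow (i + 1).val (i.val + 1) ?_ j]
      · congr 1
        ring
      · rw [ZMod.val_add]
        have h1 : (1 : ZMod d).val = 1 := by
          haveI : Fact (1 < d) := ⟨by omega⟩
          exact ZMod.val_one d
        rw [h1]
        exact Nat.mod_modEq _ _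
    rw [h3]
    ring
  have hbka : ∀ k j : ℕ, b ^ k * a ^ j = a ^ (j * r ^ k) * b ^ k := by
    intro k
    induction k with
    | zero => intro j; simp
    | succ k ih =>
      intro j
      rw [pow_succ' b, mul_assoc, ih, ← mul_assoc, hba, mul_assoc]
      congr 2
      ring
  have hainv : ∀ j : ℕ, (a ^ j)⁻¹ = a ^ ((m - 1) * j) := by
    intro j
    rw [inv_eq_iff_mul_eq_one, ← pow_add]
    have : j + (m - 1) * j = m * j := by
      obtain ⟨t, ht⟩ : ∃ t, m = t + 1 := ⟨m - 1, by have := hm.one_lt; omega⟩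
      rw [ht]; simp only [Nat.add_sub_cancel]; ring
    rw [this, pow_mul, ham, one_pow]
  have hbinv : ∀ k : ℕ, (b ^ k)⁻¹ = b ^ ((d ^ 3 - 1) * k) := by
    intro k
    rw [inv_eq_iff_mul_eq_one, ← pow_add]
    have : k + (d ^ 3 - 1) * k = d ^ 3 * k := by
      obtain ⟨t, ht⟩ : ∃ t, d ^ 3 = t + 1 := ⟨d ^ 3 - 1, by
        have : 0 < d ^ 3 := pow_pos hd0 3
        omega⟩
      rw [ht]; simp only [Nat.add_sub_cancel]; ring
    rw [this, pow_mul, hbd, one_pow]
  let Γ : Subgroup (MonoV d ≃ₗᵢ[ℝ] MonoV d) :=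
    { carrier := {g | ∃ j k : ℕ, g = a ^ j * b ^ k}
      mul_mem' := by
        rintro _ _ ⟨j, k, rfl⟩ ⟨j', k', rfl⟩
        refine ⟨j + j' * r ^ k, k + k', ?_⟩
        calc a ^ j * b ^ k * (a ^ j' * b ^ k') = a ^ j * (b ^ k * a ^ j') * b ^ k' := by
              simp only [mul_assoc]
          _ = a ^ j * (a ^ (j' * r ^ k) * b ^ k) * b ^ k' := by rw [hbka]
          _ = a ^ (j + j' * r ^ k) * b ^ (k + k') := by
              rw [pow_add, pow_add]; simp only [mul_assoc]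
      one_mem' := ⟨0, 0, by simp⟩
      inv_mem' := by
        rintro _ ⟨j, k, rfl⟩
        rw [mul_inv_rev, hainv, hbinv, hbka]
        exact ⟨_, _, rfl⟩ }
  have hΓ : ∀ g, g ∈ Γ ↔ ∃ j k : ℕ, g = a ^ j * b ^ k := fun g => Iff.rfl
  refine ⟨Γ, a, b, ?_, ?_, ⟨1, 0, by simp⟩, ⟨0, 1, by simp⟩, haord, hbord, ?_, ?_⟩
  · -- finite
    have hfin : (Γ : Set (MonoV d ≃ₗᵢ[ℝ] MonoV d)).Finite := by
      apply Set.Finite.subset (s := (fun jk : ℕ × ℕ => a ^ jk.1 * b ^ jk.2) ''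
        (Set.Iio m ×ˢ Set.Iio (d ^ 3)))
      · exact ((Set.finite_Iio m).prod (Set.finite_Iio (d ^ 3))).image _
      · rintro _ ⟨j, k, rfl⟩
        refine ⟨(j % m, k % d ^ 3), ⟨Nat.mod_lt _ hm.pos, Nat.mod_lt _ (pow_pos hd0 3)⟩, ?_⟩
        simp only
        rw [← haord, ← hbord, pow_mod_orderOf, pow_mod_orderOf]
    exact hfin.to_subtype
  · -- free
    rintro _ ⟨j, k, rfl⟩ hne x hx
    by_contra hx0
    apply hne
    obtain ⟨i0, hi0⟩ : ∃ i, x i ≠ 0 := by
      by_contra hcon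
      push Not at hcon
      exact hx0 (by ext i; simpa using hcon i)
    have hrel : ∀ i : ZMod d, x i = (ζ : ℂ) ^ (j * r ^ i.val) * ((β : ℂ) ^ k * x (i + k)) := by
      intro i
      rw [← habpow, hx]
    have hiter : ∀ n : ℕ, ∃ t : ℕ, x i0 = (ζ : ℂ) ^ t * ((β : ℂ) ^ (k * n) * x (i0 + n * k)) := by
      intro n
      induction n with
      | zero => exact ⟨0, by simp⟩
      | succ n ih =>
        obtain ⟨t, ht⟩ := ih
        refine ⟨t + j * r ^ (i0 + n * k : ZMod d).val, ?_⟩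
        rw [ht, hrel (i0 + n * k)]
        have : i0 + (n : ZMod d) * k + k = i0 + ((n + 1 : ℕ) : ZMod d) * k := by push_cast; ring
        rw [this, pow_add, Nat.mul_succ, pow_add]
        ring
    obtain ⟨t, ht⟩ := hiter d
    rw [ZMod.natCast_self, zero_mul, add_zero] at ht
    have h1 : (ζ : ℂ) ^ t * (β : ℂ) ^ (k * d) = 1 := by
      have : (1 : ℂ) * x i0 = ((ζ : ℂ) ^ t * (β : ℂ) ^ (k * d)) * x i0 := by
        rw [one_mul, mul_assoc]; exact ht
      exact (mul_right_cancel₀ hi0 this).symm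
    have h2 : (β : ℂ) ^ (k * d * m) = 1 := by
      have h3 := congrArg (fun z => z ^ m) h1
      simp only [mul_pow, one_pow] at h3
      rw [← pow_mul, ← pow_mul, (hζpow _).mpr (dvd_mul_left _ _), one_mul] at h3
      exact h3
    have h3 : d ^ 3 ∣ k * d := hcop.dvd_of_dvd_mul_right ((hβpow _).mp h2)
    have h4 : d ∣ k := by
      have h5 : d ^ 2 * d ∣ k * d := by
        have e : d ^ 2 * d = d ^ 3 := by ring
        rw [e]; exact h3
      have h6 : d ^ 2 ∣ k := Nat.dvd_of_mul_dvd_mul_right hd0 h5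
      exact (dvd_pow_self d (by norm_num)).trans h6
    have hk0 : (k : ZMod d) = 0 := (ZMod.natCast_eq_zero_iff k d).mpr h4
    have h5 := hrel i0
    rw [hk0, add_zero] at h5
    have h6 : (ζ : ℂ) ^ (j * r ^ i0.val) * (β : ℂ) ^ k = 1 := by
      have : (1 : ℂ) * x i0 = ((ζ : ℂ) ^ (j * r ^ i0.val) * (β : ℂ) ^ k) * x i0 := by
        rw [one_mul, mul_assoc]; exact h5
      exact (mul_right_cancel₀ hi0 this).symm
    have h7 : (β : ℂ) ^ (k * m) = 1 := by
      have h3 := congrArg (fun z => z ^ m) h6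
      simp only [mul_pow, one_pow] at h3
      rw [← pow_mul, ← pow_mul, (hζpow _).mpr (dvd_mul_left _ _), one_mul] at h3
      exact h3
    have h8 : d ^ 3 ∣ k := hcop.dvd_of_dvd_mul_right ((hβpow _).mp h7)
    rw [(hβpow k).mpr h8, mul_one, hζpow] at h6
    have h9 : m ∣ j := by
      rcases (Nat.Prime.dvd_mul hm).mp h6 with h | h
      · exact h
      · exact absurd (hm.dvd_of_dvd_pow h) hr0
    have h10 : a ^ j = 1 := by rw [← haord] at h9; exact orderOf_dvd_iff_pow_eq_one.mp h9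
    have h11 : b ^ k = 1 := by rw [← hbord] at h8; exact orderOf_dvd_iff_pow_eq_one.mp h8
    rw [h10, h11, one_mul]
  · -- commutation
    have h1 := hba 1
    rw [pow_one, one_mul] at h1
    rw [h1, mul_inv_cancel_right]
  · -- the two points
    have hdR : (0 : ℝ) < (d : ℝ) := by exact_mod_cast hd0
    have hs : 0 < √(d : ℝ) := Real.sqrt_pos.mpr hdR
    refine ⟨WithLp.toLp 2 (Pi.single 0 (1 : ℂ)), WithLp.toLp 2 (fun _ => ((1 / √(d : ℝ) : ℝ) : ℂ)),
      ?_, ?_, ?_⟩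
    · rw [PiLp.norm_eq_of_L2]
      rw [Finset.sum_eq_single (0 : ZMod d)]
      · simp
      · intro i _ hi
        simp [Pi.single_eq_of_ne hi]
      · simp
    · rw [PiLp.norm_eq_of_L2]
      simp only [Complex.norm_real, Finset.sum_const, Finset.card_univ, ZMod.card]
      rw [Real.norm_eq_abs, sq_abs, nsmul_eq_mul, div_pow, one_pow, Real.sq_sqrt hdR.le,
        mul_one_div_cancel hdR.ne', Real.sqrt_one]
    · rintro _ ⟨j, k, rfl⟩
      rw [PiLp.inner_apply]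
      have hterm : ∀ i : ZMod d, ⟪(a ^ j * b ^ k) (WithLp.toLp 2 (Pi.single 0 (1 : ℂ))) i,
          ((1 / √(d : ℝ) : ℝ) : ℂ)⟫ ≤ if i = -(k : ZMod d) then 1 / √(d : ℝ) else 0 := by
        intro i
        refine (real_inner_le_norm _ _).trans ?_
        rw [habpow, norm_mul, norm_mul, norm_pow, norm_pow, Circle.norm_coe, Circle.norm_coe,
          one_pow, one_pow, one_mul, one_mul]
        by_cases hi : i = -(k : ZMod d)
        · rw [if_pos hi, hi, neg_add_cancel]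
          simp only [Pi.single_eq_same, norm_one, one_mul, Complex.norm_real]
          rw [Real.norm_eq_abs, abs_of_nonneg (by positivity)]
        · rw [if_neg hi]
          have : i + (k : ZMod d) ≠ 0 := fun h => hi (eq_neg_of_add_eq_zero_left h)
          simp [Pi.single_eq_of_ne this]
      refine (Finset.sum_le_sum fun i _ => hterm i).trans ?_
      rw [Finset.sum_ite_eq' Finset.univ (-(k : ZMod d)) (fun _ => 1 / √(d : ℝ))]
      simp

theorem exists_monomial (d : ℕ) (hd : 2 ≤ d) :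
    ∃ (m r : ℕ) (Γ : Subgroup (EuclideanSpace ℝ (Fin (2 * d)) ≃ₗᵢ[ℝ] EuclideanSpace ℝ (Fin (2 * d))))
      (a b : EuclideanSpace ℝ (Fin (2 * d)) ≃ₗᵢ[ℝ] EuclideanSpace ℝ (Fin (2 * d))),
      m.Prime ∧ orderOf (r : ZMod m) = d ∧ Finite Γ ∧ ActsFreely Γ ∧ a ∈ Γ ∧ b ∈ Γ ∧
      orderOf a = m ∧ orderOf b = d ^ 3 ∧ b * a * b⁻¹ = a ^ r ∧
      ∃ p q : EuclideanSpace ℝ (Fin (2 * d)), ‖p‖ = 1 ∧ ‖q‖ = 1 ∧
        ∀ γ ∈ Γ, ⟪γ p, q⟫ ≤ 1 / √(d : ℝ) := by
  haveI : NeZero d := ⟨by omega⟩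
  obtain ⟨m, hm, -, hmd⟩ := Nat.exists_prime_gt_modEq_one (k := d) 1 (by omega)
  obtain ⟨r, hr⟩ := mono_exists_r d m (by omega) hm hmd
  obtain ⟨Γ, a, b, hfin, hfree, ha, hb, hao, hbo, hab, p, q, hp, hq, hpq⟩ :=
    mono_core d m r hd hm hmd hr
  have hdim : Module.finrank ℝ (MonoV d) = 2 * d := by
    have h1 : Module.finrank ℝ (MonoV d) = Module.finrank ℝ (ZMod d → ℂ) :=
      (WithLp.linearEquiv 2 ℝ (ZMod d → ℂ)).finrank_eq
    rw [h1, Module.finrank_pi_fintype]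
    simp [mul_comm]
  let Φ : MonoV d ≃ₗᵢ[ℝ] EuclideanSpace ℝ (Fin (2 * d)) :=
    ((stdOrthonormalBasis ℝ (MonoV d)).reindex (finCongr hdim)).repr
  let Ψ : (MonoV d ≃ₗᵢ[ℝ] MonoV d) →*
      (EuclideanSpace ℝ (Fin (2 * d)) ≃ₗᵢ[ℝ] EuclideanSpace ℝ (Fin (2 * d))) :=
    { toFun := fun g => Φ.symm.trans (g.trans Φ)
      map_one' := by
        ext1 x
        change Φ (Φ.symm x) = x
        exact Φ.apply_symm_apply x
      map_mul' := by
        intro g h
        ext1 x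
        change Φ (g (h (Φ.symm x))) = Φ (g (Φ.symm (Φ (h (Φ.symm x)))))
        rw [Φ.symm_apply_apply] }
  have hΨ : ∀ g x, Ψ g x = Φ (g (Φ.symm x)) := fun g x => rfl
  have hinj : Function.Injective Ψ := by
    intro g h hgh
    ext1 x
    have h1 := congrArg (fun f : EuclideanSpace ℝ (Fin (2 * d)) ≃ₗᵢ[ℝ]
      EuclideanSpace ℝ (Fin (2 * d)) => f (Φ x)) hgh
    simp only [hΨ, Φ.symm_apply_apply] at h1
    exact Φ.injective h1
  refine ⟨m, r, Γ.map Ψ, Ψ a, Ψ b, hm, hr, ?_, ?_, Subgroup.mem_map_of_mem _ ha,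
    Subgroup.mem_map_of_mem _ hb, ?_, ?_, ?_, Φ p, Φ q, ?_, ?_, ?_⟩
  · have : ((Γ.map Ψ : Subgroup _) : Set (EuclideanSpace ℝ (Fin (2 * d)) ≃ₗᵢ[ℝ]
        EuclideanSpace ℝ (Fin (2 * d)))).Finite := by
      rw [Subgroup.coe_map]
      exact (Set.toFinite (Γ : Set (MonoV d ≃ₗᵢ[ℝ] MonoV d))).image _
    exact this.to_subtype
  · rintro _ ⟨g, hg, rfl⟩ hne x hx
    rw [hΨ] at hx
    have h1 : g (Φ.symm x) = Φ.symm x := by
      apply Φ.injective
      rw [hx, Φ.apply_symm_apply]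
    have h2 := hfree g hg (fun h => hne (by rw [h, map_one])) _ h1
    simpa using congrArg Φ h2
  · rw [orderOf_injective Ψ hinj, hao]
  · rw [orderOf_injective Ψ hinj, hbo]
  · rw [← map_inv, ← map_mul, ← map_mul, hab, map_pow]
  · rw [Φ.norm_map, hp]
  · rw [Φ.norm_map, hq]
  · rintro _ ⟨g, hg, rfl⟩
    rw [hΨ, Φ.symm_apply_apply, Φ.inner_map_map]
    exact hpq g hg

end Pool.Agent.DGP
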