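import Pool.Agent.DGP.Main1
import Pool.Agent.DGP.Mono
import Pool.Agent.DGP.IrrAll

/-!
Assembly (helper26): the order of the gap.
-/

set_option autoImplicit false

open scoped RealInnerProductSpace Topology ENNReal

namespace Pool.Agent.DGP

lemma gapCos_pos {N : ℕ} (hN : 0 < N) : 0 < gapCos N := by
  have : (0 : ℝ) < N := by exact_mod_cast hN
  unfold gapCos
  split_ifs <;> positivity

lemma orderOf_of_mulEquiv {G H : Type*} [Group G] [Group H] (e : G ≃* H) (x : G) :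
    orderOf (e x) = orderOf x := orderOf_injective e.toMonoidHom e.injective x

/-- **Theorem (order of the gap).** -/
theorem order (d : ℕ) (hd : 2 ≤ d) :
    ∃ Γ : Subgroup (EuclideanSpace ℝ (Fin (2 * d)) ≃ₗᵢ[ℝ] EuclideanSpace ℝ (Fin (2 * d))),
      Finite Γ ∧ ActsFreely Γ ∧
      ENNReal.ofReal (Real.arccos (1 / √(d : ℝ))) ≤ bdQuotDiam (Metric.closedBall 0 1) Γ ∧
      ∀ Γ' : Subgroup (EuclideanSpace ℝ (Fin (2 * d)) ≃ₗᵢ[ℝ] EuclideanSpace ℝ (Fin (2 * d))),
        Nonempty (Γ ≃* Γ') → ActsFreely Γ' →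
        bdQuotDiam (Metric.closedBall 0 1) Γ' ≤ ENNReal.ofReal (Real.arccos (gapCos (2 * d))) := by
  obtain ⟨m, r, Γ, a, b, hm, hr, hfin, hfree, ha, hb, hao, hbo, hab, p, q, hp, hq, hpq⟩ :=
    exists_monomial d hd
  have hfr : ∀ x : EuclideanSpace ℝ (Fin (2 * d)), ‖x‖ = 1 →
      x ∈ frontier (Metric.closedBall (0 : EuclideanSpace ℝ (Fin (2 * d))) 1) := by
    intro x hx
    rw [frontier_closedBall _ one_ne_zero]
    simpa using hx
  refine ⟨Γ, hfin, hfree, ?_, ?_⟩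
  · refine le_trans ?_ (le_iSup₂ (f := fun x (_ : x ∈ frontier
      (Metric.closedBall (0 : EuclideanSpace ℝ (Fin (2 * d))) 1)) =>
      ⨆ y ∈ frontier (Metric.closedBall (0 : EuclideanSpace ℝ (Fin (2 * d))) 1), ⨅ γ ∈ Γ,
        bdDist (Metric.closedBall (0 : EuclideanSpace ℝ (Fin (2 * d))) 1) (γ x) y) p (hfr p hp))
    refine le_trans ?_ (le_iSup₂ (f := fun y (_ : y ∈ frontier
      (Metric.closedBall (0 : EuclideanSpace ℝ (Fin (2 * d))) 1)) =>
      ⨅ γ ∈ Γ, bdDist (Metric.closedBall (0 : EuclideanSpace ℝ (Fin (2 * d))) 1) (γ p) y) q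
      (hfr q hq))
    refine le_iInf₂ fun γ hγ => ?_
    refine le_trans ?_ angle_le_bdDist_ball
    apply ENNReal.ofReal_le_ofReal
    rw [angle_of_unit (by rw [LinearIsometryEquiv.norm_map, hp]) hq]
    exact Real.arccos_le_arccos (hpq γ hγ)
  · rintro Γ' ⟨e⟩ hfree'
    haveI : Finite Γ' := Finite.of_equiv Γ e.toEquiv
    have hdim : Module.finrank ℝ (EuclideanSpace ℝ (Fin (2 * d))) = 2 * d := by simp
    have hirr : Irred Γ' := by
      refine irred_of_relations (a := (e ⟨a, ha⟩ : _)) (b := (e ⟨b, hb⟩ : _)) hd hm hr hdim Γ'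
        hfree' (e ⟨a, ha⟩).2 (e ⟨b, hb⟩).2 ?_ ?_ ?_
      · rw [Subgroup.orderOf_coe, orderOf_of_mulEquiv, Subgroup.orderOf_mk, hao]
      · rw [Subgroup.orderOf_coe, orderOf_of_mulEquiv, Subgroup.orderOf_mk, hbo]
      · have h1 : (⟨b, hb⟩ : Γ) * ⟨a, ha⟩ * (⟨b, hb⟩ : Γ)⁻¹ = (⟨a, ha⟩ : Γ) ^ r :=
          Subtype.ext hab
        have h2 := congrArg e h1
        rw [map_mul, map_mul, map_inv, map_pow] at h2
        exact_mod_cast congrArg Subtype.val h2
    apply bdQuotDiam_le (by omega) (convex_closedBall 0 1) (isCompact_closedBall 0 1)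
      ⟨0, by rw [interior_closedBall _ one_ne_zero]; simp⟩ curvGeOne_ball Γ'
    · intro γ _
      ext x
      constructor
      · rintro ⟨y, hy, rfl⟩
        simpa using hy
      · intro hx
        exact ⟨γ.symm x, by simpa using hx, by simp⟩
    · intro p q hp hq
      obtain ⟨γ, hγ, h⟩ := core (by omega) Γ' hfree' hirr hp hq
      exact ⟨γ, hγ, by rw [hdim] at h; exact h⟩

end Pool.Agent.DGP
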