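import Pool.Agent.DGP.Core
import Pool.Agent.DGP.Q8
import Pool.Agent.DGP.LICurv
import Pool.Agent.DGP.LIDist

/-!
Assembly (helper26): left-invariant metrics on `S³`.
-/

set_option autoImplicit false

open scoped RealInnerProductSpace Topology Quaternion

namespace Pool.Agent.DGP

noncomputable section

/-- `γ` preserves the left-invariant metric `B` on the unit sphere of `ℍ`: its differential is an isometry from the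
tangent space at `p` (the orthogonal complement of `p`) to the tangent space at `γ p`. -/
def PreservesLI (B : ImH →ₗ[ℝ] ImH →ₗ[ℝ] ℝ) (γ : ℍ[ℝ] ≃ₗᵢ[ℝ] ℍ[ℝ]) : Prop :=
  ∀ p v : ℍ[ℝ], ‖p‖ = 1 → ⟪p, v⟫ = 0 →
    B (imPart (star (γ p) * γ v)) (imPart (star (γ p) * γ v)) =
      B (imPart (star p * v)) (imPart (star p * v))

/-- The diameter of `S³/Γ` for the metric induced by the left-invariant metric `B`. -/
def liQuotDiam (B : ImH →ₗ[ℝ] ImH →ₗ[ℝ] ℝ) (Γ : Subgroup (ℍ[ℝ] ≃ₗᵢ[ℝ] ℍ[ℝ])) : ℝ :=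
  ⨆ x : Metric.sphere (0 : ℍ[ℝ]) 1 × Metric.sphere (0 : ℍ[ℝ]) 1, ⨅ γ : Γ,
    liDist B ((γ : ℍ[ℝ] ≃ₗᵢ[ℝ] ℍ[ℝ]) x.1) x.2

lemma angle_unit {p q : ℍ[ℝ]} (hp : ‖p‖ = 1) (hq : ‖q‖ = 1) :
    InnerProductGeometry.angle p q = Real.arccos ⟪p, q⟫ := by
  rw [InnerProductGeometry.angle, hp, hq]
  simp

lemma nonempty_sphere : Nonempty (Metric.sphere (0 : ℍ[ℝ]) 1) :=
  (NormedSpace.sphere_nonempty.2 zero_le_one).to_subtype

lemma orbit_le (B : ImH →ₗ[ℝ] ImH →ₗ[ℝ] ℝ) (Γ : Subgroup (ℍ[ℝ] ≃ₗᵢ[ℝ] ℍ[ℝ])) (p q : ℍ[ℝ])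
    (γ : Γ) : (⨅ γ : Γ, liDist B ((γ : ℍ[ℝ] ≃ₗᵢ[ℝ] ℍ[ℝ]) p) q) ≤
      liDist B ((γ : ℍ[ℝ] ≃ₗᵢ[ℝ] ℍ[ℝ]) p) q :=
  ciInf_le ⟨0, by rintro _ ⟨γ, rfl⟩; exact liDist_nonneg _ _⟩ γ

lemma le_liQuotDiam {B : ImH →ₗ[ℝ] ImH →ₗ[ℝ] ℝ} (hB : IsInner B)
    (hle : ∀ x : ImH, B x x ≤ ‖(x : ℍ[ℝ])‖ ^ 2) (Γ : Subgroup (ℍ[ℝ] ≃ₗᵢ[ℝ] ℍ[ℝ])) {p q : ℍ[ℝ]}
    (hp : ‖p‖ = 1) (hq : ‖q‖ = 1) :
    (⨅ γ : Γ, liDist B ((γ : ℍ[ℝ] ≃ₗᵢ[ℝ] ℍ[ℝ]) p) q) ≤ liQuotDiam B Γ := by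
  have hb : BddAbove (Set.range fun x : Metric.sphere (0 : ℍ[ℝ]) 1 × Metric.sphere (0 : ℍ[ℝ]) 1 =>
      ⨅ γ : Γ, liDist B ((γ : ℍ[ℝ] ≃ₗᵢ[ℝ] ℍ[ℝ]) x.1) x.2) := by
    refine ⟨Real.pi, ?_⟩
    rintro _ ⟨⟨⟨x, hx⟩, ⟨y, hy⟩⟩, rfl⟩
    have hx' : ‖x‖ = 1 := by simpa using hx
    have hy' : ‖y‖ = 1 := by simpa using hy
    refine (orbit_le B Γ x y 1).trans ((liDist_le_angle hB hle ?_ hy').trans
      (InnerProductGeometry.angle_le_pi _ _))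
    simpa using hx'
  exact le_ciSup hb (⟨p, by simpa using hp⟩, ⟨q, by simpa using hq⟩)

lemma liQuotDiam_le {B : ImH →ₗ[ℝ] ImH →ₗ[ℝ] ℝ} (hB : IsInner B)
    (hle : ∀ x : ImH, B x x ≤ ‖(x : ℍ[ℝ])‖ ^ 2) (Γ : Subgroup (ℍ[ℝ] ≃ₗᵢ[ℝ] ℍ[ℝ])) [Finite Γ]
    (hfree : ActsFreely Γ) (hirr : Irred Γ) : liQuotDiam B Γ ≤ Real.pi / 3 := by
  have h4 : Module.finrank ℝ ℍ[ℝ] = 4 := Quaternion.finrank_eq_four
  have hgap : gapCos 4 = 1 / 2 := by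
    rw [gapCos, if_pos (by norm_num)]
    have : √((4 : ℕ) : ℝ) = 2 := by
      rw [show ((4 : ℕ) : ℝ) = 2 ^ 2 by norm_num]
      exact Real.sqrt_sq (by norm_num)
    rw [this]
  have := nonempty_sphere
  apply ciSup_le
  rintro ⟨⟨p, hp⟩, ⟨q, hq⟩⟩
  have hp' : ‖p‖ = 1 := by simpa using hp
  have hq' : ‖q‖ = 1 := by simpa using hq
  obtain ⟨γ, hγ, h⟩ := core (by omega) Γ hfree hirr hp' hq'
  rw [h4, hgap] at h
  have hγp : ‖γ p‖ = 1 := by rw [LinearIsometryEquiv.norm_map, hp']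
  refine (orbit_le B Γ p q ⟨γ, hγ⟩).trans ((liDist_le_angle hB hle hγp hq').trans ?_)
  rw [angle_unit hγp hq']
  have h3 : Real.arccos (1 / 2) = Real.pi / 3 := by
    rw [← Real.cos_pi_div_three, Real.arccos_cos (by positivity) (by linarith [Real.pi_pos])]
  rw [← h3]
  exact Real.arccos_le_arccos h

/-- **Theorem (left-invariant metrics on `S³`).** -/
theorem leftInvariant :
    (∀ (B : ImH →ₗ[ℝ] ImH →ₗ[ℝ] ℝ), IsInner B → SecGeOne B →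
      ∀ Γ : Subgroup (ℍ[ℝ] ≃ₗᵢ[ℝ] ℍ[ℝ]), Finite Γ → (∀ γ ∈ Γ, PreservesLI B γ) →
      (∀ γ ∈ Γ, γ ≠ 1 → ∀ x : ℍ[ℝ], ‖x‖ = 1 → γ x ≠ x) →
      liQuotDiam B Γ ≤ Real.pi / 3 ∨
      ∃ B₀ : ImH →ₗ[ℝ] ImH →ₗ[ℝ] ℝ, IsInner B₀ ∧ SecGeOne B₀ ∧ (∀ γ ∈ Γ, PreservesLI B₀ γ) ∧
        Real.pi / 2 ≤ liQuotDiam B₀ Γ) ∧
    (∃ (B : ImH →ₗ[ℝ] ImH →ₗ[ℝ] ℝ) (Γ : Subgroup (ℍ[ℝ] ≃ₗᵢ[ℝ] ℍ[ℝ])), IsInner B ∧ SecGeOne B ∧
      Finite Γ ∧ (∀ γ ∈ Γ, PreservesLI B γ) ∧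
      (∀ γ ∈ Γ, γ ≠ 1 → ∀ x : ℍ[ℝ], ‖x‖ = 1 → γ x ≠ x) ∧ liQuotDiam B Γ = Real.pi / 3) := by
  obtain ⟨B₀, h1, h2, h3⟩ := exists_round
  have hle₀ : ∀ x : ImH, B₀ x x ≤ ‖(x : ℍ[ℝ])‖ ^ 2 := fun x => by
    rw [h3, real_inner_self_eq_norm_sq]
  have hpres : ∀ γ : ℍ[ℝ] ≃ₗᵢ[ℝ] ℍ[ℝ], PreservesLI B₀ γ := by
    intro γ p v hp hpv
    rw [h3, h3]
    have key : ∀ p v : ℍ[ℝ], ‖p‖ = 1 → ⟪p, v⟫ = 0 →
        ⟪((imPart (star p * v) : ImH) : ℍ[ℝ]), ((imPart (star p * v) : ImH) : ℍ[ℝ])⟫ = ‖v‖ ^ 2 := by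
      intro p v hp hpv
      have hre : (star p * v).re = 0 := by
        rw [Quaternion.inner_def] at hpv
        have : (star p * v).re = (p * star v).re := by
          simp [Quaternion.re_mul]
        rw [this]
        exact hpv
      have him : ((imPart (star p * v) : ImH) : ℍ[ℝ]) = star p * v := by
        change (star p * v).im = star p * v
        conv_rhs => rw [← Quaternion.re_add_im (star p * v), hre]
        simp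
      rw [him, real_inner_self_eq_norm_sq, norm_mul, norm_star, hp, one_mul]
    rw [key p v hp hpv, key (γ p) (γ v) (by rw [LinearIsometryEquiv.norm_map, hp])
      (by rw [LinearIsometryEquiv.inner_map_map]; exact hpv), LinearIsometryEquiv.norm_map]
  refine ⟨?_, ?_⟩
  · intro B hB hsec Γ hfin hΓ hfree
    have hF : ActsFreely Γ := by
      intro γ hγ hγ1 x hx
      by_contra hx0
      apply hfree γ hγ hγ1 ((‖x‖)⁻¹ • x)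
      · rw [norm_smul, norm_inv, norm_norm, inv_mul_cancel₀ (norm_ne_zero_iff.2 hx0)]
      · rw [map_smul, hx]
    by_cases hirr : Irred Γ
    · exact Or.inl (liQuotDiam_le hB (form_le_norm_sq hB hsec) Γ hF hirr)
    · right
      refine ⟨B₀, h1, h2, fun γ _ => hpres γ, ?_⟩
      unfold Irred at hirr
      push Not at hirr
      obtain ⟨W, hW, hbot, htop⟩ := hirr
      have hex : ∀ {W : Submodule ℝ ℍ[ℝ]}, W ≠ ⊥ → ∃ p ∈ W, ‖p‖ = 1 := by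
        intro W hW
        obtain ⟨w, hw, hne⟩ := Submodule.exists_mem_ne_zero_of_ne_bot hW
        refine ⟨(‖w‖)⁻¹ • w, W.smul_mem _ hw, ?_⟩
        rw [norm_smul, norm_inv, norm_norm, inv_mul_cancel₀ (norm_ne_zero_iff.2 hne)]
      obtain ⟨p, hpW, hp⟩ := hex hbot
      obtain ⟨q, hqW, hq⟩ := hex (W := Wᗮ) (by rwa [ne_eq, Submodule.orthogonal_eq_bot_iff])
      refine le_trans ?_ (le_liQuotDiam h1 hle₀ Γ hp hq)
      apply le_ciInf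
      intro γ
      refine le_trans ?_ (angle_le_liDist h3 (by rw [LinearIsometryEquiv.norm_map, hp]) hq)
      rw [angle_unit (by rw [LinearIsometryEquiv.norm_map, hp]) hq,
        Submodule.inner_right_of_mem_orthogonal (hW γ γ.2 p hpW) hqW, Real.arccos_zero]
  · obtain ⟨Γ, hfin, hfree, hirr, hmul, p, q, hp, hq, hpq⟩ := exists_q8_quat
    refine ⟨B₀, Γ, h1, h2, hfin, fun γ _ => hpres γ, ?_, le_antisymm ?_ ?_⟩
    · intro γ hγ hγ1 x hx h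
      have := hfree γ hγ hγ1 x h
      rw [this, norm_zero] at hx
      exact zero_ne_one hx
    · exact liQuotDiam_le h1 hle₀ Γ hfree hirr
    · refine le_trans ?_ (le_liQuotDiam h1 hle₀ Γ hp hq)
      apply le_ciInf
      intro γ
      refine le_trans ?_ (angle_le_liDist h3 (by rw [LinearIsometryEquiv.norm_map, hp]) hq)
      rw [angle_unit (by rw [LinearIsometryEquiv.norm_map, hp]) hq]
      have h3 : Real.arccos (1 / 2) = Real.pi / 3 := by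
        rw [← Real.cos_pi_div_three, Real.arccos_cos (by positivity) (by linarith [Real.pi_pos])]
      rw [← h3]
      exact Real.arccos_le_arccos (hpq γ γ.2)

end

end Pool.Agent.DGP
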