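import Mathlib

/-!
Module PGrp (size 3).  A finite `p`-group, `p` odd, in which commuting elements of order `p` generate
the same subgroup (no `Z_p × Z_p`) is cyclic.
-/

set_option autoImplicit false

namespace Pool.Agent.DGP

private lemma pGrp_pow_swap {G : Type*} [Group G] {x y c : G} (hc : ∀ g : G, g * c = c * g)
    (h : y * x = c * x * y) (n : ℕ) : y ^ n * x = c ^ n * x * y ^ n := by
  induction n with
  | zero => simp
  | succ n ih =>
    have hcn : ∀ g : G, g * c ^ n = c ^ n * g := fun g =>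
      ((show Commute g c from hc g).pow_right n)
    calc y ^ (n + 1) * x = y ^ n * (y * x) := by rw [pow_succ]; group
      _ = y ^ n * (c * x * y) := by rw [h]
      _ = (y ^ n * c) * x * y := by group
      _ = (c * y ^ n) * x * y := by rw [hc]
      _ = c * (y ^ n * x) * y := by group
      _ = c * (c ^ n * x * y ^ n) * y := by rw [ih]
      _ = c ^ (n + 1) * x * y ^ (n + 1) := by rw [pow_succ' c, pow_succ y]; group

private lemma pGrp_pow_swap' {G : Type*} [Group G] {x y c : G} (hc : ∀ g : G, g * c = c * g)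
    (h : y * x = c * x * y) (n : ℕ) : y * x ^ n = c ^ n * x ^ n * y := by
  induction n with
  | zero => simp
  | succ n ih =>
    have hcn : ∀ g : G, g * c ^ n = c ^ n * g := fun g =>
      ((show Commute g c from hc g).pow_right n)
    calc y * x ^ (n + 1) = (y * x ^ n) * x := by rw [pow_succ]; group
      _ = (c ^ n * x ^ n * y) * x := by rw [ih]
      _ = c ^ n * x ^ n * (y * x) := by group
      _ = c ^ n * x ^ n * (c * x * y) := by rw [h]
      _ = c ^ n * (x ^ n * c) * x * y := by group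
      _ = c ^ n * (c * x ^ n) * x * y := by rw [hc]
      _ = c ^ (n + 1) * x ^ (n + 1) * y := by rw [pow_succ c, pow_succ x]; group

private lemma pGrp_mul_pow {G : Type*} [Group G] {x y c : G} (hc : ∀ g : G, g * c = c * g)
    (h : y * x = c * x * y) (n : ℕ) : (x * y) ^ n = c ^ (n * (n - 1) / 2) * x ^ n * y ^ n := by
  induction n with
  | zero => simp
  | succ n ih =>
    have hcn : ∀ (m : ℕ) (g : G), g * c ^ m = c ^ m * g := fun m g =>
      ((show Commute g c from hc g).pow_right m)
    have e : (n + 1) * (n + 1 - 1) / 2 = n * (n - 1) / 2 + n := by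
      have h1 : (n + 1) * (n + 1 - 1) = n * (n - 1) + 2 * n := by
        cases n with
        | zero => simp
        | succ k => simp only [Nat.add_sub_cancel]; ring
      rw [h1, Nat.add_mul_div_left _ _ (by norm_num)]
    calc (x * y) ^ (n + 1) = (x * y) ^ n * (x * y) := pow_succ _ _
      _ = c ^ (n * (n - 1) / 2) * x ^ n * y ^ n * (x * y) := by rw [ih]
      _ = c ^ (n * (n - 1) / 2) * x ^ n * (y ^ n * x) * y := by group
      _ = c ^ (n * (n - 1) / 2) * x ^ n * (c ^ n * x * y ^ n) * y := by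
          rw [pGrp_pow_swap hc h n]
      _ = c ^ (n * (n - 1) / 2) * (x ^ n * c ^ n) * x * y ^ n * y := by group
      _ = c ^ (n * (n - 1) / 2) * (c ^ n * x ^ n) * x * y ^ n * y := by rw [hcn]
      _ = c ^ ((n + 1) * (n + 1 - 1) / 2) * x ^ (n + 1) * y ^ (n + 1) := by
          rw [e, pow_add, pow_succ x, pow_succ y]; group

theorem isCyclic_of_odd_pGroup {G : Type*} [Group G] [Finite G] {p : ℕ} (hp : p.Prime)
    (hp2 : p ≠ 2) (hG : IsPGroup p G)
    (h : ∀ a c : G, Commute a c → a ^ p = 1 → c ^ p = 1 → a ≠ 1 → c ∈ Subgroup.zpowers a) :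
    IsCyclic G := by
  haveI : Fact p.Prime := ⟨hp⟩
  induction hn : Nat.card G using Nat.strong_induction_on generalizing G with
  | _ N IH =>
  by_contra hcyc
  obtain ⟨n, hcard⟩ := IsPGroup.iff_card.mp hG
  have hn0 : n ≠ 0 := by
    rintro rfl
    rw [pow_zero, Nat.card_eq_one_iff_unique] at hcard
    haveI := hcard.1
    exact hcyc inferInstance
  obtain ⟨m, rfl⟩ := Nat.exists_eq_succ_of_ne_zero hn0
  -- proper subgroups are cyclic
  have hsub : ∀ M : Subgroup G, M ≠ ⊤ → IsCyclic M := by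
    intro M hM
    have hlt : Nat.card M < N := by
      rw [← hn]
      refine lt_of_le_of_ne (Subgroup.card_le_card_group M) ?_
      intro he
      exact hM (Subgroup.eq_top_of_card_eq M he)
    refine IH (Nat.card M) hlt (G := M) (hG.to_subgroup M) ?_ rfl
    intro a c hac ha hc ha1
    have h1 := h (a : G) (c : G) (by
      have := congrArg (Subtype.val) hac.eq
      exact this) (by exact_mod_cast congrArg Subtype.val ha)
      (by exact_mod_cast congrArg Subtype.val hc) (by
        intro h0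
        exact ha1 (Subtype.ext h0))
    obtain ⟨k, hk⟩ := h1
    refine ⟨k, Subtype.ext ?_⟩
    simpa using hk
  -- maximal subgroups
  have hmax : ∀ H : Subgroup G, H ≠ ⊤ → ∃ M : Subgroup G, Nat.card M = p ^ m ∧ H ≤ M := by
    intro H hH
    obtain ⟨k, hk⟩ := IsPGroup.iff_card.mp (hG.to_subgroup H)
    have hkm : k ≤ m := by
      by_contra hlt
      push Not at hlt
      have hk' : k ≤ m + 1 := by
        have h1 := Subgroup.card_le_card_group H
        rw [hk, hcard] at h1
        exact (Nat.pow_le_pow_iff_right hp.one_lt).mp h1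
      have hk2 : k = m + 1 := by omega
      exact hH (Subgroup.eq_top_of_card_eq H (by rw [hk, hcard, hk2]))
    obtain ⟨K, hK⟩ := Sylow.exists_subgroup_card_pow_prime_le p (m := m) (n := k)
      (by rw [hcard]; exact pow_dvd_pow _ (Nat.le_succ m)) H hk hkm
    exact ⟨K, hK⟩
  have hindex : ∀ M : Subgroup G, Nat.card M = p ^ m → M.index = p := by
    intro M hM
    have h1 := M.card_mul_index
    rw [hM, hcard, Nat.succ_eq_add_one, pow_succ] at h1
    exact Nat.eq_of_mul_eq_mul_left (pow_pos hp.pos m) h1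
  have hnormal : ∀ M : Subgroup G, Nat.card M = p ^ m → M.Normal := by
    intro M hM
    apply Subgroup.normal_of_index_eq_minFac_card
    rw [hindex M hM, hcard, Nat.Prime.pow_minFac hp (Nat.succ_ne_zero m)]
  have hne_top : ∀ M : Subgroup G, Nat.card M = p ^ m → M ≠ ⊤ := by
    rintro M hM rfl
    have := hindex _ hM
    rw [Subgroup.index_top] at this
    exact hp.one_lt.ne this
  obtain ⟨M₁, hM₁, -⟩ := hmax ⊥ (by
    intro hb
    have : Nat.card G = 1 := by
      rw [← Subgroup.card_top, ← hb, Subgroup.card_bot]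
    rw [hcard] at this
    exact (Nat.one_lt_pow (Nat.succ_ne_zero m) hp.one_lt).ne' this)
  obtain ⟨y, hy⟩ : ∃ y : G, y ∉ M₁ := by
    by_contra hcon
    push Not at hcon
    exact hne_top M₁ hM₁ (Subgroup.eq_top_iff' M₁ |>.mpr hcon)
  obtain ⟨M₂, hM₂, hyM₂⟩ := hmax (Subgroup.zpowers y) (by
    intro ht
    apply hcyc
    exact ⟨⟨y, fun g => by
      have : g ∈ (⊤ : Subgroup G) := Subgroup.mem_top g
      rw [← ht] at this
      exact this⟩⟩)
  have hyM₂' : y ∈ M₂ := hyM₂ (Subgroup.mem_zpowers y)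
  haveI := hnormal M₁ hM₁
  haveI := hnormal M₂ hM₂
  haveI hc1 : IsCyclic M₁ := hsub M₁ (hne_top M₁ hM₁)
  haveI hc2 : IsCyclic M₂ := hsub M₂ (hne_top M₂ hM₂)
  have hcomm1 : ∀ a ∈ M₁, ∀ b ∈ M₁, a * b = b * a := by
    intro a ha b hb
    have := (IsCyclic.commGroup (α := M₁)).mul_comm ⟨a, ha⟩ ⟨b, hb⟩
    exact congrArg Subtype.val this
  have hcomm2 : ∀ a ∈ M₂, ∀ b ∈ M₂, a * b = b * a := by
    intro a ha b hb
    have := (IsCyclic.commGroup (α := M₂)).mul_comm ⟨a, ha⟩ ⟨b, hb⟩
    exact congrArg Subtype.val this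
  -- the intersection is central
  have hcen : ∀ z ∈ M₁ ⊓ M₂, ∀ g : G, g * z = z * g := by
    intro z hz g
    have h1 : M₁ ≤ Subgroup.centralizer {z} := by
      intro a ha
      rw [Subgroup.mem_centralizer_singleton_iff]
      exact (hcomm1 a ha z hz.1)
    have h2 : M₂ ≤ Subgroup.centralizer {z} := by
      intro a ha
      rw [Subgroup.mem_centralizer_singleton_iff]
      exact (hcomm2 a ha z hz.2)
    have h3 : Subgroup.centralizer {z} = ⊤ := by
      by_contra hne
      obtain ⟨K, hK, hle⟩ := hmax _ hne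
      have e1 : M₁ = K := Subgroup.eq_of_le_of_card_ge (h1.trans hle) (by rw [hK, hM₁])
      exact hy (e1 ▸ (hle (h2 hyM₂')))
    have h4 : g ∈ Subgroup.centralizer {z} := h3 ▸ Subgroup.mem_top g
    exact Subgroup.mem_centralizer_singleton_iff.mp h4
  have hpow : ∀ x : G, x ^ p ∈ M₁ ⊓ M₂ := by
    intro x
    refine ⟨?_, ?_⟩
    · have := M₁.pow_index_mem x
      rwa [hindex M₁ hM₁] at this
    · have := M₂.pow_index_mem x
      rwa [hindex M₂ hM₂] at this
  have hquot : ∀ M : Subgroup G, M.Normal → M.index = p → ∀ x y : G, y * x * y⁻¹ * x⁻¹ ∈ M := by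
    intro M hMn hMi x y
    haveI := hMn
    have hc : Nat.card (G ⧸ M) = p := hMi
    haveI : IsCyclic (G ⧸ M) := isCyclic_of_prime_card hc
    have hcm : (y : G ⧸ M) * (x : G ⧸ M) = (x : G ⧸ M) * (y : G ⧸ M) :=
      (IsCyclic.commGroup (α := G ⧸ M)).mul_comm _ _
    rw [← QuotientGroup.eq_one_iff, QuotientGroup.mk_mul, QuotientGroup.mk_mul,
      QuotientGroup.mk_mul, QuotientGroup.mk_inv, QuotientGroup.mk_inv, hcm]
    group
  have hcomm : ∀ x y : G, y * x * y⁻¹ * x⁻¹ ∈ M₁ ⊓ M₂ := fun x y =>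
    ⟨hquot M₁ inferInstance (hindex M₁ hM₁) x y, hquot M₂ inferInstance (hindex M₂ hM₂) x y⟩
  have hhom : ∀ x y : G, (x * y) ^ p = x ^ p * y ^ p := by
    intro x y
    set c := y * x * y⁻¹ * x⁻¹ with hcdef
    have hcc : ∀ g : G, g * c = c * g := hcen c (hcomm x y)
    have hyx : y * x = c * x * y := by rw [hcdef]; group
    have hcp : c ^ p = 1 := by
      have h1 := pGrp_pow_swap' hcc hyx p
      have h2 := hcen (x ^ p) (hpow x) y
      rw [h2] at h1
      have h3 : c ^ p * (x ^ p * y) = 1 * (x ^ p * y) := by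
        rw [one_mul, ← mul_assoc]; exact h1.symm
      exact mul_right_cancel h3
    rw [pGrp_mul_pow hcc hyx p]
    have hodd : p * (p - 1) / 2 = p * ((p - 1) / 2) := by
      rw [Nat.mul_div_assoc]
      have : Odd p := hp.odd_of_ne_two hp2
      obtain ⟨k, hk⟩ := this
      exact ⟨k, by omega⟩
    rw [hodd, pow_mul, hcp, one_pow, one_mul]
  let f : G →* G :=
    { toFun := fun x => x ^ p
      map_one' := one_pow p
      map_mul' := hhom }
  have hrange : f.range ≤ M₁ ⊓ M₂ := by
    rintro _ ⟨x, rfl⟩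
    exact hpow x
  have hZlt : Nat.card (M₁ ⊓ M₂ : Subgroup G) * p ≤ p ^ m := by
    obtain ⟨k, hk⟩ := IsPGroup.iff_card.mp (hG.to_subgroup (M₁ ⊓ M₂))
    have hle : k ≤ m := by
      have h1 : Nat.card (M₁ ⊓ M₂ : Subgroup G) ≤ Nat.card M₁ :=
        Subgroup.card_le_of_le inf_le_left
      rw [hk, hM₁] at h1
      exact (Nat.pow_le_pow_iff_right hp.one_lt).mp h1
    have hne : k ≠ m := by
      rintro rfl
      have e1 : M₁ ⊓ M₂ = M₂ := Subgroup.eq_of_le_of_card_ge inf_le_right (by rw [hk, hM₂])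
      have : y ∈ M₁ ⊓ M₂ := by rw [e1]; exact hyM₂'
      exact hy this.1
    rw [hk, ← pow_succ]
    exact Nat.pow_le_pow_right hp.pos (by omega)
  have hker : p * p ≤ Nat.card f.ker := by
    have h1 : Nat.card f.ker * Nat.card f.range = Nat.card G := by
      rw [← Subgroup.index_ker, Subgroup.card_mul_index]
    have h2 : Nat.card f.range ≤ Nat.card (M₁ ⊓ M₂ : Subgroup G) := Subgroup.card_le_of_le hrange
    have h3 : 0 < Nat.card f.range := Nat.card_pos
    rw [hcard, Nat.succ_eq_add_one, pow_succ] at h1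
    by_contra hlt
    push Not at hlt
    have h4 : Nat.card f.ker * Nat.card f.range < p * p * Nat.card f.range :=
      Nat.mul_lt_mul_of_pos_right hlt h3
    have h5 : p * p * Nat.card f.range ≤ p ^ m * p := by
      calc p * p * Nat.card f.range ≤ p * p * Nat.card (M₁ ⊓ M₂ : Subgroup G) :=
            Nat.mul_le_mul_left _ h2
        _ = (Nat.card (M₁ ⊓ M₂ : Subgroup G) * p) * p := by ring
        _ ≤ p ^ m * p := Nat.mul_le_mul_right _ hZlt
    omega
  -- a central element of order `p`
  haveI : Nontrivial G := by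
    rw [← Finite.one_lt_card_iff_nontrivial, hcard]
    exact Nat.one_lt_pow (Nat.succ_ne_zero m) hp.one_lt
  haveI hcn : Nontrivial (Subgroup.center G) := hG.center_nontrivial
  have hpc : p ∣ Nat.card (Subgroup.center G) := by
    obtain ⟨k, hk⟩ := IsPGroup.iff_card.mp (hG.to_subgroup (Subgroup.center G))
    have h1 : 1 < Nat.card (Subgroup.center G) := Finite.one_lt_card
    rw [hk] at h1 ⊢
    refine dvd_pow_self p ?_
    rintro rfl
    simp at h1
  obtain ⟨a, ha⟩ := exists_prime_orderOf_dvd_card' (G := Subgroup.center G) p hpc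
  have ha' : orderOf (a : G) = p := by rw [Subgroup.orderOf_coe]; exact ha
  have hac : Nat.card (Subgroup.zpowers (a : G)) = p := by rw [Nat.card_zpowers, ha']
  obtain ⟨c, hc, hcn⟩ : ∃ c ∈ f.ker, c ∉ Subgroup.zpowers (a : G) := by
    by_contra hcon
    push Not at hcon
    have hle : f.ker ≤ Subgroup.zpowers (a : G) := hcon
    have h1 := Subgroup.card_le_of_le hle
    rw [hac] at h1
    have h2 := hker.trans h1
    have h3 := hp.one_lt
    nlinarith
  refine hcn (h (a : G) c ?_ ?_ ?_ ?_)
  · exact ((Subgroup.mem_center_iff.mp a.2) c).symm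
  · rw [← ha']; exact pow_orderOf_eq_one _
  · exact hc
  · intro h1
    rw [h1, orderOf_one] at ha'
    exact hp.one_lt.ne ha'

end Pool.Agent.DGP
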