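import Pool.Agent.DGP.Sums

/-!
Module PQ (size 2).  Freely acting groups contain no `Z_p × Z_p` and no nonabelian group of order `pq`.

(1) Suppose `a, c` commute, `a^p = c^p = 1`, `a ≠ 1`, `c ∉ ⟨a⟩`.  For `0 ≤ i < p` the element
`a^i c` is a nontrivial element of order `p` of `Γ`, so `∑_{j<p} (a^i c)^j x = 0`
(`sum_pow_eq_zero`).  Summing over `i < p`:
`0 = ∑_j (∑_i a^{ij}) c^j x = p • x + ∑_{0<j<p} (∑_i a^{ij}) c^j x`, and for `0 < j < p` the element
`a^j` is nontrivial of order `p`, so `∑_i (a^j)^i y = 0`.  Hence `p • x = 0`, a contradiction for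
`x ≠ 0`.

(2) Let `c a c⁻¹ = a^r`, `a^q = 1`, `c^p = 1`, and suppose that `a, c` do not commute (so `a ≠ 1`,
`c ≠ 1` and `q ∤ r - 1`).  For `0 < j < p` we have `q ∤ r^j - 1` (otherwise `r^j = 1` and `r^p = 1` mod
`q` give `r = 1`, as `j, p` are coprime).  The elements `a^i c a^{-i}`, `0 ≤ i < q`, are nontrivial
of order `p`, so `∑_{j<p} a^i c^j a^{-i} x = 0`, and `a^i c^j a^{-i} = a^{i (1 - r^j)} c^j`
(because `c^j a^{-i} c^{-j} = a^{-i r^j}`).  Summing over `i < q`: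
`0 = q • x + ∑_{0<j<p} (∑_i (a^{1-r^j})^i) c^j x = q • x`, because `a^{1-r^j}` is a nontrivial
element of order `q`.  Contradiction.
-/

set_option autoImplicit false

open scoped RealInnerProductSpace

namespace Pool.Agent.DGP

variable {E : Type*} [NormedAddCommGroup E] [InnerProductSpace ℝ E]

private lemma apply_pow_mul (g h : E ≃ₗᵢ[ℝ] E) (x : E) : (g * h) x = g (h x) := rfl

/-- no `Z_p × Z_p` -/
theorem mem_zpowers_of_commute [Nontrivial E] {Γ : Subgroup (E ≃ₗᵢ[ℝ] E)} (hfree : ActsFreely Γ)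
    {p : ℕ} (hp : p.Prime) {a c : E ≃ₗᵢ[ℝ] E} (ha : a ∈ Γ) (hc : c ∈ Γ) (hac : Commute a c)
    (hap : a ^ p = 1) (hcp : c ^ p = 1) (ha1 : a ≠ 1) : c ∈ Subgroup.zpowers a := by
  by_contra hcn
  obtain ⟨x, hx⟩ := exists_ne (0 : E)
  have hne : ∀ i : ℕ, a ^ i * c ≠ 1 := by
    intro i h
    apply hcn
    have : c = (a ^ i)⁻¹ := (eq_inv_of_mul_eq_one_right h)
    rw [this]
    exact inv_mem (Subgroup.npow_mem_zpowers a i)
  have hord : ∀ i : ℕ, (a ^ i * c) ^ p = 1 := by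
    intro i
    rw [(hac.pow_left i).mul_pow, ← pow_mul, mul_comm i p, pow_mul, hap, one_pow, hcp, one_mul]
  have h1 : ∀ i : ℕ, ∑ j ∈ Finset.range p, ((a ^ i * c) ^ j) x = 0 := by
    intro i
    apply sum_pow_eq_zero (hord i)
    exact hfree _ (Γ.mul_mem (Γ.pow_mem ha i) hc) (hne i)
  have hapj : ∀ j : ℕ, 0 < j → j < p → a ^ j ≠ 1 := by
    intro j hj hjp h
    apply ha1
    have hco : Nat.Coprime j p := (Nat.coprime_of_lt_prime hj.ne' hjp hp).symm
    have hd : orderOf a ∣ Nat.gcd j p :=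
      Nat.dvd_gcd (orderOf_dvd_of_pow_eq_one h) (orderOf_dvd_of_pow_eq_one hap)
    rw [hco] at hd
    exact orderOf_eq_one_iff.1 (Nat.dvd_one.1 hd)
  have h2 : ∀ j : ℕ, 0 < j → j < p → ∀ y : E, ∑ i ∈ Finset.range p, ((a ^ j) ^ i) y = 0 := by
    intro j hj hjp y
    apply sum_pow_eq_zero
    · rw [← pow_mul, mul_comm, pow_mul, hap, one_pow]
    · exact hfree _ (Γ.pow_mem ha j) (hapj j hj hjp)
  have h3 : ∑ i ∈ Finset.range p, ∑ j ∈ Finset.range p, ((a ^ i * c) ^ j) x = 0 :=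
    Finset.sum_eq_zero fun i _ => h1 i
  rw [Finset.sum_comm] at h3
  have h4 : ∀ j ∈ Finset.range p, ∑ i ∈ Finset.range p, ((a ^ i * c) ^ j) x =
      if j = 0 then (p : ℝ) • x else 0 := by
    intro j hj
    rw [Finset.mem_range] at hj
    have h5 : ∀ i : ℕ, ((a ^ i * c) ^ j) x = ((a ^ j) ^ i) ((c ^ j) x) := by
      intro i
      rw [(hac.pow_left i).mul_pow, ← pow_mul, ← pow_mul, mul_comm i j]
      rfl
    simp only [h5]
    split_ifs with h0
    · subst h0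
      simp [← Nat.cast_smul_eq_nsmul ℝ]
    · exact h2 j (Nat.pos_of_ne_zero h0) hj _
  rw [Finset.sum_congr rfl h4, Finset.sum_ite_eq' (Finset.range p) 0,
    if_pos (Finset.mem_range.2 hp.pos)] at h3
  rcases smul_eq_zero.1 h3 with h | h
  · exact hp.ne_zero (by exact_mod_cast h)
  · exact hx h

/-- no nonabelian group of order `p q` -/
theorem commute_of_prime [Nontrivial E] {Γ : Subgroup (E ≃ₗᵢ[ℝ] E)} (hfree : ActsFreely Γ)
    {p q : ℕ} (hp : p.Prime) (hq : q.Prime) (hpq : p ≠ q) {a c : E ≃ₗᵢ[ℝ] E} (ha : a ∈ Γ)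
    (hc : c ∈ Γ) (haq : a ^ q = 1) (hcp : c ^ p = 1)
    (hnorm : c * a * c⁻¹ ∈ Subgroup.zpowers a) : Commute a c := by
  by_contra hcomm
  obtain ⟨x, hx⟩ := exists_ne (0 : E)
  obtain ⟨r, hr⟩ := Subgroup.mem_zpowers_iff.1 hnorm
  have ha1 : a ≠ 1 := by
    rintro rfl
    exact hcomm (Commute.one_left c)
  have hc1 : c ≠ 1 := by
    rintro rfl
    exact hcomm (Commute.one_right a)
  have hqf : Fact q.Prime := ⟨hq⟩
  have hoa : orderOf a = q := orderOf_eq_prime haq ha1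
  -- conjugation by `c ^ j`
  have hconj : ∀ j : ℕ, c ^ j * a * (c ^ j)⁻¹ = a ^ (r ^ j) := by
    intro j
    induction j with
    | zero => simp
    | succ j ih =>
      have h1 : c ^ (j + 1) * a * (c ^ (j + 1))⁻¹ = c * (c ^ j * a * (c ^ j)⁻¹) * c⁻¹ := by
        rw [pow_succ']
        group
      rw [h1, ih]
      have h2 : c * a ^ (r ^ j) * c⁻¹ = (c * a * c⁻¹) ^ (r ^ j) := by
        rw [conj_zpow]
      rw [h2, ← hr, ← zpow_mul, pow_succ']
  have hr1 : ¬ (q : ℤ) ∣ r - 1 := by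
    intro h
    apply hcomm
    have h1 : a ^ (r - 1) = 1 := by
      rw [← orderOf_dvd_iff_zpow_eq_one, hoa]
      exact h
    have h2 : c * a * c⁻¹ = a := by
      rw [← hr]
      have : a ^ r = a ^ (r - 1) * a := by rw [zpow_sub_one, inv_mul_cancel_right]
      rw [this, h1, one_mul]
    have h3 : c * a = a * c := by
      rw [mul_inv_eq_iff_eq_mul] at h2
      exact h2
    exact h3.symm
  have hrp : (q : ℤ) ∣ r ^ p - 1 := by
    have h1 := hconj p
    rw [hcp] at h1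
    simp only [one_mul, inv_one, mul_one] at h1
    rw [← hoa, orderOf_dvd_iff_zpow_eq_one, zpow_sub_one, ← h1, mul_inv_cancel]
  have hrj : ∀ j : ℕ, 0 < j → j < p → ¬ (q : ℤ) ∣ r ^ j - 1 := by
    intro j hj hjp h
    apply hr1
    have e1 : (r : ZMod q) ^ j = 1 := by
      have := (ZMod.intCast_zmod_eq_zero_iff_dvd (r ^ j - 1) q).2 h
      push_cast at this
      exact sub_eq_zero.1 this
    have e2 : (r : ZMod q) ^ p = 1 := by
      have := (ZMod.intCast_zmod_eq_zero_iff_dvd (r ^ p - 1) q).2 hrp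
      push_cast at this
      exact sub_eq_zero.1 this
    have hco : Nat.Coprime j p := (Nat.coprime_of_lt_prime hj.ne' hjp hp).symm
    have hd : orderOf (r : ZMod q) ∣ Nat.gcd j p :=
      Nat.dvd_gcd (orderOf_dvd_of_pow_eq_one e1) (orderOf_dvd_of_pow_eq_one e2)
    rw [hco] at hd
    have e3 : (r : ZMod q) = 1 := orderOf_eq_one_iff.1 (Nat.dvd_one.1 hd)
    apply (ZMod.intCast_zmod_eq_zero_iff_dvd (r - 1) q).1
    push_cast
    rw [e3, sub_self]
  -- the conjugates of `c`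
  have h1 : ∀ i : ℕ, ∑ j ∈ Finset.range p, ((a ^ i * c * (a ^ i)⁻¹) ^ j) x = 0 := by
    intro i
    apply sum_pow_eq_zero
    · rw [conj_pow, hcp, mul_one, mul_inv_cancel]
    · apply hfree _ (Γ.mul_mem (Γ.mul_mem (Γ.pow_mem ha i) hc) (Γ.inv_mem (Γ.pow_mem ha i)))
      intro h
      apply hc1
      rw [mul_inv_eq_one] at h
      exact mul_left_cancel (h.trans (mul_one _).symm)
  have h2 : ∀ i j : ℕ, (a ^ i * c * (a ^ i)⁻¹) ^ j = (a ^ (1 - r ^ j)) ^ i * c ^ j := by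
    intro i j
    rw [conj_pow]
    have e1 : c ^ j * (a ^ i)⁻¹ * (c ^ j)⁻¹ = (a ^ (r ^ j)) ^ (-(i : ℤ)) := by
      rw [← hconj j, conj_zpow, zpow_neg, zpow_natCast]
    have e2 : c ^ j * (a ^ i)⁻¹ = (a ^ (r ^ j)) ^ (-(i : ℤ)) * c ^ j := by
      rw [← e1]
      group
    rw [mul_assoc, e2, ← mul_assoc, ← zpow_mul, ← zpow_natCast a i, ← zpow_add,
      ← zpow_natCast (a ^ (1 - r ^ j)) i, ← zpow_mul]
    congr 2
    ring
  have h3 : ∑ i ∈ Finset.range q, ∑ j ∈ Finset.range p, ((a ^ i * c * (a ^ i)⁻¹) ^ j) x = 0 :=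
    Finset.sum_eq_zero fun i _ => h1 i
  rw [Finset.sum_comm] at h3
  have h4 : ∀ j ∈ Finset.range p, ∑ i ∈ Finset.range q, ((a ^ i * c * (a ^ i)⁻¹) ^ j) x =
      if j = 0 then (q : ℝ) • x else 0 := by
    intro j hj
    rw [Finset.mem_range] at hj
    split_ifs with h0
    · subst h0
      simp [← Nat.cast_smul_eq_nsmul ℝ]
    · have h5 : ∀ i : ℕ, ((a ^ i * c * (a ^ i)⁻¹) ^ j) x =
          ((a ^ (1 - r ^ j)) ^ i) ((c ^ j) x) := by
        intro i
        rw [h2]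
        rfl
      simp only [h5]
      apply sum_pow_eq_zero
      · rw [← zpow_natCast, ← zpow_mul, mul_comm, zpow_mul, zpow_natCast, haq, one_zpow]
      · apply hfree _ (Γ.zpow_mem ha _)
        intro h
        apply hrj j (Nat.pos_of_ne_zero h0) hj
        rw [← orderOf_dvd_iff_zpow_eq_one, hoa] at h
        rw [← dvd_neg]
        simpa using h
  rw [Finset.sum_congr rfl h4, Finset.sum_ite_eq' (Finset.range p) 0,
    if_pos (Finset.mem_range.2 hp.pos)] at h3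
  rcases smul_eq_zero.1 h3 with h | h
  · exact hq.ne_zero (by exact_mod_cast h)
  · exact hx h

end Pool.Agent.DGP
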