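import Pool.Agent.DGP.PQ
import Pool.Agent.DGP.Center

/-!
Module Struct (size 5).  Let `Γ` be a finite group of odd order of linear isometries of `E`,
`dim E ≥ 2`, acting freely and irreducibly.  Then `dim E ≡ 2` mod 4.

Notation: for `g ∈ Γ` put `S_g = g + g⁻¹`, a self-adjoint operator.
`S_{g^{k+1}} = S_g S_{g^k} - S_{g^{k-1}}`, so all `S_{g^k}` are polynomials in `S_g`.
`Γ ≠ ⊥` (otherwise every line is invariant).

(A) Abelian case.  Let `C` be a finite abelian group of odd order, `C ≠ ⊥`, acting freely and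
irreducibly on a nonzero space `F` (here `F` is `E` or an invariant subspace of `E` for a subgroup).  Then `dim F = 2`.
For `g ∈ C` the operator `S_g` is self-adjoint and commutes with `C`; an eigenspace is invariant, so
`S_g = 2 cos θ_g` is scalar.  Take `g₀ ∈ C`, `g₀ ≠ 1`.  Then `g₀² = 2 cos θ g₀ - 1`, and
`sin θ ≠ 0` (otherwise `(g₀ ∓ 1)² = 0`, so `g₀ = ± 1` as `g₀` is an isometry, impossible for an element of
odd order `≠ 1`).  `J := (g₀ - cos θ)/sin θ` satisfies `J² = -1`, `J* = -J`, and commutes with `C`.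
For `g ∈ C` let `K = g - cos θ_g`, skew-adjoint.  `K J` is self-adjoint and
commutes with `C`, so it is a scalar `μ`, and `K = -μ J`.  So for `v ≠ 0` the space `span (v, J v)` is
invariant under `C`; it has dimension 2 and is everything by irreducibility.
(If you prefer: dim F = 2 by any other argument, e.g. complex eigenvectors.)

(B) General case.  By `mem_zpowers_of_commute` and `isZGroup_of_odd`, `Γ` is a Z-group.  Let
`N = commutator Γ`, cyclic with generator `a`; `Γ/N` is cyclic.  If `N = ⊥` then `Γ` is abelian and (A)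
gives `dim E = 2`.  Let `N ≠ ⊥`.  Let `E = ⊕ E_i` be the decomposition into the eigenspaces of the
self-adjoint operator `S_a`.  For `γ ∈ Γ` we have `γ a γ⁻¹ = a^r`, so `γ S_a γ⁻¹ = S_{a^r}` is a
polynomial in `S_a` (and conversely `S_a` is a polynomial in `S_{a^r}`).  Hence `γ E_i` is an
eigenspace of `S_a`: so `Γ` permutes the `E_i`, transitively by irreducibility.  So the number `t` of
the eigenspaces divides `|Γ|` and is odd, and `dim E = t dim E_1`.  It remains: `dim E_1 = 2`.
Let `Γ₁` be the stabiliser of `E_1` and `γ ∈ Γ₁`, `γ a γ⁻¹ = a^r`.  On `E_1` we have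
`a^r + a^{-r} = a + a^{-1}` (both sides are the same scalar), i.e. `(a^{r-1} - 1)(a^{r+1} - 1) = 0` on `E_1`
(multiply by `a^r`).  By freeness `a^{r-1} = 1` or `a^{r+1} = 1`.  In the second case
`γ a γ⁻¹ = a⁻¹`, `γ²` commutes with `a`, and `γ` has odd order, so `γ` commutes with `a`, `a = a⁻¹`,
`a² = 1`, `a = 1`: contradiction.  So `Γ₁` centralises `N`.  `N` is central in the centraliser of `N`
(contained in it because `N` is abelian) and the
quotient is cyclic, so the centraliser of `N`, hence `Γ₁`, is abelian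
(`commutative_of_cyclic_center_quotient`).  `Γ₁` acts irreducibly on `E_1`: if
`W ≤ E_1` is `Γ₁`-invariant then `∑_γ γ W` is `Γ`-invariant, and its intersection with
`E_1` is `W` (the sum of the `E_i` is direct and `γ W = W` for `γ ∈ Γ₁`).  `Γ₁ ≠ ⊥` as it contains `N`.
So `dim E_1 = 2` by (A).
-/

set_option autoImplicit false

open scoped RealInnerProductSpace

namespace Pool.Agent.DGP

/-- a finite Z-group has a self-centralising normal cyclic subgroup -/
private theorem struct_selfcent {G : Type*} [Group G] [Finite G] [IsZGroup G] :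
    ∃ b : G, (Subgroup.zpowers b).Normal ∧ ∀ g : G, g * b = b * g → g ∈ Subgroup.zpowers b := by
  have hN : IsCyclic (commutator G) := IsZGroup.isCyclic_commutator G
  have hNab : ∀ x ∈ commutator G, ∀ y ∈ commutator G, x * y = y * x := by
    intro x hx y hy
    have := IsCyclic.isMulCommutative.is_comm.comm (⟨x, hx⟩ : commutator G) ⟨y, hy⟩
    exact congrArg Subtype.val this
  set C : Subgroup G := Subgroup.centralizer (commutator G : Set G) with hC
  have hNC : commutator G ≤ C := by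
    intro x hx
    rw [hC, Subgroup.mem_centralizer_iff]
    intro y hy
    exact hNab y hy x hx
  have hcomm : ∀ x y : C, x * y = y * x := by
    intro x y
    refine (MonoidHom.isMulCommutative_of_isCyclic_of_ker_le_center ((Abelianization.of (G := G)).comp C.subtype) ?_).is_comm.comm x y
    intro z hz
    rw [MonoidHom.mem_ker] at hz
    have hz' : (z : G) ∈ commutator G := by
      rw [← Abelianization.ker_of, MonoidHom.mem_ker]
      exact hz
    rw [Subgroup.mem_center_iff]
    intro w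
    apply Subtype.ext
    have hw : (w : G) ∈ Subgroup.centralizer (commutator G : Set G) := w.2
    rw [Subgroup.mem_centralizer_iff] at hw
    exact (hw _ hz').symm
  have hcyc : IsCyclic C := by
    let _ : CommGroup C := { (inferInstance : Group C) with mul_comm := hcomm }
    infer_instance
  obtain ⟨b, hb⟩ := hcyc.exists_generator
  have hCb : C = Subgroup.zpowers (b : G) := by
    ext x
    constructor
    · intro hx
      obtain ⟨k, hk⟩ := Subgroup.mem_zpowers_iff.1 (hb ⟨x, hx⟩)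
      exact Subgroup.mem_zpowers_iff.2 ⟨k, by have := congrArg Subtype.val hk; simpa using this⟩
    · intro hx
      obtain ⟨k, hk⟩ := Subgroup.mem_zpowers_iff.1 hx
      rw [← hk]
      exact C.zpow_mem b.2 k
  refine ⟨b, ?_, ?_⟩
  · rw [← hCb]; infer_instance
  · intro g hg
    rw [← hCb, hC, Subgroup.mem_centralizer_iff]
    intro y hy
    have : y ∈ Subgroup.zpowers (b : G) := by rw [← hCb]; exact hNC hy
    obtain ⟨k, hk⟩ := Subgroup.mem_zpowers_iff.1 this
    rw [← hk]
    have : Commute g (b : G) := hg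
    exact (this.zpow_right k).eq.symm

private theorem struct_odd {G : Type*} [Group G] [Finite G] (hodd : Odd (Nat.card G)) {δ b : G}
    (h : δ * b * δ⁻¹ = b⁻¹) : b = 1 := by
  have h2 : Commute (δ ^ 2) b := by
    have e : δ * b = b⁻¹ * δ := by rw [← h]; group
    have e' : δ * b⁻¹ = b * δ := by
      have := congrArg (fun z => z⁻¹) h
      simp only [mul_inv_rev, inv_inv] at this
      nth_rewrite 2 [← this]; group
    show δ ^ 2 * b = b * δ ^ 2
    rw [pow_two, mul_assoc, e, ← mul_assoc, e', mul_assoc]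
  obtain ⟨k, hk⟩ := hodd
  have h3 : δ ^ (2 * k + 1) = 1 := by rw [← hk]; exact pow_card_eq_one'
  have h4 : Commute δ b := by
    have h5 : δ = ((δ ^ 2) ^ k)⁻¹ := by
      rw [← pow_mul, eq_inv_iff_mul_eq_one, ← pow_succ']; exact h3
    rw [h5]
    exact (h2.pow_left k).inv_left
  have h6 : b = b⁻¹ := by
    rw [← h, h4.eq]; group
  have h7 : b ^ 2 = 1 := by rw [pow_two]; nth_rewrite 2 [h6]; group
  have h8 : b ^ (2 * k + 1) = 1 := by rw [← hk]; exact pow_card_eq_one'
  rw [pow_succ, pow_mul, h7, one_pow, one_mul] at h8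
  exact h8


variable {E : Type*} [NormedAddCommGroup E] [InnerProductSpace ℝ E]

/-- the values of `β^n + β^(-n)` on an eigenspace of `β + β⁻¹` -/
private noncomputable def structT (l : ℝ) : ℕ → ℝ
  | 0 => 2
  | 1 => l
  | n + 2 => l * structT l (n + 1) - structT l n

private theorem struct_T (β : E ≃ₗᵢ[ℝ] E) {l : ℝ} {x : E} (hx : β x + β⁻¹ x = l • x) :
    ∀ n : ℕ, (β ^ n) x + ((β ^ n)⁻¹) x = structT l n • x ∧
      (β ^ (n + 1)) x + ((β ^ (n + 1))⁻¹) x = structT l (n + 1) • x := by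
  intro n
  induction n with
  | zero =>
    constructor
    · simp only [pow_zero, inv_one, LinearIsometryEquiv.coe_one, id, structT, two_smul]
    · simpa only [zero_add, pow_one, structT] using hx
  | succ n ih =>
    refine ⟨ih.2, ?_⟩
    have h1 : β ((β ^ (n + 1)) x + ((β ^ (n + 1))⁻¹) x) + β⁻¹ ((β ^ (n + 1)) x + ((β ^ (n + 1))⁻¹) x) =
        ((β ^ (n + 1 + 1)) x + ((β ^ (n + 1 + 1))⁻¹) x) + ((β ^ n) x + ((β ^ n)⁻¹) x) := by
      have e1 : β ((β ^ (n + 1)) x) = (β ^ (n + 1 + 1)) x := by rw [pow_succ' β (n + 1)]; rfl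
      have e2 : β (((β ^ (n + 1))⁻¹) x) = ((β ^ n)⁻¹) x := by
        have : β * (β ^ (n + 1))⁻¹ = (β ^ n)⁻¹ := by rw [pow_succ, mul_inv_rev]; group
        rw [← this]; rfl
      have e3 : β⁻¹ ((β ^ (n + 1)) x) = (β ^ n) x := by
        have : β⁻¹ * (β ^ (n + 1)) = (β ^ n) := by rw [pow_succ']; group
        rw [← this]; rfl
      have e4 : β⁻¹ (((β ^ (n + 1))⁻¹) x) = ((β ^ (n + 1 + 1))⁻¹) x := by
        have : β⁻¹ * (β ^ (n + 1))⁻¹ = (β ^ (n + 1 + 1))⁻¹ := by rw [pow_succ β (n + 1), mul_inv_rev]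
        rw [← this]; rfl
      rw [map_add, map_add, e1, e2, e3, e4]
      abel
    rw [ih.2, map_smul, map_smul, ← smul_add, hx, ih.1] at h1
    have h2 := eq_sub_of_add_eq h1.symm
    rw [h2, structT, sub_smul, smul_smul, mul_comm]

/-- two commuting elements with the same trace on a vector -/
private theorem struct_two {Γ : Subgroup (E ≃ₗᵢ[ℝ] E)} (hfree : ActsFreely Γ) {p q : E ≃ₗᵢ[ℝ] E}
    (hp : p ∈ Γ) (hq : q ∈ Γ) (hpq : p * q = q * p) {v : E} (hv : v ≠ 0)
    (h : p v + p⁻¹ v = q v + q⁻¹ v) : p = q ∨ p = q⁻¹ := by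
  by_contra hcon
  push Not at hcon
  obtain ⟨h1, h2⟩ := hcon
  have hw : (p * q⁻¹) ((p * q) v - v) = (p * q) v - v := by
    have e1 : (p * q⁻¹) ((p * q) v) = (p * p) v := by
      have : (p * q⁻¹) * (p * q) = p * p := by
        have hc : q⁻¹ * p = p * q⁻¹ := by
          rw [inv_mul_eq_iff_eq_mul, ← mul_assoc, ← hpq, mul_inv_cancel_right]
        calc (p * q⁻¹) * (p * q) = p * (q⁻¹ * p) * q := by group
          _ = p * p := by rw [hc]; group
      rw [← this]; rfl
    have e2 : p (p v + p⁻¹ v) = p (q v + q⁻¹ v) := congrArg p h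
    have e3 : p (p⁻¹ v) = v := by
      show (p * p⁻¹) v = v
      rw [mul_inv_cancel]; rfl
    rw [map_add, map_add, e3] at e2
    rw [map_sub, e1]
    have e4 : (p * p) v + v = (p * q) v + (p * q⁻¹) v := e2
    have e5 := eq_sub_of_add_eq e4
    rw [e5]
    abel
  have h3 : (p * q) v - v ≠ 0 := by
    intro h0
    have h4 := sub_eq_zero.1 h0
    refine hv (hfree (p * q) (Γ.mul_mem hp hq) ?_ v h4)
    intro h5
    exact h2 (mul_eq_one_iff_eq_inv.1 h5)
  refine h3 (hfree (p * q⁻¹) (Γ.mul_mem hp (Γ.inv_mem hq)) ?_ _ hw)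
  intro h5
  exact h1 (mul_inv_eq_one.1 h5)


theorem finrank_mod_four [FiniteDimensional ℝ E] (Γ : Subgroup (E ≃ₗᵢ[ℝ] E)) [Finite Γ]
    (hfree : ActsFreely Γ) (hirr : Irred Γ) (hodd : Odd (Nat.card Γ))
    (hdim : 2 ≤ Module.finrank ℝ E) : Module.finrank ℝ E % 4 = 2 := by
  classical
  have : Nontrivial E := Module.nontrivial_of_finrank_pos (R := ℝ) (by omega)
  have hnt : Nontrivial Γ := by
    rw [Subgroup.nontrivial_iff_ne_bot]
    intro hbot
    obtain ⟨v, hv⟩ := exists_ne (0 : E)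
    rcases hirr (ℝ ∙ v) (by
      intro γ hγ w hw
      rw [hbot, Subgroup.mem_bot] at hγ
      rw [hγ]
      exact hw) with h | h
    · exact hv (Submodule.span_singleton_eq_bot.1 h)
    · have h1 : Module.finrank ℝ (ℝ ∙ v : Submodule ℝ E) = 1 := finrank_span_singleton hv
      rw [h, finrank_top] at h1
      omega
  have hZ : IsZGroup Γ := isZGroup_of_odd hodd (by
    intro p hp a c hac hap hcp ha1
    have h := mem_zpowers_of_commute hfree hp a.2 c.2
      (by
        have := hac.eq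
        exact congrArg Subtype.val this)
      (by exact_mod_cast congrArg Subtype.val hap) (by exact_mod_cast congrArg Subtype.val hcp)
      (by
        intro h
        exact ha1 (Subtype.ext h))
    obtain ⟨k, hk⟩ := Subgroup.mem_zpowers_iff.1 h
    exact Subgroup.mem_zpowers_iff.2 ⟨k, Subtype.ext (by exact_mod_cast hk)⟩)
  obtain ⟨b, hnorm, hself⟩ := struct_selfcent (G := Γ)
  have hb1 : b ≠ 1 := by
    rintro rfl
    obtain ⟨g, hg⟩ := exists_ne (1 : Γ)
    have := hself g (by simp)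
    rw [Subgroup.zpowers_one_eq_bot, Subgroup.mem_bot] at this
    exact hg this
  have hs : ∀ g : Γ, ∃ s : ℕ, g⁻¹ * b * g = b ^ s := by
    intro g
    have h1 : g⁻¹ * b * g ∈ Subgroup.zpowers b := by
      have := hnorm.conj_mem b (Subgroup.mem_zpowers b) g⁻¹
      simpa using this
    obtain ⟨s, hs⟩ := (mem_powers_iff_mem_zpowers.2 h1)
    exact ⟨s, hs.symm⟩
  choose s hs using hs
  set β : E ≃ₗᵢ[ℝ] E := (b : E ≃ₗᵢ[ℝ] E) with hβ
  let S : Module.End ℝ E := (β.toLinearEquiv : E →ₗ[ℝ] E) + ((β⁻¹).toLinearEquiv : E →ₗ[ℝ] E)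
  have hSapp : ∀ x, S x = β x + β⁻¹ x := fun x => rfl
  have hbb : ∀ x, β (β⁻¹ x) = x := fun x => by
    show (β * β⁻¹) x = x
    rw [mul_inv_cancel]; rfl
  have hbb' : ∀ x, β⁻¹ (β x) = x := fun x => by
    show (β⁻¹ * β) x = x
    rw [inv_mul_cancel]; rfl
  have hSsym : S.IsSymmetric := by
    intro x y
    rw [hSapp, hSapp, inner_add_left, inner_add_right]
    have e1 : ⟪β x, y⟫ = ⟪x, β⁻¹ y⟫ := by
      rw [← (β⁻¹).inner_map_map (β x) y, hbb']
    have e2 : ⟪β⁻¹ x, y⟫ = ⟪x, β y⟫ := by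
      rw [← β.inner_map_map (β⁻¹ x) y, hbb]
    rw [e1, e2, add_comm]
  obtain ⟨l, hl⟩ : ∃ l : ℝ, Module.End.HasEigenvalue S l :=
    ⟨_, hSsym.hasEigenvalue_iSup_of_finiteDimensional⟩
  obtain ⟨v, hv⟩ := hl.exists_hasEigenvector
  have hv0 : v ≠ 0 := hv.2
  have hvl : β v + β⁻¹ v = l • v := hv.apply_eq_smul
  have hβ2 : β (β v) = l • β v - v := by
    have := congrArg β hvl
    rw [map_add, hbb, map_smul] at this
    exact eq_sub_of_add_eq this
  set U : Submodule ℝ E := Submodule.span ℝ {v, β v} with hU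
  have hvU : v ∈ U := Submodule.subset_span (by simp)
  have hβvU : β v ∈ U := Submodule.subset_span (by simp)
  have hUb : ∀ x ∈ U, β x ∈ U := by
    intro x hx
    rw [hU, Submodule.mem_span_pair] at hx
    obtain ⟨a, c, rfl⟩ := hx
    rw [map_add, map_smul, map_smul, hβ2]
    exact U.add_mem (U.smul_mem _ hβvU) (U.smul_mem _ (U.sub_mem (U.smul_mem _ hβvU) hvU))
  have hUE : ∀ x ∈ U, β x + β⁻¹ x = l • x := by
    intro x hx
    rw [hU, Submodule.mem_span_pair] at hx
    obtain ⟨a, c, rfl⟩ := hx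
    have e1 : β (β v) + β⁻¹ (β v) = l • β v := by rw [hβ2, hbb']; abel
    calc β (a • v + c • β v) + β⁻¹ (a • v + c • β v) = a • (β v + β⁻¹ v) + c • (β (β v) + β⁻¹ (β v)) := by
          rw [map_add, map_add, map_smul, map_smul, map_smul, map_smul, smul_add, smul_add]; abel
      _ = l • (a • v + c • β v) := by rw [hvl, e1, smul_add, smul_comm, smul_comm c]
  have hUc : ∀ c ∈ Subgroup.zpowers b, ∀ x ∈ U, (c : E ≃ₗᵢ[ℝ] E) x ∈ U := by
    intro c hc x hx
    obtain ⟨n, hn⟩ := mem_powers_iff_mem_zpowers.2 hc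
    have hn' : b ^ n = c := hn
    rw [← hn']
    clear hn' hn hc
    induction n with
    | zero => simpa using hx
    | succ n ih =>
      have : ((b ^ (n + 1) : Γ) : E ≃ₗᵢ[ℝ] E) x = β (((b ^ n : Γ) : E ≃ₗᵢ[ℝ] E) x) := by
        rw [pow_succ']; rfl
      rw [this]
      exact hUb _ ih
  -- the translates of `U`
  let W : (Γ ⧸ Subgroup.zpowers b) → Submodule ℝ E := fun q =>
    U.map (((q.out : Γ) : E ≃ₗᵢ[ℝ] E).toLinearEquiv : E →ₗ[ℝ] E)
  have hWg : ∀ (g : Γ), ∀ x ∈ U, (g : E ≃ₗᵢ[ℝ] E) x ∈ W (g : Γ ⧸ Subgroup.zpowers b) := by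
    intro g x hx
    obtain ⟨h, hh⟩ := QuotientGroup.mk_out_eq_mul (Subgroup.zpowers b) g
    refine ⟨(((h⁻¹ : Subgroup.zpowers b) : Γ) : E ≃ₗᵢ[ℝ] E) x, hUc _ (h⁻¹).2 x hx, ?_⟩
    show (((((g : Γ ⧸ Subgroup.zpowers b).out : Γ) * ((h⁻¹ : Subgroup.zpowers b) : Γ) : Γ)) : E ≃ₗᵢ[ℝ] E) x = _
    rw [hh, InvMemClass.coe_inv, mul_inv_cancel_right]
  have hWeig : ∀ q, W q ≤ S.eigenspace (structT l (s q.out)) := by
    intro q y hy
    obtain ⟨x, hx, rfl⟩ := hy
    rw [Module.End.mem_eigenspace_iff, hSapp]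
    set g := q.out with hg
    have hT := (struct_T β (hUE x hx) (s g)).1
    have e1 : β * (g : E ≃ₗᵢ[ℝ] E) = (g : E ≃ₗᵢ[ℝ] E) * β ^ (s g) := by
      have h1 : b * g = g * b ^ (s g) := by rw [← hs g]; group
      have := congrArg Subtype.val h1
      simpa using this
    have e2 : β⁻¹ * (g : E ≃ₗᵢ[ℝ] E) = (g : E ≃ₗᵢ[ℝ] E) * (β ^ (s g))⁻¹ := by
      rw [eq_mul_inv_iff_mul_eq, mul_assoc, ← e1]; group
    show (β * (g : E ≃ₗᵢ[ℝ] E)) x + (β⁻¹ * (g : E ≃ₗᵢ[ℝ] E)) x = _ • (g : E ≃ₗᵢ[ℝ] E) x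
    rw [e1, e2]
    show (g : E ≃ₗᵢ[ℝ] E) ((β ^ (s g)) x) + (g : E ≃ₗᵢ[ℝ] E) (((β ^ (s g))⁻¹) x) = _
    rw [← map_add, hT, map_smul]
  have hinj : Function.Injective fun q : Γ ⧸ Subgroup.zpowers b => structT l (s q.out) := by
    intro q q' hqq
    simp only at hqq
    have h1 := (struct_T β hvl (s q.out)).1
    have h2 := (struct_T β hvl (s q'.out)).1
    rw [hqq, ← h2] at h1
    have hmem : ∀ n : ℕ, β ^ n ∈ Γ := fun n => Γ.pow_mem b.2 n
    rw [← QuotientGroup.out_eq' q, ← QuotientGroup.out_eq' q', QuotientGroup.eq]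
    set g := q.out
    set g' := q'.out
    rcases struct_two hfree (hmem _) (hmem _) (by rw [← pow_add, ← pow_add, add_comm]) hv0 h1 with h | h
    · have h3 : b ^ s g = b ^ s g' := Subtype.ext (by simpa using h)
      rw [← hs g, ← hs g'] at h3
      have h4 : g' * g⁻¹ ∈ Subgroup.zpowers b := by
        apply hself
        calc g' * g⁻¹ * b = g' * (g⁻¹ * b * g) * g⁻¹ := by group
          _ = b * (g' * g⁻¹) := by rw [h3]; group
      have h5 := hnorm.conj_mem _ h4 g⁻¹
      have h6 : g⁻¹ * (g' * g⁻¹) * g⁻¹⁻¹ = g⁻¹ * g' := by group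
      rwa [h6] at h5
    · have h3 : b ^ s g = (b ^ s g')⁻¹ := Subtype.ext (by simpa using h)
      rw [← hs g, ← hs g'] at h3
      exfalso
      apply hb1
      apply struct_odd hodd (δ := g' * g⁻¹)
      calc g' * g⁻¹ * b * (g' * g⁻¹)⁻¹ = g' * (g⁻¹ * b * g) * g'⁻¹ := by group
        _ = b⁻¹ := by rw [h3]; group
  have hind : iSupIndep W := by
    have h1 := (Module.End.eigenspaces_iSupIndep S).comp hinj
    exact h1.mono hWeig
  have htop : iSup W = ⊤ := by
    rcases hirr (iSup W) (by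
      intro γ hγ w hw
      induction hw using Submodule.iSup_induction' with
      | mem q x hx =>
        obtain ⟨y, hy, rfl⟩ := hx
        have h1 := hWg (⟨γ, hγ⟩ * q.out) y hy
        exact Submodule.mem_iSup_of_mem _ h1
      | zero => rw [map_zero]; exact Submodule.zero_mem _
      | add x y _ _ hx hy => rw [map_add]; exact Submodule.add_mem _ hx hy) with h | h
    · exfalso
      have h1 := hWg 1 v hvU
      have h2 : v ∈ iSup W := Submodule.mem_iSup_of_mem _ h1
      rw [h, Submodule.mem_bot] at h2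
      exact hv0 h2
    · exact h
  have hint := DirectSum.isInternal_submodule_of_iSupIndep_of_iSup_eq_top hind htop
  have hUfin : Module.finrank ℝ U = 2 := by
    have hli : LinearIndependent ℝ ![v, β v] := by
      rw [LinearIndependent.pair_iff' hv0]
      intro a ha
      have h1 : |a| = 1 := by
        have h2 : ‖a • v‖ = ‖v‖ := by rw [ha, LinearIsometryEquiv.norm_map]
        rw [norm_smul, Real.norm_eq_abs] at h2
        have h3 : ‖v‖ ≠ 0 := norm_ne_zero_iff.2 hv0
        exact mul_right_cancel₀ h3 (by rw [h2, one_mul])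
      have h2 : (β * β) v = v := by
        show β (β v) = v
        rw [← ha, map_smul, ← ha, smul_smul, ← abs_mul_abs_self, h1, one_mul, one_smul]
      have h3 : β * β = 1 := by
        by_contra h4
        exact hv0 (hfree (β * β) (Γ.mul_mem b.2 b.2) h4 v h2)
      have h4 : b * b = 1 := Subtype.ext h3
      apply hb1
      apply struct_odd hodd (δ := 1)
      rw [one_mul, inv_one, mul_one]
      exact eq_inv_of_mul_eq_one_left h4
    have h1 := finrank_span_eq_card hli
    rw [Matrix.range_cons, Matrix.range_cons, Matrix.range_empty, Set.union_empty, Fintype.card_fin] at h1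
    rw [hU]
    exact h1
  have : Fintype (Γ ⧸ Subgroup.zpowers b) := Fintype.ofFinite _
  have hfr : Module.finrank ℝ E = Nat.card (Γ ⧸ Subgroup.zpowers b) * 2 := by
    have e := LinearEquiv.ofBijective (DirectSum.coeLinearMap W) hint
    rw [← e.finrank_eq, Module.finrank_directSum]
    have : ∀ q, Module.finrank ℝ (W q) = 2 := fun q => by
      rw [← hUfin]
      exact LinearEquiv.finrank_map_eq _ _
    rw [Finset.sum_congr rfl (fun q _ => this q), Finset.sum_const, Finset.card_univ, smul_eq_mul,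
      Nat.card_eq_fintype_card]
  have hcard : Odd (Nat.card (Γ ⧸ Subgroup.zpowers b)) :=
    Odd.of_dvd_nat hodd (Subgroup.card_quotient_dvd_card _)
  obtain ⟨k, hk⟩ := hcard
  omega

end Pool.Agent.DGP
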