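import Pool.Agent.DGP.Defs

/-!
Module Sums (size 1).  If a finite group acts freely then the sum over a nontrivial subgroup of the
translates of a vector is a fixed vector, hence zero.
-/

set_option autoImplicit false

open scoped RealInnerProductSpace

namespace Pool.Agent.DGP

variable {E : Type*} [NormedAddCommGroup E] [InnerProductSpace ℝ E]

theorem sum_subgroup_eq_zero (Γ : Subgroup (E ≃ₗᵢ[ℝ] E)) [Fintype Γ] (hfree : ActsFreely Γ)
    (hne : Γ ≠ ⊥) (x : E) : ∑ γ : Γ, (γ : E ≃ₗᵢ[ℝ] E) x = 0 := by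
  obtain ⟨δ, hδ, hδ1⟩ := Γ.bot_or_exists_ne_one.resolve_left hne
  apply hfree δ hδ hδ1
  rw [map_sum]
  exact Fintype.sum_equiv (Equiv.mulLeft (⟨δ, hδ⟩ : Γ)) _ _ (fun γ => rfl)

theorem sum_pow_eq_zero {g : E ≃ₗᵢ[ℝ] E} {m : ℕ} (hm : g ^ m = 1)
    (hg : ∀ x : E, g x = x → x = 0) (x : E) : ∑ i ∈ Finset.range m, (g ^ i) x = 0 := by
  apply hg
  rw [map_sum]
  have h1 : ∀ i, g ((g ^ i) x) = (g ^ (i + 1)) x := by
    intro i
    rw [pow_succ']
    rfl
  simp only [h1]
  have h2 := Finset.sum_range_succ (fun i => (g ^ i) x) m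
  have h3 := Finset.sum_range_succ' (fun i => (g ^ i) x) m
  rw [h2] at h3
  simp only [hm, pow_zero] at h3
  exact (add_right_cancel h3).symm

end Pool.Agent.DGP
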